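import Pool.Agent.Helper89.TQ.Ctx
import Mathlib.Tactic

set_option autoImplicit false
set_option linter.all false
set_option maxHeartbeats 4000000

namespace Pool.Agent.Helper35.TQ

open Pool.Agent.Helper89.TQ

namespace L_c0_11_13_23_k0

theorem dj0 {P0 P1 : Prop} (h : (P0) ∨ (P1)) : (P0) ∨ (P1) := by tauto

theorem dj1 {P0 P1 P2 P3 : Prop} (h : ((P0) ∧ (P1)) ∨ ((P2) ∧ (P3))) : (P0 ∧ P1) ∨ (P2 ∧ P3) := by tauto

theorem dj2 {P0 P1 P2 P3 P4 P5 : Prop} (h : (P0) → ((P1) → ((P2) → (¬ ((P3) ∧ ((P4) ∧ (P5))))))) : (¬ P0) ∨ (¬ P1) ∨ (¬ P2) ∨ (¬ P3) ∨ (¬ P4) ∨ (¬ P5) := by tauto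

theorem dj3 {P0 P1 P2 : Prop} (h : (P0) ∨ ((P1) ∨ (P2))) : (P0) ∨ (P1) ∨ (P2) := by tauto

theorem dj4 {P0 P1 P2 P3 P4 P5 : Prop} (h : ¬ ((P0) ∧ ((P1) ∧ ((P2) ∧ ((P3) ∧ ((P4) ∨ (P5))))))) : (¬ P0) ∨ (¬ P1) ∨ (¬ P2) ∨ (¬ P3) ∨ (¬ P4 ∧ ¬ P5) := by tauto

end L_c0_11_13_23_k0

open L_c0_11_13_23_k0 in
theorem c0_11_13_23_k0 {n1 n2 n3 A1 A2 A3 B1 B2 B3 m11_1 m11_2 m11_3 m13_1 m13_2 m13_3 m22_1 m22_2 m22_3 m23_1 m23_2 m23_3 m33_1 m33_2 m33_3 : ℤ}
    (C : Ctx0 n1 n2 n3 A1 A2 A3 B1 B2 B3 m11_1 m11_2 m11_3 m13_1 m13_2 m13_3 m22_1 m22_2 m22_3 m23_1 m23_2 m23_3 m33_1 m33_2 m33_3)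
    (e0 : 0 < B1)
    (e1 : 0 < A1)
    (e2 : 0 < B3)
    (e3 : 0 < A2)
    (s1 : 0 * A1 + 3 * B1 ≤ m11_1 + m13_1 + m23_1)
    (s2 : 0 * A2 + 3 * B2 ≤ m11_2 + m13_2 + m23_2)
    (s3 : 0 * A3 + 3 * B3 ≤ m11_3 + m13_3 + m23_3) : False := by
  rcases dj0 C.f13_2 with g0 | g0
  · skip
    rcases dj1 C.t12 with ⟨g1_0, g1_1⟩ | ⟨g1_0, g1_1⟩
    · skip
      rcases dj0 C.f13_5 with g3 | g3
      · skip
        rcases dj2 C.p11_13B with g5 | g5 | g5 | g5 | g5 | g5
        · skip
          linarith only [e0, g5]
        · skip
          linarith only [e1, g5]
        · skip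
          linarith only [e2, g5]
        · skip
          rcases dj3 C.f23_7 with g6 | g6 | g6
          · skip
            linarith only [C.f11_0, C.f23_5, g0, g1_0, g1_1, g5, g6, s1]
          · skip
            rcases dj2 C.p11_23B with g8 | g8 | g8 | g8 | g8 | g8
            · skip
              linarith only [e0, g8]
            · skip
              linarith only [e3, g8]
            · skip
              linarith only [e2, g8]
            · skip
              linarith only [C.f11_0, g5, g8, s1]
            · skip
              rcases dj4 C.tzpm with g9 | g9 | g9 | g9 | ⟨g9_0, g9_1⟩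
              · skip
                linarith only [C.f11_0, C.f23_1, g0, g5, g9, s1]
              · skip
                linarith only [C.f11_2, C.f13_7, C.f23_9, C.o1, C.o2, g6, g8, g9, s3]
              · skip
                linarith only [C.f11_0, C.f13_3, g5, g8, g9, s2]
              · skip
                linarith only [C.f13_4, g8, g9, s2]
              · skip
                linarith only [C.f11_0, C.f11_1, C.f13_3, g5, g6, g8, g9_0, g9_1, s2]
            · skip
              linarith only [C.f13_7, g8, s3]
          · skip
            linarith only [C.f13_4, C.f23_5, g0, g1_0, g1_1, g3, g6]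
        · skip
          linarith only [C.b3, C.f11_0, C.f11_1, C.f23_5, g0, g1_0, g1_1, g3, g5, s2]
        · skip
          linarith only [C.f23_9, g5, s3]
      · skip
        rcases dj2 C.p11_13B with g5 | g5 | g5 | g5 | g5 | g5
        · skip
          linarith only [e0, g5]
        · skip
          linarith only [e1, g5]
        · skip
          linarith only [e2, g5]
        · skip
          rcases dj3 C.f23_7 with g6 | g6 | g6
          · skip
            linarith only [C.f11_0, C.f23_5, g0, g1_0, g1_1, g5, g6, s1]
          · skip
            rcases dj2 C.p11_23B with g8 | g8 | g8 | g8 | g8 | g8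
            · skip
              linarith only [e0, g8]
            · skip
              linarith only [e3, g8]
            · skip
              linarith only [e2, g8]
            · skip
              linarith only [C.f11_0, g5, g8, s1]
            · skip
              rcases dj4 C.tzpm with g9 | g9 | g9 | g9 | ⟨g9_0, g9_1⟩
              · skip
                linarith only [C.f11_0, C.f23_1, g0, g5, g9, s1]
              · skip
                linarith only [C.f11_2, C.f13_7, C.f23_9, C.o1, C.o2, g6, g8, g9, s3]
              · skip
                linarith only [C.f11_0, C.f13_3, g5, g8, g9, s2]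
              · skip
                linarith only [C.f13_4, g8, g9, s2]
              · skip
                linarith only [C.f11_0, C.f11_1, C.f13_3, g5, g6, g8, g9_0, g9_1, s2]
            · skip
              linarith only [C.f13_7, g8, s3]
          · skip
            linarith only [C.a4, C.f23_5, C.o2, g6]
        · skip
          linarith only [C.a4, C.b3, C.f11_0, C.f11_1, C.f23_5, C.o2, g3, g5, s2]
        · skip
          linarith only [C.f23_9, g5, s3]
    · skip
      rcases dj0 C.f13_5 with g3 | g3
      · skip
        rcases dj2 C.p11_13B with g5 | g5 | g5 | g5 | g5 | g5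
        · skip
          linarith only [e0, g5]
        · skip
          linarith only [e1, g5]
        · skip
          linarith only [e2, g5]
        · skip
          rcases dj3 C.f23_7 with g6 | g6 | g6
          · skip
            linarith only [C.a3, C.f11_0, C.f23_5, g0, g5, g6, s1]
          · skip
            rcases dj2 C.p11_23B with g8 | g8 | g8 | g8 | g8 | g8
            · skip
              linarith only [e0, g8]
            · skip
              linarith only [e3, g8]
            · skip
              linarith only [e2, g8]
            · skip
              linarith only [C.f11_0, g5, g8, s1]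
            · skip
              rcases dj4 C.tzpm with g9 | g9 | g9 | g9 | ⟨g9_0, g9_1⟩
              · skip
                linarith only [C.f11_0, C.f23_1, g0, g5, g9, s1]
              · skip
                linarith only [C.f11_2, C.f13_7, C.f23_9, C.o1, C.o2, g6, g8, g9, s3]
              · skip
                linarith only [g1_0, g1_1, g9]
              · skip
                linarith only [C.f13_4, g8, g9, s2]
              · skip
                linarith only [C.f11_0, C.f11_1, g1_0, g1_1, g6, g8, g9_0, g9_1]
            · skip
              linarith only [C.f13_7, g8, s3]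
          · skip
            linarith only [C.a4, C.f23_5, C.o2, g6]
        · skip
          linarith only [C.f11_0, C.f11_1, C.o0, g0, g1_0, g1_1, g3, g5]
        · skip
          linarith only [C.f23_9, g5, s3]
      · skip
        rcases dj2 C.p11_13B with g5 | g5 | g5 | g5 | g5 | g5
        · skip
          linarith only [e0, g5]
        · skip
          linarith only [e1, g5]
        · skip
          linarith only [e2, g5]
        · skip
          rcases dj3 C.f23_7 with g6 | g6 | g6
          · skip
            linarith only [C.a3, C.f11_0, C.f23_5, g0, g5, g6, s1]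
          · skip
            rcases dj2 C.p11_23B with g8 | g8 | g8 | g8 | g8 | g8
            · skip
              linarith only [e0, g8]
            · skip
              linarith only [e3, g8]
            · skip
              linarith only [e2, g8]
            · skip
              linarith only [C.f11_0, g5, g8, s1]
            · skip
              rcases dj4 C.tzpm with g9 | g9 | g9 | g9 | ⟨g9_0, g9_1⟩
              · skip
                linarith only [C.f11_0, C.f23_1, g0, g5, g9, s1]
              · skip
                linarith only [C.f11_2, C.f13_7, C.f23_9, C.o1, C.o2, g6, g8, g9, s3]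
              · skip
                linarith only [g1_0, g1_1, g9]
              · skip
                linarith only [C.f13_4, g8, g9, s2]
              · skip
                linarith only [C.f11_0, C.f11_1, g1_0, g1_1, g6, g8, g9_0, g9_1]
            · skip
              linarith only [C.f13_7, g8, s3]
          · skip
            linarith only [C.a4, C.f23_5, C.o2, g6]
        · skip
          linarith only [C.a4, C.f11_0, C.f11_1, C.f23_5, C.o2, g1_0, g1_1, g3, g5, s2]
        · skip
          linarith only [C.f23_9, g5, s3]
  · skip
    linarith only [C.a2, C.a4, C.f13_0, C.o2, g0]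

end Pool.Agent.Helper35.TQ
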