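import Pool.Agent.Helper89.TQ.Ctx
import Mathlib.Tactic

set_option autoImplicit false
set_option linter.all false
set_option maxHeartbeats 4000000

namespace Pool.Agent.Helper35.TQ

open Pool.Agent.Helper89.TQ

namespace L_c0_11_13_23_k3

theorem dj0 {P0 P1 P2 : Prop} (h : (P0) ∨ ((P1) ∨ (P2))) : (P0) ∨ (P1) ∨ (P2) := by tauto

theorem dj1 {P0 P1 P2 P3 : Prop} (h : ¬ ((P0) ∧ ((P1) ∧ ((P2) ∧ (P3))))) : (¬ P0) ∨ (¬ P1) ∨ (¬ P2) ∨ (¬ P3) := by tauto

theorem dj2 {P0 P1 : Prop} (h : (P0) ∨ (P1)) : (P0) ∨ (P1) := by tauto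

theorem dj3 {P0 P1 P2 P3 P4 P5 : Prop} (h : (P0) → ((P1) → ((P2) → (¬ ((P3) ∧ ((P4) ∧ (P5))))))) : (¬ P0) ∨ (¬ P1) ∨ (¬ P2) ∨ (¬ P3) ∨ (¬ P4) ∨ (¬ P5) := by tauto

end L_c0_11_13_23_k3

open L_c0_11_13_23_k3 in
theorem c0_11_13_23_k3 {n1 n2 n3 A1 A2 A3 B1 B2 B3 m11_1 m11_2 m11_3 m13_1 m13_2 m13_3 m22_1 m22_2 m22_3 m23_1 m23_2 m23_3 m33_1 m33_2 m33_3 : ℤ}
    (C : Ctx0 n1 n2 n3 A1 A2 A3 B1 B2 B3 m11_1 m11_2 m11_3 m13_1 m13_2 m13_3 m22_1 m22_2 m22_3 m23_1 m23_2 m23_3 m33_1 m33_2 m33_3)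
    (e0 : 0 < B1)
    (e1 : 0 < A1)
    (e2 : 0 < B3)
    (e3 : 0 < A2)
    (s1 : 3 * A1 + 0 * B1 ≤ m11_1 + m13_1 + m23_1)
    (s2 : 3 * A2 + 0 * B2 ≤ m11_2 + m13_2 + m23_2)
    (s3 : 3 * A3 + 0 * B3 ≤ m11_3 + m13_3 + m23_3) : False := by
  rcases dj0 C.f23_7 with g1 | g1 | g1
  · skip
    linarith only [C.a3, C.f11_0, C.f13_0, C.f23_5, C.o0, g1, s1]
  · skip
    rcases dj1 C.tmpp with g2 | g2 | g2 | g2
    · skip
      linarith only [C.f11_0, C.f13_0, C.f23_0, C.o0, g2, s1]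
    · skip
      linarith only [C.f11_0, C.f13_0, C.f23_1, C.o0, g2, s1]
    · skip
      linarith only [e0, g2]
    · skip
      rcases dj2 C.f13_8 with g3 | g3
      · skip
        linarith only [C.b5, C.f11_0, C.f11_1, C.f13_7, C.f23_5, C.o1, g2, g3, s2]
      · skip
        rcases dj3 C.p13_23A with g5 | g5 | g5 | g5 | g5 | g5
        · skip
          linarith only [e1, g5]
        · skip
          linarith only [e2, g5]
        · skip
          linarith only [e3, g5]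
        · skip
          linarith only [C.f11_0, C.o0, g5, s1]
        · skip
          linarith only [C.f11_0, C.f11_1, C.o1, g2, g5, s2]
        · skip
          rcases dj2 C.f23_10 with g6 | g6
          · skip
            linarith only [C.b5, C.o1, C.o2, g1, g3, g5, g6]
          · skip
            linarith only [C.o2, g3, g5, g6]
  · skip
    linarith only [C.a4, C.f23_5, C.o2, g1]

end Pool.Agent.Helper35.TQ
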