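import Pool.Agent.Helper89.TQ.Ctx
import Mathlib.Tactic

set_option autoImplicit false
set_option linter.all false
set_option maxHeartbeats 4000000

namespace Pool.Agent.Helper35.TQ

open Pool.Agent.Helper89.TQ

namespace L_c0_11_13_33_k2

theorem dj0 {P0 P1 : Prop} (h : (P0) ∨ (P1)) : (P0) ∨ (P1) := by tauto

theorem dj1 {P0 P1 P2 P3 : Prop} (h : ((P0) ∧ (P1)) ∨ ((P2) ∧ (P3))) : (P0 ∧ P1) ∨ (P2 ∧ P3) := by tauto

theorem dj2 {P0 P1 P2 P3 P4 P5 : Prop} (h : (P0) → ((P1) → ((P2) → (¬ ((P3) ∧ ((P4) ∧ (P5))))))) : (¬ P0) ∨ (¬ P1) ∨ (¬ P2) ∨ (¬ P3) ∨ (¬ P4) ∨ (¬ P5) := by tauto

theorem dj3 {P0 P1 P2 P3 P4 : Prop} (h : (P0) → ((P1) → (¬ ((P2) ∧ ((P3) ∧ (P4)))))) : (¬ P0) ∨ (¬ P1) ∨ (¬ P2) ∨ (¬ P3) ∨ (¬ P4) := by tauto

theorem dj4 {P0 P1 P2 P3 : Prop} (h : ¬ ((P0) ∧ ((P1) ∧ ((P2) ∧ (P3))))) : (¬ P0) ∨ (¬ P1) ∨ (¬ P2) ∨ (¬ P3) := by tauto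

theorem dj5 {P0 P1 P2 P3 P4 P5 : Prop} (h : ¬ ((P0) ∧ ((P1) ∧ ((P2) ∧ ((P3) ∧ ((P4) ∧ (P5))))))) : (¬ P0) ∨ (¬ P1) ∨ (¬ P2) ∨ (¬ P3) ∨ (¬ P4) ∨ (¬ P5) := by tauto

end L_c0_11_13_33_k2

open L_c0_11_13_33_k2 in
theorem c0_11_13_33_k2 {n1 n2 n3 A1 A2 A3 B1 B2 B3 m11_1 m11_2 m11_3 m13_1 m13_2 m13_3 m22_1 m22_2 m22_3 m23_1 m23_2 m23_3 m33_1 m33_2 m33_3 : ℤ}
    (C : Ctx0 n1 n2 n3 A1 A2 A3 B1 B2 B3 m11_1 m11_2 m11_3 m13_1 m13_2 m13_3 m22_1 m22_2 m22_3 m23_1 m23_2 m23_3 m33_1 m33_2 m33_3)
    (e0 : 0 < B1)
    (e1 : 0 < A1)
    (e2 : 0 < B3)
    (e3 : 0 < A3)
    (s1 : 2 * A1 + 1 * B1 ≤ m11_1 + m13_1 + m33_1)
    (s2 : 2 * A2 + 1 * B2 ≤ m11_2 + m13_2 + m33_2)
    (s3 : 2 * A3 + 1 * B3 ≤ m11_3 + m13_3 + m33_3) : False := by
  rcases dj0 C.f13_2 with g0 | g0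
  · skip
    rcases dj1 C.t12 with ⟨g1_0, g1_1⟩ | ⟨g1_0, g1_1⟩
    · skip
      rcases dj1 C.t23 with ⟨g2_0, g2_1⟩ | ⟨g2_0, g2_1⟩
      · skip
        rcases dj0 C.f13_5 with g3 | g3
        · skip
          rcases dj0 C.f13_8 with g4 | g4
          · skip
            linarith only [C.b5, C.f13_7, C.o1, g0, g1_0, g1_1, g3, g4]
          · skip
            rcases dj0 C.f33_5 with g6 | g6
            · skip
              rcases dj2 C.p13_33A with g9 | g9 | g9 | g9 | g9 | g9
              · skip
                linarith only [e1, g9]
              · skip
                linarith only [e2, g9]
              · skip
                linarith only [e3, g9]
              · skip
                linarith only [C.f11_0, g9, s1]
              · skip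
                linarith only [C.f11_0, g1_0, g1_1, g3, g6, g9, s1]
              · skip
                rcases dj2 C.p11_13B with g10 | g10 | g10 | g10 | g10 | g10
                · skip
                  linarith only [e0, g10]
                · skip
                  linarith only [e1, g10]
                · skip
                  linarith only [e2, g10]
                · skip
                  rcases dj3 C.p11_33A with g11 | g11 | g11 | g11 | g11
                  · skip
                    linarith only [e0, g11]
                  · skip
                    linarith only [e3, g11]
                  · skip
                    linarith only [C.f11_0, g10, g11, s1]
                  · skip
                    linarith only [C.f11_0, C.f11_1, g1_0, g1_1, g10, g11, g6, s1]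
                  · skip
                    linarith only [C.f13_7, g11, s3]
                · skip
                  rcases dj3 C.p11_33A with g11 | g11 | g11 | g11 | g11
                  · skip
                    linarith only [e0, g11]
                  · skip
                    linarith only [e3, g11]
                  · skip
                    linarith only [C.b3, C.f11_0, C.f11_1, g10, g11, g3, s1]
                  · skip
                    linarith only [C.b3, C.f11_0, C.f11_1, g1_0, g1_1, g10, g11, g3, g6, s1]
                  · skip
                    linarith only [C.f13_7, g11, s3]
                · skip
                  linarith only [g10, g4, g9, s3]
            · skip
              rcases dj0 C.f33_8 with g7 | g7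
              · skip
                linarith only [C.b5, C.f13_4, C.f33_7, C.o1, g0, g1_0, g1_1, g3, g6, g7]
              · skip
                rcases dj2 C.p13_33A with g9 | g9 | g9 | g9 | g9 | g9
                · skip
                  linarith only [e1, g9]
                · skip
                  linarith only [e2, g9]
                · skip
                  linarith only [e3, g9]
                · skip
                  linarith only [C.f11_0, g9, s1]
                · skip
                  rcases dj4 C.tmpp with g10 | g10 | g10 | g10
                  · skip
                    linarith only [C.f11_0, C.f13_0, C.f33_0, g10, s1]
                  · skip
                    linarith only [C.f11_0, C.f33_1, g1_0, g1_1, g10, g3, g6, g9, s1]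
                  · skip
                    linarith only [e0, g10]
                  · skip
                    linarith only [C.f11_0, C.f11_1, g10, g9, s2]
                · skip
                  rcases dj2 C.p11_13B with g10 | g10 | g10 | g10 | g10 | g10
                  · skip
                    linarith only [e0, g10]
                  · skip
                    linarith only [e1, g10]
                  · skip
                    linarith only [e2, g10]
                  · skip
                    rcases dj3 C.p11_33A with g11 | g11 | g11 | g11 | g11
                    · skip
                      linarith only [e0, g11]
                    · skip
                      linarith only [e3, g11]
                    · skip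
                      linarith only [C.f11_0, g10, g11, s1]
                    · skip
                      rcases dj4 C.tmpp with g12 | g12 | g12 | g12
                      · skip
                        linarith only [C.f11_0, C.f13_0, C.f33_0, g12, s1]
                      · skip
                        linarith only [C.f11_0, C.f11_1, C.f33_1, g1_0, g1_1, g10, g11, g12, g6, s1]
                      · skip
                        linarith only [e0, g12]
                      · skip
                        rcases dj5 C.tmzp with g13 | g13 | g13 | g13 | g13 | g13
                        · skip
                          linarith only [C.f11_0, C.f13_0, C.f33_0, g13, s1]
                        · skip
                          linarith only [g13, g2_0, g2_1]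
                        · skip
                          linarith only [C.f11_0, C.f11_1, C.f13_4, C.f33_4, g12, g13, g4, g7, g9, s2]
                        · skip
                          linarith only [e0, g13]
                        · skip
                          linarith only [C.f11_0, C.f13_3, g10, g11, g13, s2]
                        · skip
                          linarith only [C.f11_0, C.f11_1, C.f11_2, g12, g13, g9, s3]
                    · skip
                      linarith only [C.f13_7, g11, s3]
                  · skip
                    rcases dj3 C.p11_33A with g11 | g11 | g11 | g11 | g11
                    · skip
                      linarith only [e0, g11]
                    · skip
                      linarith only [e3, g11]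
                    · skip
                      linarith only [C.b3, C.f11_0, C.f11_1, g10, g11, g3, s1]
                    · skip
                      linarith only [C.b3, C.f11_0, C.f11_1, g10, g11, s2]
                    · skip
                      linarith only [C.f13_7, g11, s3]
                  · skip
                    linarith only [g10, g4, g9, s3]
        · skip
          rcases dj0 C.f13_8 with g4 | g4
          · skip
            linarith only [C.a4, C.f13_7, g2_0, g2_1, g3, g4]
          · skip
            rcases dj0 C.f33_5 with g5 | g5
            · skip
              linarith only [C.f11_0, C.f13_0, C.f13_3, C.f33_4, C.o2, g3, g5, s1]
            · skip
              rcases dj0 C.f33_8 with g6 | g6
              · skip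
                linarith only [C.a4, C.f33_7, g2_0, g2_1, g5, g6]
              · skip
                rcases dj2 C.p13_33A with g9 | g9 | g9 | g9 | g9 | g9
                · skip
                  linarith only [e1, g9]
                · skip
                  linarith only [e2, g9]
                · skip
                  linarith only [e3, g9]
                · skip
                  linarith only [C.f11_0, g9, s1]
                · skip
                  rcases dj4 C.tmpp with g10 | g10 | g10 | g10
                  · skip
                    linarith only [C.f11_0, C.f13_0, C.f33_0, g10, s1]
                  · skip
                    linarith only [C.f11_0, C.f13_0, C.f33_1, C.o2, g10, g3, g5, g9, s1]
                  · skip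
                    linarith only [e0, g10]
                  · skip
                    linarith only [C.f11_0, C.f11_1, g10, g9, s2]
                · skip
                  rcases dj2 C.p11_13B with g10 | g10 | g10 | g10 | g10 | g10
                  · skip
                    linarith only [e0, g10]
                  · skip
                    linarith only [e1, g10]
                  · skip
                    linarith only [e2, g10]
                  · skip
                    rcases dj3 C.p11_33A with g11 | g11 | g11 | g11 | g11
                    · skip
                      linarith only [e0, g11]
                    · skip
                      linarith only [e3, g11]
                    · skip
                      linarith only [C.f11_0, g10, g11, s1]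
                    · skip
                      rcases dj4 C.tmpp with g12 | g12 | g12 | g12
                      · skip
                        linarith only [C.f11_0, C.f13_0, C.f33_0, g12, s1]
                      · skip
                        linarith only [C.f11_0, C.f11_1, C.f33_1, g1_0, g1_1, g10, g11, g12, g5, s1]
                      · skip
                        linarith only [e0, g12]
                      · skip
                        rcases dj5 C.tmzp with g13 | g13 | g13 | g13 | g13 | g13
                        · skip
                          linarith only [C.f11_0, C.f13_0, C.f33_0, g13, s1]
                        · skip
                          linarith only [g13, g2_0, g2_1]
                        · skip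
                          linarith only [C.f11_0, C.f11_1, C.f13_4, C.f33_4, g12, g13, g4, g6, g9, s2]
                        · skip
                          linarith only [e0, g13]
                        · skip
                          linarith only [C.f11_0, C.f13_3, g10, g11, g13, s2]
                        · skip
                          linarith only [C.f11_0, C.f11_1, C.f11_2, g12, g13, g9, s3]
                    · skip
                      linarith only [C.f13_7, g11, s3]
                  · skip
                    linarith only [C.b3, C.f11_0, C.f11_1, C.f33_4, C.o1, C.o2, g10, g3, s2]
                  · skip
                    linarith only [g10, g4, g9, s3]
      · skip
        rcases dj0 C.f13_5 with g3 | g3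
        · skip
          rcases dj0 C.f13_8 with g4 | g4
          · skip
            linarith only [C.b3, C.f13_7, C.o0, g0, g2_0, g2_1, g3, g4]
          · skip
            rcases dj0 C.f33_5 with g6 | g6
            · skip
              rcases dj2 C.p13_33A with g9 | g9 | g9 | g9 | g9 | g9
              · skip
                linarith only [e1, g9]
              · skip
                linarith only [e2, g9]
              · skip
                linarith only [e3, g9]
              · skip
                linarith only [C.f11_0, g9, s1]
              · skip
                linarith only [C.f11_0, g1_0, g1_1, g3, g6, g9, s1]
              · skip
                rcases dj2 C.p11_13B with g10 | g10 | g10 | g10 | g10 | g10
                · skip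
                  linarith only [e0, g10]
                · skip
                  linarith only [e1, g10]
                · skip
                  linarith only [e2, g10]
                · skip
                  rcases dj3 C.p11_33A with g11 | g11 | g11 | g11 | g11
                  · skip
                    linarith only [e0, g11]
                  · skip
                    linarith only [e3, g11]
                  · skip
                    linarith only [C.f11_0, g10, g11, s1]
                  · skip
                    linarith only [C.f11_0, C.f11_1, g1_0, g1_1, g10, g11, g6, s1]
                  · skip
                    linarith only [C.f13_7, g11, s3]
                · skip
                  rcases dj3 C.p11_33A with g11 | g11 | g11 | g11 | g11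
                  · skip
                    linarith only [e0, g11]
                  · skip
                    linarith only [e3, g11]
                  · skip
                    linarith only [C.b3, C.f11_0, C.f11_1, g10, g11, g3, s1]
                  · skip
                    linarith only [C.b3, C.f11_0, C.f11_1, g1_0, g1_1, g10, g11, g3, g6, s1]
                  · skip
                    linarith only [C.f13_7, g11, s3]
                · skip
                  linarith only [g10, g4, g9, s3]
            · skip
              rcases dj0 C.f33_8 with g7 | g7
              · skip
                linarith only [C.f13_4, C.f33_7, C.o1, g0, g1_0, g1_1, g2_0, g2_1, g3, g6, g7]
              · skip
                rcases dj3 C.p11_33B with g8 | g8 | g8 | g8 | g8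
                · skip
                  linarith only [e0, g8]
                · skip
                  linarith only [e3, g8]
                · skip
                  linarith only [C.f13_0, C.o0, g8, s1]
                · skip
                  rcases dj2 C.p13_33A with g9 | g9 | g9 | g9 | g9 | g9
                  · skip
                    linarith only [e1, g9]
                  · skip
                    linarith only [e2, g9]
                  · skip
                    linarith only [e3, g9]
                  · skip
                    linarith only [C.f11_0, g9, s1]
                  · skip
                    linarith only [C.a4, C.f11_0, C.f11_1, C.o0, g0, g3, g6, g8, g9, s2]
                  · skip
                    rcases dj2 C.p11_13B with g10 | g10 | g10 | g10 | g10 | g10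
                    · skip
                      linarith only [e0, g10]
                    · skip
                      linarith only [e1, g10]
                    · skip
                      linarith only [e2, g10]
                    · skip
                      linarith only [C.f11_0, C.f11_1, C.f13_3, C.f13_4, C.o1, g10, g4, g6, g7, g8, g9, s2]
                    · skip
                      linarith only [C.b3, C.f11_0, C.f11_1, C.o1, g10, g8, s2]
                    · skip
                      linarith only [g10, g4, g9, s3]
                · skip
                  rcases dj2 C.p13_33A with g9 | g9 | g9 | g9 | g9 | g9
                  · skip
                    linarith only [e1, g9]
                  · skip
                    linarith only [e2, g9]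
                  · skip
                    linarith only [e3, g9]
                  · skip
                    linarith only [C.f11_0, g9, s1]
                  · skip
                    rcases dj4 C.tmpp with g10 | g10 | g10 | g10
                    · skip
                      linarith only [C.f11_0, C.f13_0, C.f33_0, g10, s1]
                    · skip
                      linarith only [C.f11_0, C.f33_1, g1_0, g1_1, g10, g3, g6, g9, s1]
                    · skip
                      linarith only [e0, g10]
                    · skip
                      linarith only [C.f11_0, C.f11_1, g10, g9, s2]
                  · skip
                    rcases dj2 C.p11_13B with g10 | g10 | g10 | g10 | g10 | g10
                    · skip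
                      linarith only [e0, g10]
                    · skip
                      linarith only [e1, g10]
                    · skip
                      linarith only [e2, g10]
                    · skip
                      rcases dj3 C.p11_33A with g11 | g11 | g11 | g11 | g11
                      · skip
                        linarith only [e0, g11]
                      · skip
                        linarith only [e3, g11]
                      · skip
                        linarith only [C.f11_0, g10, g11, s1]
                      · skip
                        rcases dj5 C.tmzp with g12 | g12 | g12 | g12 | g12 | g12
                        · skip
                          linarith only [C.f11_0, C.f13_0, C.f33_0, g12, s1]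
                        · skip
                          linarith only [C.f11_0, C.f11_1, C.f33_1, g1_0, g1_1, g10, g11, g12, g6, s1]
                        · skip
                          linarith only [C.f11_2, C.f13_4, C.f33_4, g12, g2_0, g2_1, g4, g7, g8, g9, s2]
                        · skip
                          linarith only [e0, g12]
                        · skip
                          linarith only [C.f11_0, C.f13_3, g10, g11, g12, s2]
                        · skip
                          linarith only [g12, g2_0, g2_1]
                      · skip
                        linarith only [C.f13_7, g11, s3]
                    · skip
                      rcases dj3 C.p11_33A with g11 | g11 | g11 | g11 | g11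
                      · skip
                        linarith only [e0, g11]
                      · skip
                        linarith only [e3, g11]
                      · skip
                        linarith only [C.b3, C.f11_0, C.f11_1, g10, g11, g3, s1]
                      · skip
                        linarith only [C.b3, C.f11_0, C.f11_1, g10, g11, s2]
                      · skip
                        linarith only [C.f13_7, g11, s3]
                    · skip
                      linarith only [g10, g4, g9, s3]
        · skip
          rcases dj0 C.f13_8 with g4 | g4
          · skip
            linarith only [C.a4, C.f13_7, C.o1, C.o2, g2_0, g2_1, g3, g4]
          · skip
            rcases dj0 C.f33_5 with g5 | g5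
            · skip
              linarith only [C.f11_0, C.f13_0, C.f13_3, C.f33_4, C.o2, g3, g5, s1]
            · skip
              rcases dj0 C.f33_8 with g6 | g6
              · skip
                linarith only [C.b4, C.f33_7, g2_0, g2_1, g5, g6]
              · skip
                rcases dj3 C.p11_33B with g8 | g8 | g8 | g8 | g8
                · skip
                  linarith only [e0, g8]
                · skip
                  linarith only [e3, g8]
                · skip
                  linarith only [C.f13_0, C.o0, g8, s1]
                · skip
                  rcases dj2 C.p13_33A with g9 | g9 | g9 | g9 | g9 | g9
                  · skip
                    linarith only [e1, g9]
                  · skip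
                    linarith only [e2, g9]
                  · skip
                    linarith only [e3, g9]
                  · skip
                    linarith only [C.f11_0, g9, s1]
                  · skip
                    linarith only [C.a4, C.o1, g5, g8, g9, s2]
                  · skip
                    rcases dj2 C.p11_13B with g10 | g10 | g10 | g10 | g10 | g10
                    · skip
                      linarith only [e0, g10]
                    · skip
                      linarith only [e1, g10]
                    · skip
                      linarith only [e2, g10]
                    · skip
                      linarith only [C.f11_0, C.f11_1, C.f13_3, C.f13_4, C.o1, g10, g4, g5, g6, g8, g9, s2]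
                    · skip
                      linarith only [C.b3, C.f11_0, C.f11_1, C.f33_4, C.o1, C.o2, g10, g3, s2]
                    · skip
                      linarith only [g10, g4, g9, s3]
                · skip
                  rcases dj2 C.p13_33A with g9 | g9 | g9 | g9 | g9 | g9
                  · skip
                    linarith only [e1, g9]
                  · skip
                    linarith only [e2, g9]
                  · skip
                    linarith only [e3, g9]
                  · skip
                    linarith only [C.f11_0, g9, s1]
                  · skip
                    linarith only [C.a4, C.f11_2, g2_0, g2_1, g3, g5, g6, g8, g9, s2]
                  · skip
                    rcases dj2 C.p11_13B with g10 | g10 | g10 | g10 | g10 | g10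
                    · skip
                      linarith only [e0, g10]
                    · skip
                      linarith only [e1, g10]
                    · skip
                      linarith only [e2, g10]
                    · skip
                      rcases dj5 C.tmzp with g11 | g11 | g11 | g11 | g11 | g11
                      · skip
                        linarith only [C.f11_0, C.f13_0, C.f33_0, g11, s1]
                      · skip
                        linarith only [C.f11_0, C.f11_1, C.f11_2, C.f13_0, C.f13_3, C.f33_1, C.o1, g10, g11, g2_0, g2_1, g3, g6, g8, s1]
                      · skip
                        linarith only [C.f11_2, C.f13_4, C.f33_4, g11, g2_0, g2_1, g4, g6, g8, g9, s2]
                      · skip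
                        linarith only [e0, g11]
                      · skip
                        linarith only [C.f11_0, C.f11_1, C.f13_3, C.f13_7, C.f33_4, C.o1, g10, g11, g3, g8, s2, s3]
                      · skip
                        linarith only [g11, g2_0, g2_1]
                    · skip
                      linarith only [C.b3, C.f11_0, C.f11_1, C.f13_7, C.f33_4, C.o1, g10, g3, g8, s2, s3]
                    · skip
                      linarith only [g10, g4, g9, s3]
    · skip
      rcases dj1 C.t23 with ⟨g2_0, g2_1⟩ | ⟨g2_0, g2_1⟩
      · skip
        rcases dj0 C.f13_5 with g3 | g3
        · skip
          rcases dj0 C.f13_8 with g4 | g4
          · skip
            linarith only [C.b5, C.f13_7, C.o0, g0, g1_0, g1_1, g3, g4]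
          · skip
            rcases dj0 C.f33_5 with g6 | g6
            · skip
              rcases dj2 C.p13_33A with g9 | g9 | g9 | g9 | g9 | g9
              · skip
                linarith only [e1, g9]
              · skip
                linarith only [e2, g9]
              · skip
                linarith only [e3, g9]
              · skip
                linarith only [C.f11_0, g9, s1]
              · skip
                linarith only [C.a3, C.f11_0, g3, g6, g9, s1]
              · skip
                rcases dj2 C.p11_13B with g10 | g10 | g10 | g10 | g10 | g10
                · skip
                  linarith only [e0, g10]
                · skip
                  linarith only [e1, g10]
                · skip
                  linarith only [e2, g10]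
                · skip
                  rcases dj3 C.p11_33A with g11 | g11 | g11 | g11 | g11
                  · skip
                    linarith only [e0, g11]
                  · skip
                    linarith only [e3, g11]
                  · skip
                    linarith only [C.f11_0, g10, g11, s1]
                  · skip
                    linarith only [C.a3, C.f11_0, C.f11_1, g10, g11, g6, s1]
                  · skip
                    linarith only [C.f13_7, g11, s3]
                · skip
                  linarith only [C.f11_0, C.f11_1, C.o0, g0, g1_0, g1_1, g10, g3]
                · skip
                  linarith only [g10, g4, g9, s3]
            · skip
              rcases dj0 C.f33_8 with g7 | g7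
              · skip
                linarith only [C.a4, C.f33_7, g2_0, g2_1, g6, g7]
              · skip
                rcases dj2 C.p13_33A with g9 | g9 | g9 | g9 | g9 | g9
                · skip
                  linarith only [e1, g9]
                · skip
                  linarith only [e2, g9]
                · skip
                  linarith only [e3, g9]
                · skip
                  linarith only [C.f11_0, g9, s1]
                · skip
                  rcases dj4 C.tmpp with g10 | g10 | g10 | g10
                  · skip
                    linarith only [C.f11_0, C.f13_0, C.f33_0, g10, s1]
                  · skip
                    linarith only [C.a3, C.f11_0, C.f33_1, g10, g3, g6, g9, s1]
                  · skip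
                    linarith only [e0, g10]
                  · skip
                    linarith only [C.f11_0, C.f11_1, g10, g9, s2]
                · skip
                  rcases dj2 C.p11_13B with g10 | g10 | g10 | g10 | g10 | g10
                  · skip
                    linarith only [e0, g10]
                  · skip
                    linarith only [e1, g10]
                  · skip
                    linarith only [e2, g10]
                  · skip
                    rcases dj3 C.p11_33A with g11 | g11 | g11 | g11 | g11
                    · skip
                      linarith only [e0, g11]
                    · skip
                      linarith only [e3, g11]
                    · skip
                      linarith only [C.f11_0, g10, g11, s1]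
                    · skip
                      rcases dj4 C.tmpp with g12 | g12 | g12 | g12
                      · skip
                        linarith only [C.f11_0, C.f13_0, C.f33_0, g12, s1]
                      · skip
                        rcases dj5 C.tmzp with g13 | g13 | g13 | g13 | g13 | g13
                        · skip
                          linarith only [C.f11_0, C.f13_0, C.f33_0, g13, s1]
                        · skip
                          linarith only [g13, g2_0, g2_1]
                        · skip
                          linarith only [C.f11_0, C.f13_0, C.f33_1, g12, g13, s1]
                        · skip
                          linarith only [e0, g13]
                        · skip
                          linarith only [g1_0, g1_1, g13]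
                        · skip
                          linarith only [C.b2, C.f11_2, C.f33_1, g10, g11, g12, g13, g6, g9, s1, s3]
                      · skip
                        linarith only [e0, g12]
                      · skip
                        rcases dj5 C.tmzp with g13 | g13 | g13 | g13 | g13 | g13
                        · skip
                          linarith only [C.f11_0, C.f13_0, C.f33_0, g13, s1]
                        · skip
                          linarith only [g13, g2_0, g2_1]
                        · skip
                          linarith only [C.f11_0, C.f11_1, C.f13_4, C.f33_4, g12, g13, g4, g7, g9, s2]
                        · skip
                          linarith only [e0, g13]
                        · skip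
                          linarith only [g1_0, g1_1, g13]
                        · skip
                          linarith only [C.f11_0, C.f11_1, C.f11_2, g12, g13, g9, s3]
                    · skip
                      linarith only [C.f13_7, g11, s3]
                  · skip
                    linarith only [C.f11_0, C.f11_1, C.o0, g0, g1_0, g1_1, g10, g3]
                  · skip
                    linarith only [g10, g4, g9, s3]
        · skip
          rcases dj0 C.f13_8 with g4 | g4
          · skip
            linarith only [C.a4, C.f13_7, g2_0, g2_1, g3, g4]
          · skip
            rcases dj0 C.f33_5 with g5 | g5
            · skip
              linarith only [C.f11_0, C.f13_0, C.f13_3, C.f33_4, C.o2, g3, g5, s1]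
            · skip
              rcases dj0 C.f33_8 with g6 | g6
              · skip
                linarith only [C.a4, C.f33_7, g2_0, g2_1, g5, g6]
              · skip
                rcases dj2 C.p13_33A with g9 | g9 | g9 | g9 | g9 | g9
                · skip
                  linarith only [e1, g9]
                · skip
                  linarith only [e2, g9]
                · skip
                  linarith only [e3, g9]
                · skip
                  linarith only [C.f11_0, g9, s1]
                · skip
                  rcases dj4 C.tmpp with g10 | g10 | g10 | g10
                  · skip
                    linarith only [C.f11_0, C.f13_0, C.f33_0, g10, s1]
                  · skip
                    linarith only [C.f11_0, C.f13_0, C.f33_1, C.o2, g10, g3, g5, g9, s1]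
                  · skip
                    linarith only [e0, g10]
                  · skip
                    linarith only [C.f11_0, C.f11_1, g10, g9, s2]
                · skip
                  rcases dj2 C.p11_13B with g10 | g10 | g10 | g10 | g10 | g10
                  · skip
                    linarith only [e0, g10]
                  · skip
                    linarith only [e1, g10]
                  · skip
                    linarith only [e2, g10]
                  · skip
                    rcases dj3 C.p11_33A with g11 | g11 | g11 | g11 | g11
                    · skip
                      linarith only [e0, g11]
                    · skip
                      linarith only [e3, g11]
                    · skip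
                      linarith only [C.f11_0, g10, g11, s1]
                    · skip
                      rcases dj4 C.tmpp with g12 | g12 | g12 | g12
                      · skip
                        linarith only [C.f11_0, C.f13_0, C.f33_0, g12, s1]
                      · skip
                        linarith only [C.f11_1, C.f13_0, C.f13_3, C.f33_1, C.o2, g10, g11, g12, g3, g5, s1]
                      · skip
                        linarith only [e0, g12]
                      · skip
                        rcases dj5 C.tmzp with g13 | g13 | g13 | g13 | g13 | g13
                        · skip
                          linarith only [C.f11_0, C.f13_0, C.f33_0, g13, s1]
                        · skip
                          linarith only [g13, g2_0, g2_1]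
                        · skip
                          linarith only [C.f11_0, C.f11_1, C.f13_4, C.f33_4, g12, g13, g4, g6, g9, s2]
                        · skip
                          linarith only [e0, g13]
                        · skip
                          linarith only [g1_0, g1_1, g13]
                        · skip
                          linarith only [C.f11_0, C.f11_1, C.f11_2, g12, g13, g9, s3]
                    · skip
                      linarith only [C.f13_7, g11, s3]
                  · skip
                    linarith only [C.f11_0, C.f11_1, C.f33_4, C.o1, C.o2, g1_0, g1_1, g10, g3, s2]
                  · skip
                    linarith only [g10, g4, g9, s3]
      · skip
        rcases dj0 C.f13_5 with g3 | g3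
        · skip
          rcases dj0 C.f13_8 with g4 | g4
          · skip
            linarith only [C.f13_7, C.o0, g0, g1_0, g1_1, g2_0, g2_1, g3, g4]
          · skip
            rcases dj2 C.p11_13B with g5 | g5 | g5 | g5 | g5 | g5
            · skip
              linarith only [e0, g5]
            · skip
              linarith only [e1, g5]
            · skip
              linarith only [e2, g5]
            · skip
              rcases dj3 C.p11_33A with g6 | g6 | g6 | g6 | g6
              · skip
                linarith only [e0, g6]
              · skip
                linarith only [e3, g6]
              · skip
                linarith only [C.f11_0, g5, g6, s1]
              · skip
                rcases dj0 C.f33_5 with g7 | g7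
                · skip
                  linarith only [C.a3, C.f11_0, C.f11_1, g5, g6, g7, s1]
                · skip
                  rcases dj0 C.f33_8 with g8 | g8
                  · skip
                    linarith only [C.f13_4, C.f33_7, g2_0, g2_1, g6, g7, g8, s2]
                  · skip
                    rcases dj4 C.tmpp with g9 | g9 | g9 | g9
                    · skip
                      linarith only [C.f11_0, C.f13_0, C.f33_0, g9, s1]
                    · skip
                      linarith only [C.f11_0, C.f11_1, C.f13_3, C.f33_1, g2_0, g2_1, g5, g6, g7, g9, s1, s2]
                    · skip
                      linarith only [e0, g9]
                    · skip
                      rcases dj2 C.p13_33A with g10 | g10 | g10 | g10 | g10 | g10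
                      · skip
                        linarith only [e1, g10]
                      · skip
                        linarith only [e2, g10]
                      · skip
                        linarith only [e3, g10]
                      · skip
                        linarith only [C.f11_0, g10, s1]
                      · skip
                        linarith only [C.f11_0, C.f11_1, g10, g9, s2]
                      · skip
                        rcases dj5 C.tmzp with g11 | g11 | g11 | g11 | g11 | g11
                        · skip
                          linarith only [C.f11_0, C.f13_0, C.f33_0, g11, s1]
                        · skip
                          linarith only [C.a3, C.f11_0, C.f11_1, C.f33_1, g11, g5, g6, g7, s1]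
                        · skip
                          linarith only [C.f11_0, C.f11_1, C.f13_4, C.f33_4, g10, g11, g4, g8, g9, s2]
                        · skip
                          linarith only [e0, g11]
                        · skip
                          linarith only [g1_0, g1_1, g11]
                        · skip
                          linarith only [g11, g2_0, g2_1]
              · skip
                linarith only [C.f13_7, g6, s3]
            · skip
              linarith only [C.f11_0, C.f11_1, C.o0, g0, g1_0, g1_1, g3, g5]
            · skip
              linarith only [C.f11_0, C.f11_1, C.f11_2, g1_0, g1_1, g2_0, g2_1, g4, g5]
        · skip
          rcases dj0 C.f13_8 with g4 | g4
          · skip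
            linarith only [C.b4, C.f13_7, g2_0, g2_1, g3, g4]
          · skip
            rcases dj0 C.f33_5 with g5 | g5
            · skip
              linarith only [C.f11_0, C.f13_0, C.f13_3, C.f33_4, C.o2, g3, g5, s1]
            · skip
              rcases dj0 C.f33_8 with g6 | g6
              · skip
                linarith only [C.b4, C.f33_7, g2_0, g2_1, g5, g6]
              · skip
                rcases dj2 C.p11_13B with g7 | g7 | g7 | g7 | g7 | g7
                · skip
                  linarith only [e0, g7]
                · skip
                  linarith only [e1, g7]
                · skip
                  linarith only [e2, g7]
                · skip
                  rcases dj3 C.p11_33A with g8 | g8 | g8 | g8 | g8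
                  · skip
                    linarith only [e0, g8]
                  · skip
                    linarith only [e3, g8]
                  · skip
                    linarith only [C.f11_0, g7, g8, s1]
                  · skip
                    rcases dj4 C.tmpp with g9 | g9 | g9 | g9
                    · skip
                      linarith only [C.f11_0, C.f13_0, C.f33_0, g9, s1]
                    · skip
                      linarith only [C.f11_0, C.f11_1, C.f13_3, C.f33_1, g2_0, g2_1, g5, g7, g8, g9, s1, s2]
                    · skip
                      linarith only [e0, g9]
                    · skip
                      rcases dj2 C.p13_33A with g10 | g10 | g10 | g10 | g10 | g10
                      · skip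
                        linarith only [e1, g10]
                      · skip
                        linarith only [e2, g10]
                      · skip
                        linarith only [e3, g10]
                      · skip
                        linarith only [C.f11_0, g10, s1]
                      · skip
                        linarith only [C.f11_0, C.f11_1, g10, g9, s2]
                      · skip
                        rcases dj5 C.tmzp with g11 | g11 | g11 | g11 | g11 | g11
                        · skip
                          linarith only [C.f11_0, C.f13_0, C.f33_0, g11, s1]
                        · skip
                          linarith only [C.a3, C.f11_0, C.f11_1, C.f33_1, g11, g5, g7, g8, s1]
                        · skip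
                          linarith only [C.f11_0, C.f11_1, C.f13_4, C.f33_4, g10, g11, g4, g6, g9, s2]
                        · skip
                          linarith only [e0, g11]
                        · skip
                          linarith only [g1_0, g1_1, g11]
                        · skip
                          linarith only [g11, g2_0, g2_1]
                  · skip
                    linarith only [C.f13_7, g8, s3]
                · skip
                  linarith only [C.f11_0, C.f11_1, C.f33_4, C.o1, C.o2, g1_0, g1_1, g3, g7, s2]
                · skip
                  linarith only [C.f11_0, C.f11_1, C.f11_2, g1_0, g1_1, g2_0, g2_1, g4, g7]
  · skip
    linarith only [C.f11_0, C.f13_0, C.f33_1, C.o2, g0, s1]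

end Pool.Agent.Helper35.TQ
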