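import Pool.Agent.Helper89.TQ.Ctx
import Mathlib.Tactic

set_option autoImplicit false
set_option linter.all false
set_option maxHeartbeats 4000000

namespace Pool.Agent.Helper35.TQ

open Pool.Agent.Helper89.TQ

namespace L_c0_11_22_33_k1

theorem dj0 {P0 P1 P2 P3 : Prop} (h : ((P0) ∧ (P1)) ∨ ((P2) ∧ (P3))) : (P0 ∧ P1) ∨ (P2 ∧ P3) := by tauto

theorem dj1 {P0 P1 : Prop} (h : (P0) ∨ (P1)) : (P0) ∨ (P1) := by tauto

theorem dj2 {P0 P1 P2 P3 P4 : Prop} (h : (P0) → ((P1) → (¬ ((P2) ∧ ((P3) ∧ (P4)))))) : (¬ P0) ∨ (¬ P1) ∨ (¬ P2) ∨ (¬ P3) ∨ (¬ P4) := by tauto

theorem dj3 {P0 P1 P2 : Prop} (h : (P0) ∨ ((P1) ∨ (P2))) : (P0) ∨ (P1) ∨ (P2) := by tauto

theorem dj4 {P0 P1 P2 P3 P4 P5 : Prop} (h : (P0) → ((P1) → ((P2) → (¬ ((P3) ∧ ((P4) ∧ (P5))))))) : (¬ P0) ∨ (¬ P1) ∨ (¬ P2) ∨ (¬ P3) ∨ (¬ P4) ∨ (¬ P5) := by tauto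

theorem dj5 {P0 P1 P2 P3 P4 P5 : Prop} (h : ¬ ((P0) ∧ ((P1) ∧ ((P2) ∧ ((P3) ∧ ((P4) ∨ (P5))))))) : (¬ P0) ∨ (¬ P1) ∨ (¬ P2) ∨ (¬ P3) ∨ (¬ P4 ∧ ¬ P5) := by tauto

theorem dj6 {P0 P1 P2 P3 P4 P5 : Prop} (h : ¬ ((P0) ∧ ((P1) ∧ ((P2) ∧ ((P3) ∧ ((P4) ∧ (P5))))))) : (¬ P0) ∨ (¬ P1) ∨ (¬ P2) ∨ (¬ P3) ∨ (¬ P4) ∨ (¬ P5) := by tauto

theorem dj7 {P0 P1 P2 P3 : Prop} (h : ¬ ((P0) ∧ ((P1) ∧ ((P2) ∧ (P3))))) : (¬ P0) ∨ (¬ P1) ∨ (¬ P2) ∨ (¬ P3) := by tauto

theorem dj8 {P0 P1 P2 P3 P4 P5 P6 P7 P8 : Prop} (h : ¬ ((P0) ∧ ((P1) ∧ ((P2) ∧ ((P3) ∧ ((P4) ∧ ((P5) ∧ ((P6) ∧ ((P7) ∨ (P8)))))))))) : (¬ P0) ∨ (¬ P1) ∨ (¬ P2) ∨ (¬ P3) ∨ (¬ P4) ∨ (¬ P5) ∨ (¬ P6) ∨ (¬ P7 ∧ ¬ P8) := by tauto

end L_c0_11_22_33_k1

open L_c0_11_22_33_k1 in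
theorem c0_11_22_33_k1 {n1 n2 n3 A1 A2 A3 B1 B2 B3 m11_1 m11_2 m11_3 m13_1 m13_2 m13_3 m22_1 m22_2 m22_3 m23_1 m23_2 m23_3 m33_1 m33_2 m33_3 : ℤ}
    (C : Ctx0 n1 n2 n3 A1 A2 A3 B1 B2 B3 m11_1 m11_2 m11_3 m13_1 m13_2 m13_3 m22_1 m22_2 m22_3 m23_1 m23_2 m23_3 m33_1 m33_2 m33_3)
    (e0 : 0 < B1)
    (e1 : 0 < B2)
    (e2 : 0 < A3)
    (s1 : 1 * A1 + 2 * B1 ≤ m11_1 + m22_1 + m33_1)
    (s2 : 1 * A2 + 2 * B2 ≤ m11_2 + m22_2 + m33_2)
    (s3 : 1 * A3 + 2 * B3 ≤ m11_3 + m22_3 + m33_3) : False := by
  rcases dj0 C.t12 with ⟨g0_0, g0_1⟩ | ⟨g0_0, g0_1⟩
  · skip
    rcases dj0 C.t23 with ⟨g1_0, g1_1⟩ | ⟨g1_0, g1_1⟩
    · skip
      rcases dj1 C.f22_2 with g2 | g2
      · skip
        rcases dj1 C.f22_5 with g3 | g3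
        · skip
          linarith only [C.a1, C.b3, C.f22_4, C.o0, g2, g3]
        · skip
          rcases dj1 C.f33_2 with g4 | g4
          · skip
            rcases dj2 C.p11_33B with g5 | g5 | g5 | g5 | g5
            · skip
              linarith only [e0, g5]
            · skip
              linarith only [e2, g5]
            · skip
              linarith only [C.f11_0, C.f22_0, C.o0, g4, g5, s1]
            · skip
              linarith only [C.f22_4, C.o1, g5, s2]
            · skip
              rcases dj1 C.f33_8 with g6 | g6
              · skip
                linarith only [C.b5, C.f11_2, C.f22_4, C.o1, g5, g6, s2]
              · skip
                rcases dj2 C.p22_33A with g7 | g7 | g7 | g7 | g7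
                · skip
                  linarith only [e1, g7]
                · skip
                  linarith only [e2, g7]
                · skip
                  linarith only [C.a1, g2, g4, g7]
                · skip
                  rcases dj1 C.f33_5 with g8 | g8
                  · skip
                    rcases dj3 C.f23_3 with g9 | g9 | g9
                    · skip
                      rcases dj3 C.f23_7 with g10 | g10 | g10
                      · skip
                        linarith only [C.a1, C.f23_5, g0_0, g0_1, g10, g9]
                      · skip
                        rcases dj1 C.f23_10 with g11 | g11
                        · skip
                          linarith only [C.b1, C.f11_0, C.f11_1, C.f11_2, C.f22_6, C.f23_9, C.f33_7, g10, g11, g4, g7, g8, s3]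
                        · skip
                          rcases dj4 C.p11_23B with g12 | g12 | g12 | g12 | g12 | g12
                          · skip
                            linarith only [e0, g12]
                          · skip
                            linarith only [C.f11_0, C.f11_1, C.f22_0, e1, g0_0, g0_1, g12, g3, g4, g7, g8, s1, s2]
                          · skip
                            linarith only [C.f11_0, C.f11_1, C.f22_0, C.f22_1, C.f33_4, C.o2, e0, g0_0, g0_1, g12, g3, g4, g7, g8, s1, s2]
                          · skip
                            linarith only [C.f11_0, C.f22_0, C.f33_0, C.o0, g12, g9, s1]
                          · skip
                            linarith only [g10, g12, g7, s2]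
                          · skip
                            linarith only [C.b3, C.f11_0, C.f11_1, C.f11_2, C.f22_4, C.f22_6, C.f33_7, g11, g12, s3]
                      · skip
                        linarith only [C.a1, C.f11_2, C.f22_4, C.f22_6, C.f23_5, C.f33_4, g0_0, g0_1, g10, g4, g5, g6, g8, s2, s3]
                    · skip
                      linarith only [C.f11_0, C.f11_1, C.f22_1, C.f23_0, C.o0, g2, g3, g4, g7, g8, g9, s1, s2]
                    · skip
                      linarith only [C.f11_0, C.f11_1, C.f22_1, C.f22_4, C.f23_0, C.f33_4, C.o0, C.o2, g2, g4, g7, g8, g9, s1, s2]
                  · skip
                    rcases dj3 C.f23_3 with g9 | g9 | g9
                    · skip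
                      rcases dj3 C.f23_7 with g10 | g10 | g10
                      · skip
                        linarith only [C.a1, C.f23_5, g0_0, g0_1, g10, g9]
                      · skip
                        rcases dj4 C.p11_23B with g11 | g11 | g11 | g11 | g11 | g11
                        · skip
                          linarith only [e0, g11]
                        · skip
                          linarith only [e1, e2, g11, g3, g7, g8]
                        · skip
                          linarith only [C.o2, e2, g11]
                        · skip
                          linarith only [C.f11_0, C.f22_0, C.f33_0, C.o0, g11, g9, s1]
                        · skip
                          linarith only [g10, g11, g7, s2]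
                        · skip
                          rcases dj1 C.f23_10 with g12 | g12
                          · skip
                            linarith only [C.a4, C.f22_6, C.f33_7, g10, g11, g12, g7, g8, s3]
                          · skip
                            linarith only [C.b3, C.f11_0, C.f11_1, C.f11_2, C.f22_4, C.f22_6, C.f33_7, g11, g12, s3]
                      · skip
                        linarith only [C.a4, C.f11_2, C.f22_4, C.f22_6, C.f23_5, C.f33_4, g10, g5, g6, s2, s3]
                    · skip
                      rcases dj5 C.tzpm with g10 | g10 | g10 | g10 | ⟨g10_0, g10_1⟩
                      · skip
                        linarith only [g1_0, g1_1, g10]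
                      · skip
                        linarith only [C.f22_4, C.f22_6, C.o1, g10, g5, s3]
                      · skip
                        linarith only [C.f11_0, C.f11_1, C.f22_1, C.f23_0, g10, g2, g7, g9, s2]
                      · skip
                        linarith only [C.a4, C.f11_2, C.f22_4, C.f22_6, C.f33_4, C.o1, g10, g5, g6, s2, s3]
                      · skip
                        linarith only [C.f22_1, C.f23_0, g10_0, g10_1, g2, g9]
                    · skip
                      linarith only [C.a4, C.f11_2, C.f22_4, C.f22_6, C.f23_1, C.f33_4, g5, g6, g9, s2, s3]
                · skip
                  linarith only [g5, g6, g7, s3]
          · skip
            rcases dj1 C.f33_5 with g5 | g5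
            · skip
              linarith only [C.f11_0, C.f11_1, C.f22_1, C.f22_4, C.f33_0, C.f33_4, C.o0, g1_0, g1_1, g2, g4, g5, s2]
            · skip
              rcases dj1 C.f33_8 with g6 | g6
              · skip
                linarith only [C.a4, C.f33_7, g1_0, g1_1, g5, g6]
              · skip
                rcases dj2 C.p11_33B with g7 | g7 | g7 | g7 | g7
                · skip
                  linarith only [e0, g7]
                · skip
                  linarith only [e2, g7]
                · skip
                  linarith only [C.a4, C.f11_0, C.o0, g1_0, g1_1, g4, g7]
                · skip
                  linarith only [C.f22_4, C.o1, g7, s2]
                · skip
                  rcases dj5 C.tzpm with g8 | g8 | g8 | g8 | ⟨g8_0, g8_1⟩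
                  · skip
                    linarith only [g1_0, g1_1, g8]
                  · skip
                    linarith only [C.f22_4, C.f22_6, C.o1, g7, g8, s3]
                  · skip
                    linarith only [C.f11_0, C.f11_1, C.f22_1, C.f22_4, C.f33_0, C.f33_4, C.o1, g2, g4, g8, s2]
                  · skip
                    linarith only [C.a4, C.f11_2, C.f22_4, C.f22_6, C.f33_4, C.o1, g6, g7, g8, s2, s3]
                  · skip
                    linarith only [C.f11_2, C.f22_1, C.f22_4, C.f22_6, C.f33_0, C.f33_4, g2, g4, g6, g7, g8_0, g8_1, s2, s3]
      · skip
        rcases dj1 C.f22_5 with g3 | g3
        · skip
          linarith only [C.f22_4, g0_0, g0_1, g1_0, g1_1, g2, g3]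
        · skip
          rcases dj1 C.f33_2 with g4 | g4
          · skip
            rcases dj2 C.p11_33B with g5 | g5 | g5 | g5 | g5
            · skip
              linarith only [e0, g5]
            · skip
              linarith only [e2, g5]
            · skip
              linarith only [C.a1, C.f11_0, C.o0, g4, g5]
            · skip
              linarith only [C.f22_4, C.o1, g5, s2]
            · skip
              rcases dj1 C.f33_8 with g6 | g6
              · skip
                linarith only [C.b5, C.f11_2, C.f22_4, C.o1, g5, g6, s2]
              · skip
                rcases dj3 C.f23_3 with g8 | g8 | g8
                · skip
                  rcases dj3 C.f23_7 with g9 | g9 | g9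
                  · skip
                    linarith only [C.a1, C.f23_5, g0_0, g0_1, g8, g9]
                  · skip
                    rcases dj1 C.f23_10 with g10 | g10
                    · skip
                      rcases dj5 C.tzpm with g11 | g11 | g11 | g11 | ⟨g11_0, g11_1⟩
                      · skip
                        linarith only [g1_0, g1_1, g11]
                      · skip
                        linarith only [C.f22_4, C.f22_6, C.o1, g11, g5, s3]
                      · skip
                        linarith only [C.f11_0, C.f11_1, C.f11_2, C.f22_4, C.f22_6, C.f23_9, C.f33_7, C.o1, g10, g11, g9, s3]
                      · skip
                        linarith only [C.a4, C.f11_2, C.f22_4, C.f22_6, C.f33_4, C.o1, g11, g5, g6, s2, s3]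
                      · skip
                        linarith only [C.f22_4, C.f22_6, C.f23_9, g10, g11_0, g11_1, g5, g9, s3]
                    · skip
                      rcases dj4 C.p11_23B with g11 | g11 | g11 | g11 | g11 | g11
                      · skip
                        linarith only [e0, g11]
                      · skip
                        linarith only [C.a1, C.f23_1, g0_0, g0_1, g11, g8]
                      · skip
                        linarith only [C.a1, C.f11_2, C.f22_4, C.f22_6, C.f23_1, C.f33_4, C.o0, e0, e2, g11, g5, g6, g8, s2, s3]
                      · skip
                        linarith only [C.a1, C.f11_0, C.o0, g11, g8]
                      · skip
                        rcases dj2 C.p22_33A with g12 | g12 | g12 | g12 | g12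
                        · skip
                          linarith only [e1, g12]
                        · skip
                          linarith only [e2, g12]
                        · skip
                          rcases dj6 C.tpmz with g13 | g13 | g13 | g13 | g13 | g13
                          · skip
                            linarith only [g0_0, g0_1, g13]
                          · skip
                            linarith only [C.a1, C.f22_4, C.f23_1, C.f33_3, g11, g12, g13, g2, g8, g9, s2]
                          · skip
                            linarith only [C.a1, C.f22_4, C.f23_1, C.f33_4, g11, g12, g13, g2, g4, g8, g9, s2]
                          · skip
                            linarith only [C.a1, C.f11_0, C.f11_1, C.f22_4, C.f23_1, C.f33_3, g11, g12, g13, g2, g4, g8, g9, s2]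
                          · skip
                            linarith only [C.a1, C.f11_0, C.f11_1, C.f22_4, C.f23_1, C.f33_3, g11, g12, g13, g2, g4, g8, g9, s2]
                          · skip
                            linarith only [C.a1, C.f11_2, C.f22_4, C.f22_6, C.f23_1, C.f33_7, g11, g12, g13, g2, g4, g8, g9, s3]
                        · skip
                          linarith only [g11, g12, g9, s2]
                        · skip
                          linarith only [C.f11_2, C.f22_6, C.o2, g1_0, g1_1, g11, g12, g3, g6, g9, s3]
                      · skip
                        linarith only [C.b3, C.f11_0, C.f11_1, C.f11_2, C.f22_4, C.f22_6, C.f33_7, g10, g11, s3]
                  · skip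
                    linarith only [C.a4, C.f23_5, C.o2, g9]
                · skip
                  rcases dj3 C.f23_7 with g9 | g9 | g9
                  · skip
                    linarith only [C.f23_5, g0_0, g0_1, g1_0, g1_1, g8, g9]
                  · skip
                    rcases dj1 C.f23_10 with g10 | g10
                    · skip
                      rcases dj5 C.tzpm with g11 | g11 | g11 | g11 | ⟨g11_0, g11_1⟩
                      · skip
                        linarith only [g1_0, g1_1, g11]
                      · skip
                        linarith only [C.f22_4, C.f22_6, C.o1, g11, g5, s3]
                      · skip
                        linarith only [C.f11_0, C.f11_1, C.f11_2, C.f22_4, C.f22_6, C.f23_9, C.f33_7, C.o1, g10, g11, g9, s3]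
                      · skip
                        linarith only [C.a4, C.f11_2, C.f22_4, C.f22_6, C.f33_4, C.o1, g11, g5, g6, s2, s3]
                      · skip
                        linarith only [C.f22_4, C.f22_6, C.f23_9, g10, g11_0, g11_1, g5, g9, s3]
                    · skip
                      rcases dj4 C.p11_23B with g11 | g11 | g11 | g11 | g11 | g11
                      · skip
                        linarith only [e0, g11]
                      · skip
                        linarith only [g0_0, g0_1, g1_0, g1_1, g11]
                      · skip
                        linarith only [C.o2, e2, g11]
                      · skip
                        linarith only [C.f11_0, C.o0, g1_0, g1_1, g11, g8]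
                      · skip
                        rcases dj2 C.p22_33A with g12 | g12 | g12 | g12 | g12
                        · skip
                          linarith only [e1, g12]
                        · skip
                          linarith only [e2, g12]
                        · skip
                          rcases dj6 C.tpmz with g13 | g13 | g13 | g13 | g13 | g13
                          · skip
                            linarith only [g0_0, g0_1, g13]
                          · skip
                            linarith only [C.f22_4, C.f33_3, g1_0, g1_1, g11, g12, g13, g2, g9, s2]
                          · skip
                            linarith only [C.a1, C.f22_4, C.f33_4, g1_0, g1_1, g11, g12, g13, g2, g4, g9, s2]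
                          · skip
                            linarith only [C.a1, C.f11_0, C.f11_1, C.f22_4, C.f33_3, g1_0, g1_1, g11, g12, g13, g2, g4, g9, s2]
                          · skip
                            linarith only [C.a1, C.f11_0, C.f11_1, C.f22_4, C.f33_3, g1_0, g1_1, g11, g12, g13, g2, g4, g9, s2]
                          · skip
                            linarith only [C.a1, C.f11_2, C.f22_4, C.f22_6, C.f33_7, g1_0, g1_1, g11, g12, g13, g2, g4, g9, s3]
                        · skip
                          linarith only [g11, g12, g9, s2]
                        · skip
                          linarith only [C.f11_2, C.f22_6, C.o2, g1_0, g1_1, g11, g12, g3, g6, g9, s3]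
                      · skip
                        linarith only [C.b3, C.f11_0, C.f11_1, C.f11_2, C.f22_4, C.f22_6, C.f33_7, g10, g11, s3]
                  · skip
                    linarith only [C.a4, C.f23_5, C.o2, g9]
                · skip
                  linarith only [C.a4, C.f23_1, C.o2, g8]
          · skip
            rcases dj1 C.f33_5 with g5 | g5
            · skip
              linarith only [C.f33_4, g0_0, g0_1, g1_0, g1_1, g4, g5]
            · skip
              rcases dj1 C.f33_8 with g6 | g6
              · skip
                linarith only [C.a4, C.f33_7, g1_0, g1_1, g5, g6]
              · skip
                rcases dj2 C.p11_33B with g7 | g7 | g7 | g7 | g7
                · skip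
                  linarith only [e0, g7]
                · skip
                  linarith only [e2, g7]
                · skip
                  linarith only [C.a4, C.f11_0, C.o0, g1_0, g1_1, g4, g7]
                · skip
                  linarith only [C.f22_4, C.o1, g7, s2]
                · skip
                  rcases dj3 C.f23_3 with g8 | g8 | g8
                  · skip
                    rcases dj5 C.tzpm with g9 | g9 | g9 | g9 | ⟨g9_0, g9_1⟩
                    · skip
                      linarith only [g1_0, g1_1, g9]
                    · skip
                      linarith only [C.f22_4, C.f22_6, C.o1, g7, g9, s3]
                    · skip
                      linarith only [C.f11_0, C.f11_1, C.f22_4, C.f23_1, C.f33_0, C.f33_4, g4, g8, g9, s2]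
                    · skip
                      linarith only [C.a4, C.f11_2, C.f22_4, C.f22_6, C.f33_4, C.o1, g6, g7, g9, s2, s3]
                    · skip
                      linarith only [C.f11_2, C.f22_4, C.f22_6, C.f23_1, C.f33_0, C.f33_4, g4, g6, g7, g8, g9_0, g9_1, s2, s3]
                  · skip
                    rcases dj3 C.f23_7 with g9 | g9 | g9
                    · skip
                      linarith only [C.f23_5, g0_0, g0_1, g1_0, g1_1, g8, g9]
                    · skip
                      rcases dj1 C.f23_10 with g10 | g10
                      · skip
                        rcases dj5 C.tzpm with g11 | g11 | g11 | g11 | ⟨g11_0, g11_1⟩
                        · skip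
                          linarith only [g1_0, g1_1, g11]
                        · skip
                          linarith only [C.f22_4, C.f22_6, C.o1, g11, g7, s3]
                        · skip
                          linarith only [C.f11_0, C.f11_1, C.f11_2, C.f22_4, C.f22_6, C.f23_9, C.f33_7, C.o1, g10, g11, g9, s3]
                        · skip
                          linarith only [C.a4, C.f11_2, C.f22_4, C.f22_6, C.f33_4, C.o1, g11, g6, g7, s2, s3]
                        · skip
                          linarith only [C.f22_4, C.f22_6, C.f23_9, g10, g11_0, g11_1, g7, g9, s3]
                      · skip
                        rcases dj4 C.p11_23B with g11 | g11 | g11 | g11 | g11 | g11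
                        · skip
                          linarith only [e0, g11]
                        · skip
                          linarith only [g0_0, g0_1, g1_0, g1_1, g11]
                        · skip
                          linarith only [C.o2, e2, g11]
                        · skip
                          linarith only [C.f11_0, C.o0, g1_0, g1_1, g11, g8]
                        · skip
                          rcases dj2 C.p22_33A with g12 | g12 | g12 | g12 | g12
                          · skip
                            linarith only [e1, g12]
                          · skip
                            linarith only [e2, g12]
                          · skip
                            linarith only [C.f22_4, C.f33_4, g1_0, g1_1, g11, g12, g2, g4, g9, s2]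
                          · skip
                            linarith only [g11, g12, g9, s2]
                          · skip
                            linarith only [g12, g6, g7, s3]
                        · skip
                          linarith only [C.b3, C.f11_0, C.f11_1, C.f11_2, C.f22_4, C.f22_6, C.f33_7, g10, g11, s3]
                    · skip
                      linarith only [C.a4, C.f23_5, C.o2, g9]
                  · skip
                    linarith only [C.a4, C.f23_1, C.o2, g8]
    · skip
      rcases dj1 C.f22_2 with g2 | g2
      · skip
        rcases dj1 C.f22_5 with g3 | g3
        · skip
          linarith only [C.a1, C.b3, C.f22_4, C.o0, g2, g3]
        · skip
          rcases dj1 C.f33_2 with g4 | g4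
          · skip
            rcases dj2 C.p11_33B with g5 | g5 | g5 | g5 | g5
            · skip
              linarith only [e0, g5]
            · skip
              linarith only [e2, g5]
            · skip
              linarith only [C.f11_0, C.f22_0, C.o0, g4, g5, s1]
            · skip
              linarith only [C.f22_4, C.o1, g5, s2]
            · skip
              rcases dj1 C.f33_8 with g6 | g6
              · skip
                linarith only [C.f11_2, C.f22_4, C.o1, g1_0, g1_1, g5, g6, s2]
              · skip
                rcases dj2 C.p22_33A with g7 | g7 | g7 | g7 | g7
                · skip
                  linarith only [e1, g7]
                · skip
                  linarith only [e2, g7]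
                · skip
                  linarith only [C.a1, g2, g4, g7]
                · skip
                  rcases dj1 C.f33_5 with g8 | g8
                  · skip
                    rcases dj3 C.f23_3 with g9 | g9 | g9
                    · skip
                      rcases dj3 C.f23_7 with g10 | g10 | g10
                      · skip
                        linarith only [C.a1, C.f23_5, g0_0, g0_1, g10, g9]
                      · skip
                        rcases dj1 C.f23_10 with g11 | g11
                        · skip
                          linarith only [C.b1, C.f11_0, C.f11_1, C.f11_2, C.f22_6, C.f23_9, C.f33_7, g10, g11, g4, g7, g8, s3]
                        · skip
                          rcases dj4 C.p11_23B with g12 | g12 | g12 | g12 | g12 | g12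
                          · skip
                            linarith only [e0, g12]
                          · skip
                            linarith only [C.f11_0, C.f11_1, C.f22_0, e1, g0_0, g0_1, g12, g3, g4, g7, g8, s1, s2]
                          · skip
                            linarith only [C.f11_0, C.f11_1, C.f22_0, C.f22_1, C.f33_4, C.o2, e0, g0_0, g0_1, g12, g3, g4, g7, g8, s1, s2]
                          · skip
                            linarith only [C.f11_0, C.f22_0, C.f33_0, C.o0, g12, g9, s1]
                          · skip
                            linarith only [g10, g12, g7, s2]
                          · skip
                            linarith only [C.b3, C.f11_0, C.f11_1, C.f11_2, C.f22_4, C.f22_6, C.f33_7, g11, g12, s3]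
                      · skip
                        linarith only [C.a1, C.f23_5, C.f33_4, C.o2, g0_0, g0_1, g10, g4, g8]
                    · skip
                      linarith only [C.f11_0, C.f11_1, C.f22_1, C.f23_0, C.o0, g2, g3, g4, g7, g8, g9, s1, s2]
                    · skip
                      linarith only [C.f11_0, C.f11_1, C.f22_1, C.f22_4, C.f23_0, C.f33_4, C.o0, C.o2, g2, g4, g7, g8, g9, s1, s2]
                  · skip
                    rcases dj3 C.f23_3 with g9 | g9 | g9
                    · skip
                      rcases dj3 C.f23_7 with g10 | g10 | g10
                      · skip
                        linarith only [C.a1, C.f23_5, g0_0, g0_1, g10, g9]
                      · skip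
                        rcases dj1 C.f23_10 with g11 | g11
                        · skip
                          linarith only [C.f23_9, C.o1, g1_0, g1_1, g10, g11]
                        · skip
                          rcases dj4 C.p11_23B with g12 | g12 | g12 | g12 | g12 | g12
                          · skip
                            linarith only [e0, g12]
                          · skip
                            linarith only [e1, e2, g12, g3, g7, g8]
                          · skip
                            linarith only [C.o2, e2, g12]
                          · skip
                            linarith only [C.f11_0, C.f22_0, C.f33_0, C.o0, g12, g9, s1]
                          · skip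
                            linarith only [g10, g12, g7, s2]
                          · skip
                            linarith only [C.b3, C.f11_0, C.f11_1, C.f11_2, C.f22_4, C.f22_6, C.f33_7, g11, g12, s3]
                      · skip
                        linarith only [C.a4, C.f11_2, C.f22_4, C.f22_6, C.f23_5, C.f33_4, g10, g5, g6, s2, s3]
                    · skip
                      rcases dj5 C.tzpm with g10 | g10 | g10 | g10 | ⟨g10_0, g10_1⟩
                      · skip
                        linarith only [C.a1, C.f22_1, C.o1, g10, g2]
                      · skip
                        linarith only [C.f11_2, g1_0, g1_1, g10, g5, g6, g7, s2]
                      · skip
                        linarith only [C.f11_0, C.f11_1, C.f22_1, C.f23_0, g10, g2, g7, g9, s2]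
                      · skip
                        linarith only [C.a4, C.f11_2, g1_0, g1_1, g10, g5, g6, g7, s2]
                      · skip
                        linarith only [C.f22_1, C.f23_0, g10_0, g10_1, g2, g9]
                    · skip
                      linarith only [C.f11_2, C.f22_4, C.f23_1, C.f33_4, g1_0, g1_1, g5, g6, g9, s2]
                · skip
                  linarith only [g5, g6, g7, s3]
          · skip
            rcases dj1 C.f33_5 with g5 | g5
            · skip
              linarith only [C.a1, C.f11_0, C.f11_1, C.f22_1, C.f22_4, C.f33_0, C.f33_4, C.o0, C.o1, g2, g4, g5, s2]
            · skip
              rcases dj1 C.f33_8 with g6 | g6
              · skip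
                linarith only [C.a4, C.f33_7, C.o1, C.o2, g1_0, g1_1, g5, g6]
              · skip
                rcases dj2 C.p11_33B with g7 | g7 | g7 | g7 | g7
                · skip
                  linarith only [e0, g7]
                · skip
                  linarith only [e2, g7]
                · skip
                  linarith only [C.a4, C.f11_0, C.f22_1, C.o0, C.o1, g4, g7, s1]
                · skip
                  linarith only [C.f22_4, C.o1, g7, s2]
                · skip
                  rcases dj5 C.tzpm with g8 | g8 | g8 | g8 | ⟨g8_0, g8_1⟩
                  · skip
                    linarith only [C.a1, C.f22_1, C.o1, g2, g8]
                  · skip
                    linarith only [C.f11_2, C.f22_1, C.f22_4, C.f33_0, C.f33_4, C.o1, g1_0, g1_1, g2, g4, g6, g7, g8, s2]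
                  · skip
                    linarith only [C.f11_0, C.f11_1, C.f22_1, C.f22_4, C.f33_0, C.f33_4, C.o1, g2, g4, g8, s2]
                  · skip
                    linarith only [C.a4, C.f11_2, C.f22_4, C.f22_6, C.f33_4, C.o1, g6, g7, g8, s2, s3]
                  · skip
                    linarith only [C.f11_2, C.f22_1, C.f22_4, C.f33_0, C.f33_4, g1_0, g1_1, g2, g4, g6, g7, g8_0, g8_1, s2]
      · skip
        rcases dj1 C.f22_5 with g3 | g3
        · skip
          linarith only [C.a2, C.f22_4, g0_0, g0_1, g2, g3]
        · skip
          rcases dj1 C.f33_2 with g4 | g4
          · skip
            rcases dj2 C.p11_33B with g5 | g5 | g5 | g5 | g5
            · skip
              linarith only [e0, g5]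
            · skip
              linarith only [e2, g5]
            · skip
              linarith only [C.a1, C.f11_0, C.o0, g4, g5]
            · skip
              linarith only [C.f22_4, C.o1, g5, s2]
            · skip
              rcases dj1 C.f33_8 with g6 | g6
              · skip
                linarith only [C.f11_2, C.f22_4, C.o1, g1_0, g1_1, g5, g6, s2]
              · skip
                rcases dj1 C.f33_5 with g7 | g7
                · skip
                  rcases dj7 C.tzmp with g8 | g8 | g8 | g8
                  · skip
                    linarith only [g0_0, g0_1, g8]
                  · skip
                    linarith only [C.a1, C.f33_4, g0_0, g0_1, g4, g7, g8]
                  · skip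
                    linarith only [g1_0, g1_1, g8]
                  · skip
                    rcases dj3 C.f23_3 with g9 | g9 | g9
                    · skip
                      rcases dj3 C.f23_7 with g10 | g10 | g10
                      · skip
                        linarith only [C.a1, C.f23_5, g0_0, g0_1, g10, g9]
                      · skip
                        rcases dj1 C.f23_10 with g11 | g11
                        · skip
                          linarith only [C.f23_9, C.o1, g1_0, g1_1, g10, g11]
                        · skip
                          rcases dj5 C.tzpm with g12 | g12 | g12 | g12 | ⟨g12_0, g12_1⟩
                          · skip
                            linarith only [C.a1, C.f23_1, g12, g9]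
                          · skip
                            linarith only [C.f22_4, C.f22_6, C.o1, g12, g5, s3]
                          · skip
                            linarith only [C.f11_0, C.f11_1, C.f11_2, C.f22_4, C.f22_6, C.f33_7, g12, g8, s3]
                          · skip
                            linarith only [C.f11_2, C.f22_4, C.f33_4, C.o1, g1_0, g1_1, g12, g5, g6, s2]
                          · skip
                            rcases dj4 C.p11_23B with g13 | g13 | g13 | g13 | g13 | g13
                            · skip
                              linarith only [e0, g13]
                            · skip
                              linarith only [e1, g12_0, g12_1, g13]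
                            · skip
                              linarith only [C.f11_0, C.f11_1, C.f11_2, C.f22_1, C.f22_4, C.f22_6, C.f33_4, C.f33_7, C.o0, C.o2, e0, g13, g7, g8, s1, s3]
                            · skip
                              linarith only [C.a1, C.f11_0, C.o0, g13, g9]
                            · skip
                              linarith only [C.f11_2, C.f22_4, C.f22_6, C.f33_7, g10, g12_0, g12_1, g13, g8, s3]
                            · skip
                              linarith only [C.f22_4, C.f22_6, C.f33_7, g11, g13, g8, s3]
                      · skip
                        linarith only [C.a1, C.f23_5, C.f33_4, C.o2, g0_0, g0_1, g10, g4, g7]
                    · skip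
                      rcases dj3 C.f23_7 with g10 | g10 | g10
                      · skip
                        linarith only [C.a2, C.f23_5, g0_0, g0_1, g10, g9]
                      · skip
                        rcases dj1 C.f23_10 with g11 | g11
                        · skip
                          linarith only [C.f23_9, C.o1, g1_0, g1_1, g10, g11]
                        · skip
                          rcases dj5 C.tzpm with g12 | g12 | g12 | g12 | ⟨g12_0, g12_1⟩
                          · skip
                            rcases dj6 C.tpmz with g13 | g13 | g13 | g13 | g13 | g13
                            · skip
                              linarith only [g0_0, g0_1, g13]
                            · skip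
                              linarith only [C.f11_0, C.f11_1, C.f11_2, C.f22_4, C.f22_6, C.f33_7, g1_0, g1_1, g12, g13, g8, s3]
                            · skip
                              linarith only [C.f11_0, C.f11_1, C.f11_2, C.f22_1, C.f22_4, C.f22_6, C.f33_4, C.f33_7, g12, g13, g7, g8, s1, s3]
                            · skip
                              linarith only [C.f11_0, C.f22_1, C.f33_0, C.o1, g12, g13, s1]
                            · skip
                              rcases dj2 C.p22_33A with g15 | g15 | g15 | g15 | g15
                              · skip
                                linarith only [e1, g15]
                              · skip
                                linarith only [e2, g15]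
                              · skip
                                rcases dj4 C.p11_23B with g16 | g16 | g16 | g16 | g16 | g16
                                · skip
                                  linarith only [e0, g16]
                                · skip
                                  linarith only [C.a2, C.f11_0, e0, g15, g16, s1]
                                · skip
                                  linarith only [C.f11_0, C.f11_1, C.f11_2, C.f22_1, C.f22_4, C.f22_6, C.f33_4, C.f33_7, C.o2, e0, g15, g16, g7, g8, s1, s3]
                                · skip
                                  linarith only [C.a2, g15, g16, g9, s1]
                                · skip
                                  linarith only [C.a2, C.f11_0, C.f11_2, C.f22_4, C.f22_6, C.f33_7, g10, g13, g15, g16, g8, s1, s3]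
                                · skip
                                  linarith only [C.f22_4, C.f22_6, C.f33_7, g11, g16, g8, s3]
                              · skip
                                rcases dj4 C.p11_23B with g16 | g16 | g16 | g16 | g16 | g16
                                · skip
                                  linarith only [e0, g16]
                                · skip
                                  linarith only [C.f11_0, C.f11_1, C.f11_2, C.f22_1, C.f22_6, C.f33_7, e0, g1_0, g1_1, g12, g15, g16, g7, g8, s1, s3]
                                · skip
                                  linarith only [C.f11_0, C.f11_1, C.f11_2, C.f22_1, C.f22_4, C.f22_6, C.f33_4, C.f33_7, C.o2, e0, g1_0, g1_1, g12, g15, g16, g7, g8, s1, s3]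
                                · skip
                                  linarith only [C.f11_0, C.f11_1, C.f11_2, C.f22_1, C.f22_6, C.f33_7, g1_0, g1_1, g12, g15, g16, g7, g8, g9, s1, s3]
                                · skip
                                  linarith only [C.f11_0, C.f11_1, C.f11_2, C.f22_1, C.f22_4, C.f22_6, C.f33_7, g10, g12, g15, g16, g7, g8, s1, s3]
                                · skip
                                  linarith only [C.f22_4, C.f22_6, C.f33_7, g11, g16, g8, s3]
                              · skip
                                linarith only [C.f22_6, C.o2, g1_0, g1_1, g15, g3, g6]
                            · skip
                              linarith only [g1_0, g1_1, g13]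
                          · skip
                            linarith only [C.o1, C.o2, g1_0, g1_1, g12]
                          · skip
                            linarith only [C.f11_0, C.f11_1, C.f11_2, C.f22_4, C.f22_6, C.f33_7, g12, g8, s3]
                          · skip
                            linarith only [C.a1, C.f11_0, C.f11_1, C.f11_2, C.f22_4, C.f22_6, C.f33_4, C.f33_7, C.o0, C.o2, g12, g4, g7, g8, s3]
                          · skip
                            rcases dj4 C.p11_23B with g13 | g13 | g13 | g13 | g13 | g13
                            · skip
                              linarith only [e0, g13]
                            · skip
                              linarith only [e0, g1_0, g1_1, g12_0, g12_1, g13]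
                            · skip
                              linarith only [C.f11_0, C.f22_1, C.f33_4, C.o2, e0, g0_0, g0_1, g12_0, g12_1, g13, g7, s1]
                            · skip
                              linarith only [C.f11_0, g1_0, g1_1, g12_0, g12_1, g13, g9]
                            · skip
                              linarith only [C.f11_2, C.f22_4, C.f22_6, C.f33_7, g10, g12_0, g12_1, g13, g8, s3]
                            · skip
                              linarith only [C.f22_4, C.f22_6, C.f33_7, g11, g13, g8, s3]
                      · skip
                        linarith only [C.a1, C.f23_5, C.f33_4, C.o2, g0_0, g0_1, g10, g4, g7]
                    · skip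
                      linarith only [C.f11_0, C.f11_1, C.f22_1, C.f22_4, C.f23_0, C.f23_1, C.f33_4, C.o2, g0_0, g0_1, g4, g7, g9, s1, s2]
                · skip
                  rcases dj3 C.f23_3 with g8 | g8 | g8
                  · skip
                    rcases dj3 C.f23_7 with g9 | g9 | g9
                    · skip
                      linarith only [C.a1, C.f23_5, g0_0, g0_1, g8, g9]
                    · skip
                      rcases dj1 C.f23_10 with g10 | g10
                      · skip
                        linarith only [C.f23_9, C.o1, g1_0, g1_1, g10, g9]
                      · skip
                        rcases dj4 C.p11_23B with g11 | g11 | g11 | g11 | g11 | g11
                        · skip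
                          linarith only [e0, g11]
                        · skip
                          linarith only [C.a1, C.f23_1, g0_0, g0_1, g11, g8]
                        · skip
                          linarith only [C.a1, C.f11_2, C.f22_4, C.f22_6, C.f23_1, C.f33_4, C.o0, e0, e2, g11, g5, g6, g8, s2, s3]
                        · skip
                          linarith only [C.a1, C.f11_0, C.o0, g11, g8]
                        · skip
                          rcases dj2 C.p22_33A with g12 | g12 | g12 | g12 | g12
                          · skip
                            linarith only [e1, g12]
                          · skip
                            linarith only [e2, g12]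
                          · skip
                            rcases dj6 C.tpmz with g13 | g13 | g13 | g13 | g13 | g13
                            · skip
                              linarith only [g0_0, g0_1, g13]
                            · skip
                              linarith only [C.a1, C.f22_4, C.f23_1, C.f33_3, g11, g12, g13, g2, g8, g9, s2]
                            · skip
                              linarith only [C.a1, C.f22_4, C.f23_1, C.f33_4, g11, g12, g13, g2, g4, g8, g9, s2]
                            · skip
                              linarith only [C.a1, C.f11_0, C.f11_1, C.f22_4, C.f23_1, C.f33_3, g11, g12, g13, g2, g4, g8, g9, s2]
                            · skip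
                              linarith only [C.a1, C.f11_0, C.f11_1, C.f22_4, C.f23_1, C.f33_3, g11, g12, g13, g2, g4, g8, g9, s2]
                            · skip
                              linarith only [g1_0, g1_1, g13]
                          · skip
                            linarith only [g11, g12, g9, s2]
                          · skip
                            linarith only [C.a5, C.f11_2, C.f22_6, C.o2, g11, g12, g3, g6, g9, s3]
                        · skip
                          linarith only [C.b3, C.f11_0, C.f11_1, C.f11_2, C.f22_4, C.f22_6, C.f33_7, g10, g11, s3]
                    · skip
                      linarith only [C.a4, C.f23_5, C.o2, g9]
                  · skip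
                    rcases dj3 C.f23_7 with g9 | g9 | g9
                    · skip
                      linarith only [C.a2, C.f23_5, g0_0, g0_1, g8, g9]
                    · skip
                      rcases dj1 C.f23_10 with g10 | g10
                      · skip
                        linarith only [C.f23_9, C.o1, g1_0, g1_1, g10, g9]
                      · skip
                        rcases dj2 C.p22_33A with g11 | g11 | g11 | g11 | g11
                        · skip
                          linarith only [e1, g11]
                        · skip
                          linarith only [e2, g11]
                        · skip
                          rcases dj8 C.tpzm with g12 | g12 | g12 | g12 | g12 | g12 | g12 | ⟨g12_0, g12_1⟩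
                          · skip
                            linarith only [g0_0, g0_1, g12]
                          · skip
                            linarith only [g0_0, g0_1, g12]
                          · skip
                            linarith only [C.a1, C.a2, C.f22_4, C.f22_6, g11, g12, g2, g4, g5, s3]
                          · skip
                            linarith only [C.a1, C.f11_0, g11, g12, s1]
                          · skip
                            linarith only [g1_0, g1_1, g12]
                          · skip
                            linarith only [C.a1, C.a2, C.a4, C.f11_2, C.f22_4, C.f22_6, C.f33_4, g11, g12, g2, g4, g5, g6, s2, s3]
                          · skip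
                            rcases dj7 C.tzmp with g13 | g13 | g13 | g13
                            · skip
                              linarith only [g0_0, g0_1, g13]
                            · skip
                              linarith only [C.f11_2, C.f22_4, C.f33_4, g1_0, g1_1, g12, g13, g5, g6, s2]
                            · skip
                              linarith only [g1_0, g1_1, g13]
                            · skip
                              rcases dj4 C.p11_23B with g14 | g14 | g14 | g14 | g14 | g14
                              · skip
                                linarith only [e0, g14]
                              · skip
                                linarith only [C.a2, C.f11_0, e0, g11, g14, s1]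
                              · skip
                                linarith only [C.o2, e2, g14]
                              · skip
                                linarith only [C.a2, g11, g14, g8, s1]
                              · skip
                                rcases dj6 C.tpmz with g15 | g15 | g15 | g15 | g15 | g15
                                · skip
                                  linarith only [g0_0, g0_1, g15]
                                · skip
                                  linarith only [C.f11_0, C.f11_1, C.f11_2, C.f22_4, C.f22_6, C.f33_7, g11, g13, g14, g15, g9, s1, s3]
                                · skip
                                  linarith only [C.a1, C.a2, C.f22_4, C.f33_4, g11, g14, g15, g2, g4, g9, s2]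
                                · skip
                                  linarith only [C.a1, C.f11_0, g11, g15, s1]
                                · skip
                                  linarith only [C.a2, C.f11_0, C.f11_2, C.f22_4, C.f22_6, C.f33_7, g11, g13, g14, g15, g9, s1, s3]
                                · skip
                                  linarith only [g1_0, g1_1, g15]
                              · skip
                                linarith only [C.f22_4, C.f22_6, C.f33_7, g10, g13, g14, s3]
                          · skip
                            linarith only [C.f11_0, g11, g12_0, g12_1, s1]
                        · skip
                          rcases dj4 C.p11_23B with g12 | g12 | g12 | g12 | g12 | g12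
                          · skip
                            linarith only [e0, g12]
                          · skip
                            linarith only [e1, e2, g11, g12, g3, g7]
                          · skip
                            linarith only [C.o2, e2, g12]
                          · skip
                            linarith only [C.f11_0, C.f22_1, C.f33_1, C.o0, g11, g12, g3, g7, g8, s1]
                          · skip
                            linarith only [g11, g12, g9, s2]
                          · skip
                            linarith only [C.b3, C.f11_0, C.f11_1, C.f11_2, C.f22_4, C.f22_6, C.f33_7, g10, g12, s3]
                        · skip
                          linarith only [g11, g5, g6, s3]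
                    · skip
                      linarith only [C.a4, C.f11_2, C.f22_4, C.f22_6, C.f23_5, C.f33_4, g5, g6, g9, s2, s3]
                  · skip
                    linarith only [C.f11_2, C.f22_4, C.f23_1, C.f33_4, g1_0, g1_1, g5, g6, g8, s2]
          · skip
            rcases dj1 C.f33_5 with g5 | g5
            · skip
              linarith only [C.a2, C.f33_4, g0_0, g0_1, g4, g5]
            · skip
              rcases dj1 C.f33_8 with g6 | g6
              · skip
                linarith only [C.a4, C.f33_7, C.o1, C.o2, g1_0, g1_1, g5, g6]
              · skip
                rcases dj2 C.p11_33B with g7 | g7 | g7 | g7 | g7
                · skip
                  linarith only [e0, g7]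
                · skip
                  linarith only [e2, g7]
                · skip
                  linarith only [C.a4, C.f11_0, C.f22_1, C.o0, C.o1, g4, g7, s1]
                · skip
                  linarith only [C.f22_4, C.o1, g7, s2]
                · skip
                  rcases dj3 C.f23_3 with g8 | g8 | g8
                  · skip
                    rcases dj5 C.tzpm with g9 | g9 | g9 | g9 | ⟨g9_0, g9_1⟩
                    · skip
                      linarith only [C.a1, C.f23_1, g8, g9]
                    · skip
                      linarith only [C.f11_2, C.f22_4, C.f23_1, C.f33_0, C.f33_4, C.o1, g1_0, g1_1, g4, g6, g7, g8, g9, s2]
                    · skip
                      linarith only [C.f11_0, C.f11_1, C.f22_4, C.f23_1, C.f33_0, C.f33_4, g4, g8, g9, s2]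
                    · skip
                      linarith only [C.f11_2, C.f22_4, C.f33_4, C.o1, g1_0, g1_1, g6, g7, g9, s2]
                    · skip
                      linarith only [C.f11_2, C.f22_4, C.f23_1, C.f33_0, C.f33_4, g1_0, g1_1, g4, g6, g7, g8, g9_0, g9_1, s2]
                  · skip
                    rcases dj3 C.f23_7 with g9 | g9 | g9
                    · skip
                      linarith only [C.a2, C.f23_5, g0_0, g0_1, g8, g9]
                    · skip
                      rcases dj1 C.f23_10 with g10 | g10
                      · skip
                        linarith only [C.f23_9, C.o1, g1_0, g1_1, g10, g9]
                      · skip
                        rcases dj2 C.p22_33A with g11 | g11 | g11 | g11 | g11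
                        · skip
                          linarith only [e1, g11]
                        · skip
                          linarith only [e2, g11]
                        · skip
                          rcases dj4 C.p11_23B with g12 | g12 | g12 | g12 | g12 | g12
                          · skip
                            linarith only [e0, g12]
                          · skip
                            linarith only [C.a2, e1, e2, g11, g12, g2, g4]
                          · skip
                            linarith only [C.o2, e2, g12]
                          · skip
                            linarith only [C.a2, g11, g12, g8, s1]
                          · skip
                            linarith only [C.a2, C.f22_4, C.f33_4, g11, g12, g2, g4, g9, s2]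
                          · skip
                            linarith only [C.b3, C.f11_0, C.f11_1, C.f11_2, C.f22_4, C.f22_6, C.f33_7, g10, g12, s3]
                        · skip
                          rcases dj4 C.p11_23B with g12 | g12 | g12 | g12 | g12 | g12
                          · skip
                            linarith only [e0, g12]
                          · skip
                            linarith only [e1, e2, g11, g12, g3, g5]
                          · skip
                            linarith only [C.o2, e2, g12]
                          · skip
                            linarith only [C.f11_0, C.f22_1, C.f33_1, C.o0, g11, g12, g3, g5, g8, s1]
                          · skip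
                            linarith only [g11, g12, g9, s2]
                          · skip
                            linarith only [C.b3, C.f11_0, C.f11_1, C.f11_2, C.f22_4, C.f22_6, C.f33_7, g10, g12, s3]
                        · skip
                          linarith only [g11, g6, g7, s3]
                    · skip
                      linarith only [C.a4, C.f11_2, C.f22_4, C.f22_6, C.f23_5, C.f33_4, g6, g7, g9, s2, s3]
                  · skip
                    linarith only [C.f11_2, C.f22_4, C.f23_1, C.f33_4, g1_0, g1_1, g6, g7, g8, s2]
  · skip
    rcases dj0 C.t23 with ⟨g1_0, g1_1⟩ | ⟨g1_0, g1_1⟩
    · skip
      rcases dj1 C.f33_2 with g4 | g4
      · skip
        rcases dj2 C.p11_33B with g5 | g5 | g5 | g5 | g5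
        · skip
          linarith only [e0, g5]
        · skip
          linarith only [e2, g5]
        · skip
          linarith only [C.a1, C.f11_0, C.o0, g4, g5]
        · skip
          linarith only [C.f22_4, C.o1, g5, s2]
        · skip
          rcases dj1 C.f33_8 with g6 | g6
          · skip
            linarith only [C.b5, C.f11_2, C.f22_4, C.o1, g5, g6, s2]
          · skip
            rcases dj5 C.tzpm with g7 | g7 | g7 | g7 | ⟨g7_0, g7_1⟩
            · skip
              linarith only [g1_0, g1_1, g7]
            · skip
              linarith only [C.f22_4, C.f22_6, C.o1, g5, g7, s3]
            · skip
              linarith only [g0_0, g0_1, g7]
            · skip
              linarith only [C.a4, C.f11_2, C.f22_4, C.f22_6, C.f33_4, C.o1, g5, g6, g7, s2, s3]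
            · skip
              rcases dj6 C.tmzp with g8 | g8 | g8 | g8 | g8 | g8
              · skip
                rcases dj6 C.tpmz with g9 | g9 | g9 | g9 | g9 | g9
                · skip
                  linarith only [C.o0, e0, g9]
                · skip
                  rcases dj3 C.f23_3 with g10 | g10 | g10
                  · skip
                    rcases dj3 C.f23_7 with g11 | g11 | g11
                    · skip
                      linarith only [C.f11_2, C.f22_4, C.f22_6, C.f23_5, C.f33_0, C.f33_3, g10, g11, g5, g6, g7_0, g7_1, s2, s3]
                    · skip
                      rcases dj1 C.f23_10 with g12 | g12
                      · skip
                        linarith only [C.f11_0, C.f11_1, C.f11_2, C.f22_4, C.f22_6, C.f23_9, C.f33_0, C.f33_3, C.f33_7, C.o0, g11, g12, g8, g9, s2, s3]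
                      · skip
                        rcases dj4 C.p11_23B with g13 | g13 | g13 | g13 | g13 | g13
                        · skip
                          linarith only [e0, g13]
                        · skip
                          linarith only [C.f11_0, C.f11_1, C.f22_1, C.f22_4, C.f33_0, C.f33_3, C.o0, e0, g13, g8, g9, s1, s2]
                        · skip
                          linarith only [C.f11_0, C.f11_1, C.f22_1, C.f22_4, C.f33_0, C.f33_4, C.o0, C.o2, e0, g13, g8, g9, s1, s2]
                        · skip
                          linarith only [C.a1, C.f11_0, C.o0, g10, g13]
                        · skip
                          linarith only [C.f11_0, C.f11_1, C.f22_4, C.f33_0, C.f33_3, C.o0, g11, g13, g8, g9, s2]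
                        · skip
                          linarith only [C.f11_2, C.f22_4, C.f22_6, C.f33_0, C.f33_3, C.f33_7, g12, g13, g8, g9, s2, s3]
                    · skip
                      linarith only [C.a4, C.f23_5, C.o2, g11]
                  · skip
                    linarith only [C.f11_0, C.f22_1, C.f23_0, C.f33_0, g0_0, g0_1, g10, g8, g9, s1]
                  · skip
                    linarith only [C.f11_0, C.f11_1, C.f22_1, C.f22_4, C.f23_0, C.f33_0, C.f33_4, C.o2, g10, g8, g9, s1, s2]
                · skip
                  linarith only [C.f11_2, C.f22_4, C.f22_6, C.f33_4, g5, g6, g7_0, g7_1, g9, s2, s3]
                · skip
                  linarith only [C.a1, C.o0, g9]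
                · skip
                  linarith only [C.f11_0, C.f22_1, C.f33_0, g8, g9, s1]
                · skip
                  linarith only [C.f22_4, C.f22_6, g5, g7_0, g7_1, g9, s3]
              · skip
                linarith only [g1_0, g1_1, g8]
              · skip
                linarith only [C.f11_2, C.f22_4, C.f22_6, C.f33_4, g5, g6, g7_0, g7_1, g8, s2, s3]
              · skip
                linarith only [e0, g8]
              · skip
                linarith only [g0_0, g0_1, g8]
              · skip
                linarith only [C.f22_4, C.f22_6, g5, g7_0, g7_1, g8, s3]
      · skip
        rcases dj1 C.f33_5 with g5 | g5
        · skip
          linarith only [C.a3, C.f33_4, g1_0, g1_1, g4, g5]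
        · skip
          rcases dj1 C.f33_8 with g6 | g6
          · skip
            linarith only [C.a4, C.f33_7, g1_0, g1_1, g5, g6]
          · skip
            rcases dj2 C.p11_33B with g7 | g7 | g7 | g7 | g7
            · skip
              linarith only [e0, g7]
            · skip
              linarith only [e2, g7]
            · skip
              linarith only [C.a4, C.f11_0, C.o0, g1_0, g1_1, g4, g7]
            · skip
              linarith only [C.f22_4, C.o1, g7, s2]
            · skip
              rcases dj5 C.tzpm with g8 | g8 | g8 | g8 | ⟨g8_0, g8_1⟩
              · skip
                linarith only [g1_0, g1_1, g8]
              · skip
                linarith only [C.f22_4, C.f22_6, C.o1, g7, g8, s3]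
              · skip
                linarith only [g0_0, g0_1, g8]
              · skip
                linarith only [C.a4, C.f11_2, C.f22_4, C.f22_6, C.f33_4, C.o1, g6, g7, g8, s2, s3]
              · skip
                rcases dj6 C.tmzp with g9 | g9 | g9 | g9 | g9 | g9
                · skip
                  linarith only [C.f11_2, C.f22_4, C.f22_6, C.f33_0, C.f33_4, g1_0, g1_1, g4, g6, g7, g8_0, g8_1, g9, s2, s3]
                · skip
                  linarith only [g1_0, g1_1, g9]
                · skip
                  linarith only [C.f11_2, C.f22_4, C.f22_6, C.f33_4, g6, g7, g8_0, g8_1, g9, s2, s3]
                · skip
                  linarith only [e0, g9]
                · skip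
                  linarith only [g0_0, g0_1, g9]
                · skip
                  linarith only [C.f22_4, C.f22_6, g7, g8_0, g8_1, g9, s3]
    · skip
      rcases dj1 C.f22_2 with g2 | g2
      · skip
        rcases dj1 C.f33_2 with g4 | g4
        · skip
          rcases dj2 C.p11_33B with g5 | g5 | g5 | g5 | g5
          · skip
            linarith only [e0, g5]
          · skip
            linarith only [e2, g5]
          · skip
            linarith only [C.f11_0, C.f22_0, C.o0, g4, g5, s1]
          · skip
            linarith only [C.f22_4, C.o1, g5, s2]
          · skip
            rcases dj1 C.f33_8 with g6 | g6
            · skip
              linarith only [C.f11_2, C.f22_4, C.o1, g1_0, g1_1, g5, g6, s2]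
            · skip
              rcases dj5 C.tzpm with g7 | g7 | g7 | g7 | ⟨g7_0, g7_1⟩
              · skip
                linarith only [C.a1, C.f22_1, C.o1, g2, g7]
              · skip
                linarith only [C.f22_4, C.f22_6, C.o1, g5, g7, s3]
              · skip
                linarith only [g0_0, g0_1, g7]
              · skip
                linarith only [C.a4, C.f11_2, C.f22_4, C.f22_6, C.f33_4, C.o1, g5, g6, g7, s2, s3]
              · skip
                rcases dj3 C.f23_3 with g8 | g8 | g8
                · skip
                  rcases dj3 C.f23_7 with g9 | g9 | g9
                  · skip
                    linarith only [C.f11_2, C.f22_4, C.f22_6, C.f23_5, C.f33_0, C.f33_3, g5, g6, g7_0, g7_1, g8, g9, s2, s3]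
                  · skip
                    rcases dj1 C.f23_10 with g10 | g10
                    · skip
                      linarith only [C.f22_4, C.f22_6, C.f23_9, g10, g5, g7_0, g7_1, g9, s3]
                    · skip
                      rcases dj4 C.p11_23B with g11 | g11 | g11 | g11 | g11 | g11
                      · skip
                        linarith only [e0, g11]
                      · skip
                        linarith only [e1, g11, g7_0, g7_1]
                      · skip
                        linarith only [C.o2, e2, g11]
                      · skip
                        linarith only [C.f11_0, C.f22_0, C.f33_0, C.o0, g11, g8, s1]
                      · skip
                        linarith only [C.f11_0, C.f11_1, g0_0, g0_1, g11, g7_0, g7_1, g9]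
                      · skip
                        linarith only [C.f11_0, C.f11_1, C.f11_2, C.f22_4, C.f22_6, C.f33_7, g0_0, g0_1, g10, g11, s3]
                  · skip
                    linarith only [C.a4, C.f23_5, C.o2, g9]
                · skip
                  linarith only [C.f22_1, C.f23_0, g2, g7_0, g7_1, g8]
                · skip
                  linarith only [C.a4, C.f22_1, C.f23_0, C.o2, g2, g7_0, g7_1, g8]
        · skip
          rcases dj1 C.f33_5 with g5 | g5
          · skip
            linarith only [C.a1, C.f11_0, C.f11_1, C.f22_1, C.f22_4, C.f33_0, C.f33_4, C.o0, C.o1, g2, g4, g5, s2]
          · skip
            rcases dj1 C.f33_8 with g6 | g6
            · skip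
              linarith only [C.a4, C.f33_7, C.o1, C.o2, g1_0, g1_1, g5, g6]
            · skip
              rcases dj2 C.p11_33B with g7 | g7 | g7 | g7 | g7
              · skip
                linarith only [e0, g7]
              · skip
                linarith only [e2, g7]
              · skip
                linarith only [C.a4, C.f11_0, C.f22_1, C.o0, C.o1, g4, g7, s1]
              · skip
                linarith only [C.f22_4, C.o1, g7, s2]
              · skip
                rcases dj5 C.tzpm with g8 | g8 | g8 | g8 | ⟨g8_0, g8_1⟩
                · skip
                  linarith only [C.a1, C.f22_1, C.o1, g2, g8]
                · skip
                  linarith only [C.f11_2, C.f22_1, C.f22_4, C.f33_0, C.f33_4, C.o1, g1_0, g1_1, g2, g4, g6, g7, g8, s2]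
                · skip
                  linarith only [g0_0, g0_1, g8]
                · skip
                  linarith only [C.f11_2, C.f22_4, C.f33_4, C.o1, g1_0, g1_1, g6, g7, g8, s2]
                · skip
                  linarith only [C.a4, C.f22_1, C.f33_0, g2, g4, g8_0, g8_1]
      · skip
        rcases dj1 C.f22_5 with g3 | g3
        · skip
          linarith only [C.f22_4, g0_0, g0_1, g1_0, g1_1, g2, g3]
        · skip
          rcases dj1 C.f33_2 with g4 | g4
          · skip
            rcases dj2 C.p11_33B with g5 | g5 | g5 | g5 | g5
            · skip
              linarith only [e0, g5]
            · skip
              linarith only [e2, g5]
            · skip
              linarith only [C.a1, C.f11_0, C.o0, g4, g5]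
            · skip
              linarith only [C.f22_4, C.o1, g5, s2]
            · skip
              rcases dj1 C.f33_8 with g6 | g6
              · skip
                linarith only [C.f11_2, C.f22_4, C.o1, g1_0, g1_1, g5, g6, s2]
              · skip
                rcases dj1 C.f33_5 with g7 | g7
                · skip
                  rcases dj3 C.f23_3 with g8 | g8 | g8
                  · skip
                    rcases dj3 C.f23_7 with g9 | g9 | g9
                    · skip
                      linarith only [C.a1, C.a3, C.f23_5, g8, g9]
                    · skip
                      rcases dj1 C.f23_10 with g10 | g10
                      · skip
                        linarith only [C.f23_9, C.o1, g1_0, g1_1, g10, g9]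
                      · skip
                        rcases dj5 C.tzpm with g11 | g11 | g11 | g11 | ⟨g11_0, g11_1⟩
                        · skip
                          linarith only [C.a1, C.f23_1, g11, g8]
                        · skip
                          linarith only [C.f22_4, C.f22_6, C.o1, g11, g5, s3]
                        · skip
                          linarith only [g0_0, g0_1, g11]
                        · skip
                          linarith only [C.a1, C.f11_0, C.f11_1, C.f11_2, C.f22_4, C.f22_6, C.f33_4, C.o0, g0_0, g0_1, g11, g4, g5, g6, g7, s3]
                        · skip
                          rcases dj4 C.p11_23B with g12 | g12 | g12 | g12 | g12 | g12
                          · skip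
                            linarith only [e0, g12]
                          · skip
                            linarith only [e1, g11_0, g11_1, g12]
                          · skip
                            linarith only [C.f11_0, C.f22_1, C.f33_4, C.o0, C.o2, e0, g0_0, g0_1, g12, g7, s1]
                          · skip
                            linarith only [C.a1, C.f11_0, C.o0, g12, g8]
                          · skip
                            linarith only [C.f11_0, C.f11_1, g0_0, g0_1, g11_0, g11_1, g12, g9]
                          · skip
                            linarith only [C.f11_0, C.f11_1, C.f11_2, C.f22_4, C.f22_6, C.f33_7, g0_0, g0_1, g10, g12, s3]
                    · skip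
                      linarith only [C.a1, C.a3, C.f23_5, C.f33_4, C.o2, g4, g7, g9]
                  · skip
                    rcases dj3 C.f23_7 with g9 | g9 | g9
                    · skip
                      linarith only [C.f23_5, g0_0, g0_1, g1_0, g1_1, g8, g9]
                    · skip
                      rcases dj1 C.f23_10 with g10 | g10
                      · skip
                        linarith only [C.f23_9, C.o1, g1_0, g1_1, g10, g9]
                      · skip
                        rcases dj5 C.tzpm with g11 | g11 | g11 | g11 | ⟨g11_0, g11_1⟩
                        · skip
                          rcases dj6 C.tpmz with g12 | g12 | g12 | g12 | g12 | g12
                          · skip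
                            linarith only [C.o1, e0, g1_0, g1_1, g11, g12]
                          · skip
                            linarith only [g0_0, g0_1, g1_0, g1_1, g11, g12]
                          · skip
                            linarith only [C.f11_0, C.f22_1, C.f33_4, g0_0, g0_1, g11, g12, g7, s1]
                          · skip
                            linarith only [C.f11_0, C.f22_1, C.f33_0, C.o1, g11, g12, s1]
                          · skip
                            rcases dj2 C.p22_33A with g15 | g15 | g15 | g15 | g15
                            · skip
                              linarith only [e1, g15]
                            · skip
                              linarith only [e2, g15]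
                            · skip
                              rcases dj4 C.p11_23B with g16 | g16 | g16 | g16 | g16 | g16
                              · skip
                                linarith only [e0, g16]
                              · skip
                                linarith only [C.a2, C.f11_0, e0, g15, g16, s1]
                              · skip
                                linarith only [C.f11_0, C.f22_1, C.f33_4, C.o2, e0, g0_0, g0_1, g15, g16, g7, s1]
                              · skip
                                linarith only [C.a2, g15, g16, g8, s1]
                              · skip
                                linarith only [C.a2, C.f11_1, g0_0, g0_1, g12, g15, g16, g9, s1]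
                              · skip
                                linarith only [C.f11_0, C.f11_1, C.f11_2, C.f22_4, C.f22_6, C.f33_7, g0_0, g0_1, g10, g16, s3]
                            · skip
                              rcases dj4 C.p11_23B with g16 | g16 | g16 | g16 | g16 | g16
                              · skip
                                linarith only [e0, g16]
                              · skip
                                linarith only [C.f11_0, C.f22_1, e0, g0_0, g0_1, g1_0, g1_1, g11, g15, g16, g3, g7, s1]
                              · skip
                                linarith only [C.f11_0, C.f22_1, C.f33_4, C.o2, e0, g0_0, g0_1, g1_0, g1_1, g11, g15, g16, g3, g7, s1]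
                              · skip
                                linarith only [C.f22_1, g0_0, g0_1, g1_0, g1_1, g11, g15, g16, g3, g7, g8, s1]
                              · skip
                                linarith only [C.f11_1, C.f22_1, g0_0, g0_1, g11, g15, g16, g3, g7, g9, s1]
                              · skip
                                linarith only [C.f11_0, C.f11_1, C.f11_2, C.f22_4, C.f22_6, C.f33_7, g0_0, g0_1, g10, g16, s3]
                            · skip
                              linarith only [C.f22_6, C.o2, g1_0, g1_1, g15, g3, g6]
                          · skip
                            linarith only [g1_0, g1_1, g12]
                        · skip
                          linarith only [C.o1, C.o2, g1_0, g1_1, g11]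
                        · skip
                          linarith only [g0_0, g0_1, g11]
                        · skip
                          linarith only [C.a1, C.f33_4, C.o0, C.o2, g0_0, g0_1, g11, g4, g7]
                        · skip
                          rcases dj4 C.p11_23B with g12 | g12 | g12 | g12 | g12 | g12
                          · skip
                            linarith only [e0, g12]
                          · skip
                            linarith only [e0, g1_0, g1_1, g11_0, g11_1, g12]
                          · skip
                            linarith only [C.f11_0, C.f22_1, C.f33_4, C.o0, C.o2, e0, g0_0, g0_1, g12, g7, s1]
                          · skip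
                            linarith only [C.f11_0, g1_0, g1_1, g11_0, g11_1, g12, g8]
                          · skip
                            linarith only [C.f11_0, C.f11_1, g0_0, g0_1, g11_0, g11_1, g12, g9]
                          · skip
                            linarith only [C.f11_0, C.f11_1, C.f11_2, C.f22_4, C.f22_6, C.f33_7, g0_0, g0_1, g10, g12, s3]
                    · skip
                      linarith only [C.a1, C.a3, C.f23_5, C.f33_4, C.o2, g4, g7, g9]
                  · skip
                    linarith only [C.a3, C.f11_0, C.f11_1, C.f22_1, C.f22_4, C.f23_0, C.f23_1, C.f33_4, C.o2, g4, g7, g8, s1, s2]
                · skip
                  rcases dj3 C.f23_3 with g8 | g8 | g8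
                  · skip
                    rcases dj3 C.f23_7 with g9 | g9 | g9
                    · skip
                      linarith only [C.a1, C.a3, C.f23_5, g8, g9]
                    · skip
                      rcases dj1 C.f23_10 with g10 | g10
                      · skip
                        linarith only [C.f23_9, C.o1, g1_0, g1_1, g10, g9]
                      · skip
                        rcases dj5 C.tzpm with g11 | g11 | g11 | g11 | ⟨g11_0, g11_1⟩
                        · skip
                          linarith only [C.a1, C.f23_1, g11, g8]
                        · skip
                          linarith only [C.f22_4, C.f22_6, C.o1, g11, g5, s3]
                        · skip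
                          linarith only [g0_0, g0_1, g11]
                        · skip
                          linarith only [C.a4, C.f11_2, C.f22_4, C.f22_6, C.f33_4, C.o1, g11, g5, g6, s2, s3]
                        · skip
                          rcases dj4 C.p11_23B with g12 | g12 | g12 | g12 | g12 | g12
                          · skip
                            linarith only [e0, g12]
                          · skip
                            linarith only [e1, g11_0, g11_1, g12]
                          · skip
                            linarith only [C.o2, e2, g12]
                          · skip
                            linarith only [C.a1, C.f11_0, C.o0, g12, g8]
                          · skip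
                            linarith only [C.f11_0, C.f11_1, g0_0, g0_1, g11_0, g11_1, g12, g9]
                          · skip
                            linarith only [C.f11_0, C.f11_1, C.f11_2, C.f22_4, C.f22_6, C.f33_7, g0_0, g0_1, g10, g12, s3]
                    · skip
                      linarith only [C.a4, C.f23_5, C.o2, g9]
                  · skip
                    rcases dj3 C.f23_7 with g9 | g9 | g9
                    · skip
                      linarith only [C.f23_5, g0_0, g0_1, g1_0, g1_1, g8, g9]
                    · skip
                      rcases dj1 C.f23_10 with g10 | g10
                      · skip
                        linarith only [C.f23_9, C.o1, g1_0, g1_1, g10, g9]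
                      · skip
                        rcases dj5 C.tzpm with g11 | g11 | g11 | g11 | ⟨g11_0, g11_1⟩
                        · skip
                          rcases dj6 C.tpmz with g12 | g12 | g12 | g12 | g12 | g12
                          · skip
                            linarith only [C.o1, e0, g1_0, g1_1, g11, g12]
                          · skip
                            linarith only [g0_0, g0_1, g1_0, g1_1, g11, g12]
                          · skip
                            linarith only [C.a1, C.f33_1, g11, g12, g4]
                          · skip
                            linarith only [C.f11_0, C.f22_1, C.f33_0, C.o1, g11, g12, s1]
                          · skip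
                            rcases dj7 C.tzmp with g14 | g14 | g14 | g14
                            · skip
                              linarith only [g0_0, g0_1, g1_0, g1_1, g11, g14]
                            · skip
                              linarith only [C.f11_0, C.f22_1, C.f33_1, g11, g12, g14, s1]
                            · skip
                              linarith only [g1_0, g1_1, g14]
                            · skip
                              rcases dj2 C.p22_33A with g15 | g15 | g15 | g15 | g15
                              · skip
                                linarith only [e1, g15]
                              · skip
                                linarith only [e2, g15]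
                              · skip
                                rcases dj4 C.p11_23B with g16 | g16 | g16 | g16 | g16 | g16
                                · skip
                                  linarith only [e0, g16]
                                · skip
                                  linarith only [C.a2, C.f11_0, e0, g15, g16, s1]
                                · skip
                                  linarith only [C.a2, C.f11_0, C.f11_2, C.f22_4, C.f22_6, C.f33_4, e0, e2, g15, g16, g5, g6, s1, s2, s3]
                                · skip
                                  linarith only [C.a2, g15, g16, g8, s1]
                                · skip
                                  linarith only [C.a2, C.f11_0, C.f11_2, C.f22_4, C.f22_6, C.f33_7, g12, g14, g15, g16, g9, s1, s3]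
                                · skip
                                  linarith only [C.f22_4, C.f22_6, C.f33_7, g10, g14, g16, s3]
                              · skip
                                rcases dj4 C.p11_23B with g16 | g16 | g16 | g16 | g16 | g16
                                · skip
                                  linarith only [e0, g16]
                                · skip
                                  linarith only [e0, e2, g1_0, g1_1, g15, g16, g3, g7]
                                · skip
                                  linarith only [C.f11_0, C.f11_2, C.f22_1, C.f33_1, e0, g1_0, g1_1, g11, g15, g16, g5, g6, s1, s2]
                                · skip
                                  linarith only [C.f22_1, C.f33_1, g11, g15, g16, g3, g7, g8, s1]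
                                · skip
                                  linarith only [g15, g16, g9, s2]
                                · skip
                                  linarith only [C.f22_4, C.f22_6, C.f33_7, g10, g14, g16, s3]
                              · skip
                                linarith only [g15, g5, g6, s3]
                          · skip
                            linarith only [g1_0, g1_1, g12]
                        · skip
                          linarith only [C.f22_4, C.f22_6, C.o1, g11, g5, s3]
                        · skip
                          linarith only [g0_0, g0_1, g11]
                        · skip
                          linarith only [C.f11_2, C.f22_4, C.f33_4, C.o1, g1_0, g1_1, g11, g5, g6, s2]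
                        · skip
                          rcases dj4 C.p11_23B with g12 | g12 | g12 | g12 | g12 | g12
                          · skip
                            linarith only [e0, g12]
                          · skip
                            linarith only [e0, g1_0, g1_1, g11_0, g11_1, g12]
                          · skip
                            linarith only [C.o2, e2, g12]
                          · skip
                            linarith only [C.f11_0, g1_0, g1_1, g11_0, g11_1, g12, g8]
                          · skip
                            linarith only [C.f11_0, C.f11_1, g0_0, g0_1, g11_0, g11_1, g12, g9]
                          · skip
                            linarith only [C.f11_0, C.f11_1, C.f11_2, C.f22_4, C.f22_6, C.f33_7, g0_0, g0_1, g10, g12, s3]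
                    · skip
                      linarith only [C.a4, C.f23_5, C.o2, g9]
                  · skip
                    linarith only [C.a4, C.f23_1, C.o2, g8]
          · skip
            rcases dj1 C.f33_5 with g5 | g5
            · skip
              linarith only [C.f33_4, g0_0, g0_1, g1_0, g1_1, g4, g5]
            · skip
              rcases dj1 C.f33_8 with g6 | g6
              · skip
                linarith only [C.a4, C.f33_7, C.o1, C.o2, g1_0, g1_1, g5, g6]
              · skip
                rcases dj2 C.p11_33B with g7 | g7 | g7 | g7 | g7
                · skip
                  linarith only [e0, g7]
                · skip
                  linarith only [e2, g7]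
                · skip
                  linarith only [C.a4, C.f11_0, C.f22_1, C.o0, C.o1, g4, g7, s1]
                · skip
                  linarith only [C.f22_4, C.o1, g7, s2]
                · skip
                  rcases dj3 C.f23_3 with g8 | g8 | g8
                  · skip
                    rcases dj5 C.tzpm with g9 | g9 | g9 | g9 | ⟨g9_0, g9_1⟩
                    · skip
                      linarith only [C.a1, C.f23_1, g8, g9]
                    · skip
                      linarith only [C.f11_2, C.f22_4, C.f23_1, C.f33_0, C.f33_4, C.o1, g1_0, g1_1, g4, g6, g7, g8, g9, s2]
                    · skip
                      linarith only [g0_0, g0_1, g9]
                    · skip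
                      linarith only [C.f11_2, C.f22_4, C.f33_4, C.o1, g1_0, g1_1, g6, g7, g9, s2]
                    · skip
                      linarith only [C.f11_2, C.f22_4, C.f23_1, C.f33_0, C.f33_4, g1_0, g1_1, g4, g6, g7, g8, g9_0, g9_1, s2]
                  · skip
                    rcases dj3 C.f23_7 with g9 | g9 | g9
                    · skip
                      linarith only [C.f23_5, g0_0, g0_1, g1_0, g1_1, g8, g9]
                    · skip
                      rcases dj1 C.f23_10 with g10 | g10
                      · skip
                        linarith only [C.f23_9, C.o1, g1_0, g1_1, g10, g9]
                      · skip
                        rcases dj5 C.tzpm with g11 | g11 | g11 | g11 | ⟨g11_0, g11_1⟩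
                        · skip
                          rcases dj2 C.p22_33A with g12 | g12 | g12 | g12 | g12
                          · skip
                            linarith only [e1, g12]
                          · skip
                            linarith only [e2, g12]
                          · skip
                            rcases dj4 C.p11_23B with g13 | g13 | g13 | g13 | g13 | g13
                            · skip
                              linarith only [e0, g13]
                            · skip
                              linarith only [C.a2, C.f11_0, e0, g12, g13, s1]
                            · skip
                              linarith only [C.f11_0, C.f11_1, C.f11_2, C.f22_4, C.f22_6, e2, g0_0, g0_1, g13, g6, g7, s3]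
                            · skip
                              linarith only [C.a2, g12, g13, g8, s1]
                            · skip
                              linarith only [C.a2, C.f22_4, C.f33_4, g12, g13, g2, g4, g9, s2]
                            · skip
                              linarith only [C.f11_0, C.f11_1, C.f11_2, C.f22_4, C.f22_6, C.f33_7, g0_0, g0_1, g10, g13, s3]
                          · skip
                            rcases dj4 C.p11_23B with g13 | g13 | g13 | g13 | g13 | g13
                            · skip
                              linarith only [e0, g13]
                            · skip
                              linarith only [C.f11_0, C.f22_1, C.f33_1, e0, g11, g12, g13, g3, g5, s1]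
                            · skip
                              linarith only [C.f11_0, C.f11_1, C.f11_2, C.f22_4, C.f22_6, e2, g0_0, g0_1, g13, g6, g7, s3]
                            · skip
                              linarith only [C.f22_1, C.f33_1, g11, g12, g13, g3, g5, g8, s1]
                            · skip
                              linarith only [g12, g13, g9, s2]
                            · skip
                              linarith only [C.f11_0, C.f11_1, C.f11_2, C.f22_4, C.f22_6, C.f33_7, g0_0, g0_1, g10, g13, s3]
                          · skip
                            linarith only [g12, g6, g7, s3]
                        · skip
                          linarith only [C.f22_4, C.f22_6, C.o1, g11, g7, s3]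
                        · skip
                          linarith only [g0_0, g0_1, g11]
                        · skip
                          linarith only [C.f11_2, C.f22_4, C.f33_4, C.o1, g1_0, g1_1, g11, g6, g7, s2]
                        · skip
                          rcases dj4 C.p11_23B with g12 | g12 | g12 | g12 | g12 | g12
                          · skip
                            linarith only [e0, g12]
                          · skip
                            linarith only [e0, g1_0, g1_1, g11_0, g11_1, g12]
                          · skip
                            linarith only [C.o2, e2, g12]
                          · skip
                            linarith only [C.f11_0, g1_0, g1_1, g11_0, g11_1, g12, g8]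
                          · skip
                            linarith only [C.f11_0, C.f11_1, g0_0, g0_1, g11_0, g11_1, g12, g9]
                          · skip
                            linarith only [C.f11_0, C.f11_1, C.f11_2, C.f22_4, C.f22_6, C.f33_7, g0_0, g0_1, g10, g12, s3]
                    · skip
                      linarith only [C.a4, C.f23_5, C.o2, g9]
                  · skip
                    linarith only [C.a4, C.f23_1, C.o2, g8]

end Pool.Agent.Helper35.TQ
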