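import Pool.Agent.Helper89.TQ.Ctx
import Mathlib.Tactic

set_option autoImplicit false
set_option linter.all false
set_option maxHeartbeats 4000000

namespace Pool.Agent.Helper35.TQ

open Pool.Agent.Helper89.TQ

namespace L_c0_11_23_33_k3

theorem dj0 {P0 P1 : Prop} (h : (P0) ∨ (P1)) : (P0) ∨ (P1) := by tauto

theorem dj1 {P0 P1 P2 P3 : Prop} (h : ((P0) ∧ (P1)) ∨ ((P2) ∧ (P3))) : (P0 ∧ P1) ∨ (P2 ∧ P3) := by tauto

theorem dj2 {P0 P1 P2 : Prop} (h : (P0) ∨ ((P1) ∨ (P2))) : (P0) ∨ (P1) ∨ (P2) := by tauto

theorem dj3 {P0 P1 P2 P3 P4 P5 : Prop} (h : (P0) → ((P1) → ((P2) → (¬ ((P3) ∧ ((P4) ∧ (P5))))))) : (¬ P0) ∨ (¬ P1) ∨ (¬ P2) ∨ (¬ P3) ∨ (¬ P4) ∨ (¬ P5) := by tauto

theorem dj4 {P0 P1 P2 P3 P4 : Prop} (h : (P0) → ((P1) → (¬ ((P2) ∧ ((P3) ∧ (P4)))))) : (¬ P0) ∨ (¬ P1) ∨ (¬ P2) ∨ (¬ P3) ∨ (¬ P4) := by tauto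

theorem dj5 {P0 P1 P2 P3 P4 P5 P6 P7 P8 P9 P10 P11 P12 P13 : Prop} (h : ¬ ((P0) ∧ ((P1) ∧ ((P2) ∧ ((P3) ∧ ((P4) ∧ ((P5) ∧ ((P6) ∧ ((P7) ∧ ((P8) ∧ ((P9) ∧ ((P10) ∧ ((P11) ∧ ((P12) ∧ (P13))))))))))))))) : (¬ P0) ∨ (¬ P1) ∨ (¬ P2) ∨ (¬ P3) ∨ (¬ P4) ∨ (¬ P5) ∨ (¬ P6) ∨ (¬ P7) ∨ (¬ P8) ∨ (¬ P9) ∨ (¬ P10) ∨ (¬ P11) ∨ (¬ P12) ∨ (¬ P13) := by tauto

theorem dj6 {P0 P1 P2 P3 : Prop} (h : ¬ ((P0) ∧ ((P1) ∧ ((P2) ∧ (P3))))) : (¬ P0) ∨ (¬ P1) ∨ (¬ P2) ∨ (¬ P3) := by tauto

theorem dj7 {P0 P1 P2 P3 P4 P5 : Prop} (h : ¬ ((P0) ∧ ((P1) ∧ ((P2) ∧ ((P3) ∧ ((P4) ∧ (P5))))))) : (¬ P0) ∨ (¬ P1) ∨ (¬ P2) ∨ (¬ P3) ∨ (¬ P4) ∨ (¬ P5) := by tauto

theorem nf1 {n1 n2 n3 A1 A2 A3 B1 B2 B3 : ℤ} (hn : ¬ (F1 n1 n2 n3 A1 A2 A3 B1 B2 B3 ∨ F2 n1 n2 n3 A1 A2 A3 B1 B2 B3)) : ¬ (A1 + 1 ≤ n1 ∧ 2 * (n1 - A1 - 1) + 3 ≤ n1 ∧ 3 ≤ n2 ∧ 2 * (n1 - A1 - 1) + 5 ≤ n3 ∧ A2 - A1 ≤ n2 - 1 ∧ n2 - 1 ≤ A2 - A1 ∧ A3 - A2 ≤ n3 - (n1 - A1 - 1) - 2 ∧ n3 - (n1 - A1 - 1) - 2 ≤ A3 - A2 ∧ B1 ≤ n1 - 2 * (n1 - A1 - 1) - 2 ∧ n1 - 2 * (n1 - A1 - 1) - 2 ≤ B1 ∧ B2 - B1 ≤ n2 - 1 ∧ n2 - 1 ≤ B2 - B1 ∧ B3 - B2 ≤ n3 ∧ n3 ≤ B3 - B2) := by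
  intro h
  apply hn
  left
  unfold F1
  omega

theorem nf2 {n1 n2 n3 A1 A2 A3 B1 B2 B3 : ℤ} (hn : ¬ (F1 n1 n2 n3 A1 A2 A3 B1 B2 B3 ∨ F2 n1 n2 n3 A1 A2 A3 B1 B2 B3)) : ¬ (1 ≤ A1 ∧ 2 * (A1 - 1) + 3 ≤ n1 ∧ 3 ≤ n2 ∧ n3 ≤ 2 * (A1 - 1) + 5 ∧ 2 * (A1 - 1) + 5 ≤ n3 ∧ A2 - A1 ≤ 1 ∧ 1 ≤ A2 - A1 ∧ A3 - A2 ≤ A1 - 1 + 2 ∧ A1 - 1 + 2 ≤ A3 - A2 ∧ B1 ≤ 0 ∧ 0 ≤ B1 ∧ B2 - B1 ≤ 1 ∧ 1 ≤ B2 - B1 ∧ B3 - B2 ≤ 2 * (A1 - 1) + 4 ∧ 2 * (A1 - 1) + 4 ≤ B3 - B2) := by
  intro h
  apply hn
  right
  unfold F2
  omega

end L_c0_11_23_33_k3

open L_c0_11_23_33_k3 in
theorem c0_11_23_33_k3 {n1 n2 n3 A1 A2 A3 B1 B2 B3 m11_1 m11_2 m11_3 m13_1 m13_2 m13_3 m22_1 m22_2 m22_3 m23_1 m23_2 m23_3 m33_1 m33_2 m33_3 : ℤ}
    (C : Ctx0 n1 n2 n3 A1 A2 A3 B1 B2 B3 m11_1 m11_2 m11_3 m13_1 m13_2 m13_3 m22_1 m22_2 m22_3 m23_1 m23_2 m23_3 m33_1 m33_2 m33_3)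
    (e0 : 0 < B1)
    (e1 : 0 < A2)
    (e2 : 0 < B3)
    (e3 : 0 < A3)
    (s1 : 3 * A1 + 0 * B1 ≤ m11_1 + m23_1 + m33_1)
    (s2 : 3 * A2 + 0 * B2 ≤ m11_2 + m23_2 + m33_2)
    (s3 : 3 * A3 + 0 * B3 ≤ m11_3 + m23_3 + m33_3) : F1 n1 n2 n3 A1 A2 A3 B1 B2 B3 ∨ F2 n1 n2 n3 A1 A2 A3 B1 B2 B3 := by
  by_contra hn
  have nF1 := nf1 hn
  have nF2 := nf2 hn
  rcases dj0 C.f13_2 with g0 | g0
  · skip
    rcases dj1 C.t12 with ⟨g1_0, g1_1⟩ | ⟨g1_0, g1_1⟩
    · skip
      rcases dj1 C.t23 with ⟨g2_0, g2_1⟩ | ⟨g2_0, g2_1⟩
      · skip
        rcases dj2 C.f23_3 with g3 | g3 | g3
        · skip
          rcases dj2 C.f23_7 with g4 | g4 | g4
          · skip
            linarith only [C.a1, C.f23_5, g1_0, g1_1, g3, g4]
          · skip
            rcases dj0 C.f23_10 with g5 | g5
            · skip
              rcases dj0 C.f33_2 with g6 | g6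
              · skip
                rcases dj0 C.f33_5 with g7 | g7
                · skip
                  rcases dj0 C.f33_8 with g8 | g8
                  · skip
                    linarith only [C.f11_0, C.f11_1, C.f11_2, C.f23_0, C.f23_5, C.f23_8, C.f33_7, C.o0, g6, g7, g8, s1, s2, s3]
                  · skip
                    rcases dj0 C.f13_5 with g9 | g9
                    · skip
                      rcases dj0 C.f13_8 with g10 | g10
                      · skip
                        linarith only [C.b3, C.b5, C.f13_7, C.o0, g0, g10, g9]
                      · skip
                        rcases dj3 C.p23_33A with g12 | g12 | g12 | g12 | g12 | g12
                        · skip
                          linarith only [e1, g12]
                        · skip
                          linarith only [e2, g12]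
                        · skip
                          linarith only [e3, g12]
                        · skip
                          linarith only [C.f11_0, C.o0, g12, s1]
                        · skip
                          linarith only [C.f11_0, C.f11_1, C.f23_0, C.o0, g12, g4, g6, g7, s1, s2]
                        · skip
                          rcases dj3 C.p13_23A with g13 | g13 | g13 | g13 | g13 | g13
                          · skip
                            linarith only [g1_0, g1_1, g13]
                          · skip
                            linarith only [e2, g13]
                          · skip
                            linarith only [e1, g13]
                          · skip
                            linarith only [C.f11_0, C.f33_0, C.o0, g0, g13, g3, s1]
                          · skip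
                            linarith only [C.f11_0, C.f11_1, C.f11_2, C.o0, g0, g12, g13, g4, g5, g8, g9, s3]
                          · skip
                            linarith only [C.f23_9, g10, g13, g2_0, g2_1, g4, g5]
                    · skip
                      linarith only [C.f11_0, C.f13_0, C.f13_3, C.f23_0, C.f23_9, C.f33_4, C.o0, g2_0, g2_1, g4, g5, g6, g7, g9, s1]
                · skip
                  rcases dj0 C.f33_8 with g8 | g8
                  · skip
                    linarith only [C.a4, C.f33_7, g2_0, g2_1, g7, g8]
                  · skip
                    rcases dj0 C.f13_5 with g10 | g10
                    · skip
                      rcases dj0 C.f13_8 with g11 | g11
                      · skip
                        linarith only [C.b3, C.b5, C.f13_7, C.o0, g0, g10, g11]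
                      · skip
                        rcases dj3 C.p13_23A with g12 | g12 | g12 | g12 | g12 | g12
                        · skip
                          linarith only [g1_0, g1_1, g12]
                        · skip
                          linarith only [e2, g12]
                        · skip
                          linarith only [e1, g12]
                        · skip
                          linarith only [C.f11_0, C.f33_0, C.o0, g0, g12, g3, s1]
                        · skip
                          rcases dj3 C.p23_33A with g13 | g13 | g13 | g13 | g13 | g13
                          · skip
                            linarith only [e1, g13]
                          · skip
                            linarith only [e2, g13]
                          · skip
                            linarith only [e3, g13]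
                          · skip
                            linarith only [C.f11_0, C.o0, g13, s1]
                          · skip
                            linarith only [C.f11_0, C.f11_1, C.o0, g0, g10, g12, g13, g4, s2]
                          · skip
                            linarith only [C.f11_0, C.f11_1, C.f11_2, C.o0, g0, g10, g12, g13, g4, g5, g8, s3]
                        · skip
                          linarith only [C.f23_9, g11, g12, g2_0, g2_1, g4, g5]
                    · skip
                      rcases dj0 C.f13_8 with g11 | g11
                      · skip
                        linarith only [C.a4, C.f13_7, g10, g11, g2_0, g2_1]
                      · skip
                        rcases dj3 C.p13_23A with g12 | g12 | g12 | g12 | g12 | g12
                        · skip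
                          linarith only [g1_0, g1_1, g12]
                        · skip
                          linarith only [e2, g12]
                        · skip
                          linarith only [e1, g12]
                        · skip
                          linarith only [C.f11_0, C.f33_0, C.o0, g0, g12, g3, s1]
                        · skip
                          rcases dj3 C.p11_23B with g13 | g13 | g13 | g13 | g13 | g13
                          · skip
                            linarith only [e0, g13]
                          · skip
                            linarith only [e1, g13]
                          · skip
                            linarith only [e2, g13]
                          · skip
                            linarith only [C.f11_0, C.f33_0, C.o0, g13, g3, s1]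
                          · skip
                            linarith only [C.f33_4, C.o1, C.o2, g10, g12, g13, g4, s2]
                          · skip
                            linarith only [C.a4, C.f11_2, C.f33_4, g10, g12, g13, g2_0, g2_1, g4, g5, s2]
                        · skip
                          linarith only [C.o2, g11, g12, g2_0, g2_1, g4, g5]
              · skip
                rcases dj3 C.p11_23B with g7 | g7 | g7 | g7 | g7 | g7
                · skip
                  linarith only [e0, g7]
                · skip
                  linarith only [e1, g7]
                · skip
                  linarith only [e2, g7]
                · skip
                  linarith only [C.f11_0, C.f33_0, C.o0, g3, g7, s1]
                · skip
                  linarith only [C.f23_1, C.f33_0, C.f33_4, C.o1, g3, g6, g7, s2]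
                · skip
                  linarith only [C.b5, C.f11_2, C.f23_1, C.f33_0, C.f33_4, C.o1, g3, g5, g6, g7, s2]
            · skip
              rcases dj0 C.f33_2 with g6 | g6
              · skip
                rcases dj0 C.f33_5 with g7 | g7
                · skip
                  rcases dj0 C.f33_8 with g8 | g8
                  · skip
                    linarith only [C.f11_0, C.f11_1, C.f23_0, C.f23_5, C.f33_7, C.o0, g2_0, g2_1, g6, g7, g8, s1, s2]
                  · skip
                    rcases dj0 C.f13_5 with g9 | g9
                    · skip
                      rcases dj0 C.f13_8 with g10 | g10
                      · skip
                        linarith only [C.b3, C.b5, C.f13_7, C.o0, g0, g10, g9]
                      · skip
                        rcases dj4 C.p11_33A with g11 | g11 | g11 | g11 | g11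
                        · skip
                          linarith only [e0, g11]
                        · skip
                          linarith only [e3, g11]
                        · skip
                          rcases dj3 C.p23_33A with g12 | g12 | g12 | g12 | g12 | g12
                          · skip
                            linarith only [e1, g12]
                          · skip
                            linarith only [e2, g12]
                          · skip
                            linarith only [e3, g12]
                          · skip
                            linarith only [C.f11_0, C.o0, g12, s1]
                          · skip
                            linarith only [C.f11_0, C.f11_1, C.f23_0, C.o0, g12, g4, g6, g7, s1, s2]
                          · skip
                            rcases dj3 C.p13_23A with g13 | g13 | g13 | g13 | g13 | g13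
                            · skip
                              linarith only [g1_0, g1_1, g13]
                            · skip
                              linarith only [e2, g13]
                            · skip
                              linarith only [e1, g13]
                            · skip
                              linarith only [g0, g11, g13, s1]
                            · skip
                              rcases dj0 C.f22_2 with g14 | g14
                              · skip
                                rcases dj0 C.f22_5 with g15 | g15
                                · skip
                                  linarith only [C.b3, C.f11_0, C.f22_4, C.f23_0, C.f33_0, C.o0, g14, g15, s1]
                                · skip
                                  rcases dj3 C.p11_23B with g17 | g17 | g17 | g17 | g17 | g17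
                                  · skip
                                    linarith only [e0, g17]
                                  · skip
                                    linarith only [e1, g17]
                                  · skip
                                    linarith only [e2, g17]
                                  · skip
                                    linarith only [C.f11_0, C.f33_0, C.o0, g17, g3, s1]
                                  · skip
                                    rcases dj4 C.p22_33A with g18 | g18 | g18 | g18 | g18
                                    · skip
                                      linarith only [C.f11_0, C.f22_1, C.f23_0, C.f33_0, C.o0, e0, g14, g18, s1]
                                    · skip
                                      linarith only [e3, g18]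
                                    · skip
                                      linarith only [C.f11_0, C.f23_0, C.o0, g14, g18, s1]
                                    · skip
                                      linarith only [C.f11_0, C.f11_1, C.f23_0, C.f23_5, C.o0, g15, g17, g18, g6, g7, s1, s2]
                                    · skip
                                      linarith only [C.f11_0, C.f11_1, C.f11_2, C.f22_6, C.o0, g0, g12, g13, g15, g17, g18, g4, g8, g9, s3]
                                  · skip
                                    rcases dj4 C.p22_33A with g18 | g18 | g18 | g18 | g18
                                    · skip
                                      linarith only [C.f11_0, C.f22_1, C.f23_0, C.f33_0, C.o0, e0, g14, g18, s1]
                                    · skip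
                                      linarith only [e3, g18]
                                    · skip
                                      linarith only [C.f11_0, C.f23_0, C.o0, g14, g18, s1]
                                    · skip
                                      linarith only [C.b5, C.f11_2, C.f23_5, g15, g17, g18, g5, s2]
                                    · skip
                                      rcases dj5 nF1 with g19 | g19 | g19 | g19 | g19 | g19 | g19 | g19 | g19 | g19 | g19 | g19 | g19 | g19
                                      · skip
                                        linarith only [C.b1, C.f11_0, C.f23_0, C.f33_0, g19, s1]
                                      · skip
                                        linarith only [C.f11_0, e0, g11, g19, g6]
                                      · skip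
                                        linarith only [C.f11_0, C.f11_1, C.f22_1, C.f22_6, C.f23_0, C.f23_5, C.f33_0, C.f33_3, C.o0, g14, g15, g18, g19, g2_0, g2_1, g8, s1, s2]
                                      · skip
                                        linarith only [C.b5, C.f11_1, C.f11_2, C.f22_6, C.f23_9, C.f33_4, g11, g15, g18, g19, g6, g7, s3]
                                      · skip
                                        linarith only [g1_0, g1_1, g19]
                                      · skip
                                        linarith only [g0, g13, g19, g4, g9]
                                      · skip
                                        linarith only [C.b5, C.f11_1, C.f11_2, C.f22_6, C.f23_9, g0, g11, g13, g15, g18, g19, g4, g6, g9, s3]
                                      · skip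
                                        linarith only [C.b5, C.f11_2, C.f22_6, C.f33_0, C.f33_3, g0, g13, g15, g17, g18, g19, g5, g8, g9, s2]
                                      · skip
                                        linarith only [C.f11_0, g11, g19, g6]
                                      · skip
                                        linarith only [C.f11_0, C.f11_1, C.f33_0, C.f33_3, g0, g13, g19, g4, g9, s2]
                                      · skip
                                        linarith only [C.b5, C.f11_0, C.f11_1, C.f11_2, C.f22_6, C.f23_9, g15, g18, g19, g8, s3]
                                      · skip
                                        linarith only [C.b5, C.f11_0, C.f11_1, C.f11_2, g17, g19, g5]
                                      · skip
                                        linarith only [C.b5, g19]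
                                      · skip
                                        linarith only [C.f22_6, g15, g17, g18, g19, g8, s3]
                              · skip
                                rcases dj0 C.f22_5 with g15 | g15
                                · skip
                                  linarith only [C.a1, C.f22_4, C.f23_1, g1_0, g1_1, g14, g15, g3]
                                · skip
                                  rcases dj3 C.p11_23B with g16 | g16 | g16 | g16 | g16 | g16
                                  · skip
                                    linarith only [e0, g16]
                                  · skip
                                    linarith only [e1, g16]
                                  · skip
                                    linarith only [e2, g16]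
                                  · skip
                                    linarith only [C.f11_0, C.f23_0, g11, g16, g6, s1]
                                  · skip
                                    rcases dj4 C.p22_33A with g17 | g17 | g17 | g17 | g17
                                    · skip
                                      linarith only [C.f11_0, C.f11_1, C.f23_0, C.f23_1, C.f33_3, e0, g11, g16, g17, g4, g6, s1, s2]
                                    · skip
                                      linarith only [e3, g17]
                                    · skip
                                      linarith only [C.f11_1, C.f23_0, C.f23_1, C.f33_3, g11, g14, g16, g17, g4, g6, s1, s2]
                                    · skip
                                      linarith only [C.f11_1, C.f23_0, C.f23_5, g11, g15, g16, g17, g6, g7, s1, s2]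
                                    · skip
                                      linarith only [C.f11_1, C.f11_2, C.f22_6, C.f23_0, g0, g11, g12, g13, g15, g16, g17, g4, g6, g8, g9, s1, s3]
                                  · skip
                                    rcases dj4 C.p22_33A with g18 | g18 | g18 | g18 | g18
                                    · skip
                                      linarith only [C.b5, C.f11_0, C.f11_1, C.f11_2, C.f23_1, C.f33_0, C.o0, e0, g1_0, g1_1, g16, g18, g3, g5, s1]
                                    · skip
                                      linarith only [e3, g18]
                                    · skip
                                      linarith only [C.b5, C.f11_1, C.f11_2, C.f23_1, g1_0, g1_1, g14, g16, g18, g5, s1]
                                    · skip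
                                      linarith only [C.b5, C.f11_2, C.f23_5, g15, g16, g18, g5, s2]
                                    · skip
                                      rcases dj5 nF1 with g19 | g19 | g19 | g19 | g19 | g19 | g19 | g19 | g19 | g19 | g19 | g19 | g19 | g19
                                      · skip
                                        linarith only [C.b1, C.f11_0, C.f23_0, C.f33_0, g19, s1]
                                      · skip
                                        linarith only [C.f11_0, e0, g11, g19, g6]
                                      · skip
                                        linarith only [C.f11_0, C.f11_1, C.f23_1, C.f23_5, C.f33_0, C.f33_3, C.o0, g19, g3, s1, s2]
                                      · skip
                                        linarith only [C.b5, C.f11_1, C.f11_2, C.f22_6, C.f23_9, C.f33_4, g11, g15, g18, g19, g6, g7, s3]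
                                      · skip
                                        linarith only [g1_0, g1_1, g19]
                                      · skip
                                        linarith only [g0, g13, g19, g4, g9]
                                      · skip
                                        linarith only [C.b5, C.f11_1, C.f11_2, C.f22_6, C.f23_9, g0, g11, g13, g15, g18, g19, g4, g6, g9, s3]
                                      · skip
                                        linarith only [C.b5, C.f11_2, C.f22_6, C.f33_0, C.f33_3, g0, g13, g15, g16, g18, g19, g5, g8, g9, s2]
                                      · skip
                                        linarith only [C.f11_0, g11, g19, g6]
                                      · skip
                                        linarith only [C.f11_0, C.f11_1, C.f33_0, C.f33_3, g0, g13, g19, g4, g9, s2]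
                                      · skip
                                        linarith only [C.b5, C.f11_0, C.f11_1, C.f11_2, C.f22_6, C.f23_9, g15, g18, g19, g8, s3]
                                      · skip
                                        linarith only [C.b5, C.f11_0, C.f11_1, C.f11_2, g16, g19, g5]
                                      · skip
                                        linarith only [C.b5, g19]
                                      · skip
                                        linarith only [C.f22_6, g15, g16, g18, g19, g8, s3]
                            · skip
                              linarith only [C.o2, g10, g13, g5]
                        · skip
                          linarith only [C.f23_5, g11, s2]
                        · skip
                          linarith only [C.b3, C.b5, C.f11_0, C.f11_1, C.f11_2, C.f23_9, g11, g8, s3]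
                    · skip
                      linarith only [C.f11_0, C.f13_0, C.f13_3, C.f23_0, C.f33_4, C.o0, C.o2, g6, g7, g9, s1]
                · skip
                  rcases dj0 C.f33_8 with g8 | g8
                  · skip
                    linarith only [C.a4, C.f33_7, g2_0, g2_1, g7, g8]
                  · skip
                    rcases dj4 C.p11_33A with g9 | g9 | g9 | g9 | g9
                    · skip
                      linarith only [e0, g9]
                    · skip
                      linarith only [e3, g9]
                    · skip
                      rcases dj0 C.f13_5 with g10 | g10
                      · skip
                        rcases dj0 C.f13_8 with g11 | g11
                        · skip
                          linarith only [C.b3, C.b5, C.f11_0, C.f13_7, C.f23_0, g0, g10, g11, g6, g9, s1]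
                        · skip
                          rcases dj3 C.p13_23A with g12 | g12 | g12 | g12 | g12 | g12
                          · skip
                            linarith only [g1_0, g1_1, g12]
                          · skip
                            linarith only [e2, g12]
                          · skip
                            linarith only [e1, g12]
                          · skip
                            linarith only [g0, g12, g9, s1]
                          · skip
                            rcases dj3 C.p23_33A with g13 | g13 | g13 | g13 | g13 | g13
                            · skip
                              linarith only [e1, g13]
                            · skip
                              linarith only [e2, g13]
                            · skip
                              linarith only [e3, g13]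
                            · skip
                              linarith only [C.f23_0, g13, g6, g9, s1]
                            · skip
                              linarith only [C.f11_1, C.f23_0, g0, g10, g12, g13, g4, g6, g9, s1, s2]
                            · skip
                              rcases dj0 C.f22_2 with g14 | g14
                              · skip
                                rcases dj0 C.f22_5 with g15 | g15
                                · skip
                                  linarith only [C.b3, C.f11_0, C.f22_4, C.f23_0, C.f33_0, C.o0, g14, g15, s1]
                                · skip
                                  rcases dj3 C.p11_23B with g17 | g17 | g17 | g17 | g17 | g17
                                  · skip
                                    linarith only [e0, g17]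
                                  · skip
                                    linarith only [e1, g17]
                                  · skip
                                    linarith only [e2, g17]
                                  · skip
                                    linarith only [C.f11_0, C.f33_0, C.o0, g17, g3, s1]
                                  · skip
                                    rcases dj4 C.p22_33A with g18 | g18 | g18 | g18 | g18
                                    · skip
                                      linarith only [C.f11_0, C.f22_1, C.f23_0, C.f33_0, C.o0, e0, g14, g18, s1]
                                    · skip
                                      linarith only [e3, g18]
                                    · skip
                                      linarith only [C.f11_0, C.f23_0, C.o0, g14, g18, s1]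
                                    · skip
                                      linarith only [C.f11_0, C.f11_1, C.o0, g0, g10, g12, g15, g17, g18, s2]
                                    · skip
                                      linarith only [C.f11_0, C.f11_1, C.f11_2, C.f22_6, C.o0, g0, g10, g12, g13, g15, g17, g18, g4, g8, s3]
                                  · skip
                                    rcases dj4 C.p22_33A with g18 | g18 | g18 | g18 | g18
                                    · skip
                                      linarith only [C.f11_0, C.f22_1, C.f23_0, C.f33_0, C.o0, e0, g14, g18, s1]
                                    · skip
                                      linarith only [e3, g18]
                                    · skip
                                      linarith only [C.f11_0, C.f23_0, C.o0, g14, g18, s1]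
                                    · skip
                                      linarith only [C.b5, C.f11_2, C.f23_5, g15, g17, g18, g5, s2]
                                    · skip
                                      rcases dj5 nF1 with g19 | g19 | g19 | g19 | g19 | g19 | g19 | g19 | g19 | g19 | g19 | g19 | g19 | g19
                                      · skip
                                        linarith only [C.b1, C.f11_0, C.f23_0, C.f33_0, g19, s1]
                                      · skip
                                        linarith only [C.f11_0, e0, g19, g6, g9]
                                      · skip
                                        linarith only [C.f11_0, C.f11_1, C.f22_1, C.f22_6, C.f23_0, C.f23_5, C.f33_0, C.f33_3, C.o0, g14, g15, g18, g19, g2_0, g2_1, g8, s1, s2]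
                                      · skip
                                        linarith only [C.b5, C.f11_1, C.f11_2, C.f22_6, C.f23_9, C.f33_4, g0, g10, g12, g15, g18, g19, g4, g6, g9, s2, s3]
                                      · skip
                                        linarith only [g1_0, g1_1, g19]
                                      · skip
                                        linarith only [g0, g10, g12, g19, g4]
                                      · skip
                                        linarith only [C.b5, C.f11_1, C.f11_2, C.f22_6, C.f23_9, g0, g10, g12, g15, g18, g19, g4, g6, g9, s3]
                                      · skip
                                        linarith only [C.b5, C.f11_2, C.f22_6, C.f33_0, C.f33_3, g0, g10, g12, g15, g17, g18, g19, g5, g8, s2]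
                                      · skip
                                        linarith only [C.f11_0, g19, g6, g9]
                                      · skip
                                        linarith only [C.f11_0, C.f11_1, C.f33_0, C.f33_3, g0, g10, g12, g19, g4, s2]
                                      · skip
                                        linarith only [C.b5, C.f11_0, C.f11_1, C.f11_2, C.f22_6, C.f23_9, g15, g18, g19, g8, s3]
                                      · skip
                                        linarith only [C.b5, C.f11_0, C.f11_1, C.f11_2, g17, g19, g5]
                                      · skip
                                        linarith only [C.b5, g19]
                                      · skip
                                        linarith only [C.f22_6, g15, g17, g18, g19, g8, s3]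
                              · skip
                                rcases dj0 C.f22_5 with g15 | g15
                                · skip
                                  linarith only [C.f22_4, C.f23_1, g1_0, g1_1, g14, g15, g9, s1]
                                · skip
                                  rcases dj3 C.p11_23B with g16 | g16 | g16 | g16 | g16 | g16
                                  · skip
                                    linarith only [e0, g16]
                                  · skip
                                    linarith only [e1, g16]
                                  · skip
                                    linarith only [e2, g16]
                                  · skip
                                    linarith only [C.f11_0, C.f23_0, g16, g6, g9, s1]
                                  · skip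
                                    rcases dj4 C.p22_33A with g17 | g17 | g17 | g17 | g17
                                    · skip
                                      linarith only [C.f11_0, C.f11_1, C.f23_0, C.f23_1, e0, g1_0, g1_1, g16, g17, g4, g6, g9, s1]
                                    · skip
                                      linarith only [e3, g17]
                                    · skip
                                      linarith only [C.f11_1, C.f23_0, C.f23_1, g1_0, g1_1, g14, g16, g17, g4, g6, g9, s1]
                                    · skip
                                      linarith only [C.o1, g15, g16, g17, s2]
                                    · skip
                                      linarith only [C.f11_1, C.f11_2, C.f22_6, C.f23_0, g0, g10, g12, g13, g15, g16, g17, g4, g6, g8, g9, s1, s3]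
                                  · skip
                                    rcases dj4 C.p22_33A with g18 | g18 | g18 | g18 | g18
                                    · skip
                                      linarith only [C.b5, C.f11_0, C.f11_1, C.f11_2, C.f23_1, C.f33_0, C.o0, e0, g1_0, g1_1, g16, g18, g3, g5, s1]
                                    · skip
                                      linarith only [e3, g18]
                                    · skip
                                      linarith only [C.b5, C.f11_1, C.f11_2, C.f23_1, g1_0, g1_1, g14, g16, g18, g5, s1]
                                    · skip
                                      linarith only [C.b5, C.f11_2, C.f23_5, g15, g16, g18, g5, s2]
                                    · skip
                                      rcases dj5 nF1 with g19 | g19 | g19 | g19 | g19 | g19 | g19 | g19 | g19 | g19 | g19 | g19 | g19 | g19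
                                      · skip
                                        linarith only [C.b1, C.f11_0, C.f23_0, C.f33_0, g19, s1]
                                      · skip
                                        linarith only [C.f11_0, e0, g19, g6, g9]
                                      · skip
                                        linarith only [C.f11_0, C.f11_1, C.f23_1, C.f23_5, C.f33_0, C.f33_3, C.o0, g19, g3, s1, s2]
                                      · skip
                                        linarith only [C.b5, C.f11_1, C.f11_2, C.f22_6, C.f23_9, C.f33_4, g0, g10, g12, g15, g18, g19, g4, g6, g9, s2, s3]
                                      · skip
                                        linarith only [g1_0, g1_1, g19]
                                      · skip
                                        linarith only [g0, g10, g12, g19, g4]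
                                      · skip
                                        linarith only [C.b5, C.f11_1, C.f11_2, C.f22_6, C.f23_9, g0, g10, g12, g15, g18, g19, g4, g6, g9, s3]
                                      · skip
                                        linarith only [C.b5, C.f11_2, C.f22_6, C.f33_0, C.f33_3, g0, g10, g12, g15, g16, g18, g19, g5, g8, s2]
                                      · skip
                                        linarith only [C.f11_0, g19, g6, g9]
                                      · skip
                                        linarith only [C.f11_0, C.f11_1, C.f33_0, C.f33_3, g0, g10, g12, g19, g4, s2]
                                      · skip
                                        linarith only [C.b5, C.f11_0, C.f11_1, C.f11_2, C.f22_6, C.f23_9, g15, g18, g19, g8, s3]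
                                      · skip
                                        linarith only [C.b5, C.f11_0, C.f11_1, C.f11_2, g16, g19, g5]
                                      · skip
                                        linarith only [C.b5, g19]
                                      · skip
                                        linarith only [C.f22_6, g15, g16, g18, g19, g8, s3]
                          · skip
                            linarith only [C.o2, g11, g12, g5]
                      · skip
                        rcases dj0 C.f13_8 with g11 | g11
                        · skip
                          linarith only [C.a4, C.f13_7, g10, g11, g2_0, g2_1]
                        · skip
                          rcases dj3 C.p13_23A with g12 | g12 | g12 | g12 | g12 | g12
                          · skip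
                            linarith only [g1_0, g1_1, g12]
                          · skip
                            linarith only [e2, g12]
                          · skip
                            linarith only [e1, g12]
                          · skip
                            linarith only [g0, g12, g9, s1]
                          · skip
                            rcases dj3 C.p11_23B with g13 | g13 | g13 | g13 | g13 | g13
                            · skip
                              linarith only [e0, g13]
                            · skip
                              linarith only [e1, g13]
                            · skip
                              linarith only [e2, g13]
                            · skip
                              linarith only [C.f11_0, C.f23_0, g13, g6, g9, s1]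
                            · skip
                              linarith only [C.f33_4, C.o1, C.o2, g10, g12, g13, g4, s2]
                            · skip
                              linarith only [C.f11_2, C.f33_4, g10, g12, g13, g2_0, g2_1, g5, s2]
                          · skip
                            linarith only [C.o2, g11, g12, g5]
                    · skip
                      linarith only [C.f23_5, g9, s2]
                    · skip
                      linarith only [C.b3, C.b5, C.f11_0, C.f11_1, C.f11_2, C.f23_9, g8, g9, s3]
              · skip
                rcases dj3 C.p11_23B with g7 | g7 | g7 | g7 | g7 | g7
                · skip
                  linarith only [e0, g7]
                · skip
                  linarith only [e1, g7]
                · skip
                  linarith only [e2, g7]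
                · skip
                  linarith only [C.f11_0, C.f33_0, C.o0, g3, g7, s1]
                · skip
                  linarith only [C.f23_1, C.f33_0, C.f33_4, C.o1, g3, g6, g7, s2]
                · skip
                  linarith only [C.b5, C.f11_2, C.f23_1, C.f23_5, C.f33_0, C.f33_4, C.o1, g3, g5, g6, g7, s2]
          · skip
            linarith only [C.a4, C.f23_5, C.o2, g4]
        · skip
          rcases dj2 C.f23_7 with g4 | g4 | g4
          · skip
            linarith only [C.f23_5, g1_0, g1_1, g2_0, g2_1, g3, g4]
          · skip
            rcases dj0 C.f23_10 with g5 | g5
            · skip
              rcases dj0 C.f33_2 with g6 | g6
              · skip
                rcases dj0 C.f33_5 with g7 | g7
                · skip
                  rcases dj0 C.f33_8 with g8 | g8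
                  · skip
                    linarith only [C.a1, C.f11_0, C.f11_1, C.f11_2, C.f23_5, C.f23_8, C.f33_7, C.o0, g6, g7, g8, s2, s3]
                  · skip
                    rcases dj0 C.f13_5 with g9 | g9
                    · skip
                      rcases dj0 C.f13_8 with g10 | g10
                      · skip
                        linarith only [C.b3, C.b5, C.f13_7, C.o0, g0, g10, g9]
                      · skip
                        rcases dj4 C.p11_33A with g11 | g11 | g11 | g11 | g11
                        · skip
                          linarith only [e0, g11]
                        · skip
                          linarith only [e3, g11]
                        · skip
                          rcases dj3 C.p23_33A with g12 | g12 | g12 | g12 | g12 | g12
                          · skip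
                            linarith only [e1, g12]
                          · skip
                            linarith only [e2, g12]
                          · skip
                            linarith only [e3, g12]
                          · skip
                            linarith only [C.f11_0, C.o0, g12, s1]
                          · skip
                            linarith only [C.a1, C.f11_0, C.f11_1, C.o0, g12, g4, g6, g7, s2]
                          · skip
                            rcases dj3 C.p13_23A with g13 | g13 | g13 | g13 | g13 | g13
                            · skip
                              linarith only [g1_0, g1_1, g13]
                            · skip
                              linarith only [e2, g13]
                            · skip
                              linarith only [e1, g13]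
                            · skip
                              linarith only [g0, g11, g13, s1]
                            · skip
                              linarith only [C.f11_0, C.f11_1, C.f11_2, C.o0, g0, g12, g13, g4, g5, g8, g9, s3]
                            · skip
                              linarith only [C.f23_9, g10, g13, g2_0, g2_1, g4, g5]
                        · skip
                          linarith only [C.f23_5, g11, s2]
                        · skip
                          linarith only [C.b3, C.b5, C.f11_0, C.f11_1, C.f11_2, C.f23_9, g11, g8, s3]
                    · skip
                      linarith only [C.a1, C.f13_0, C.f13_3, C.f23_9, C.f33_4, g2_0, g2_1, g4, g5, g6, g7, g9]
                · skip
                  rcases dj0 C.f33_8 with g8 | g8
                  · skip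
                    linarith only [C.a4, C.f33_7, g2_0, g2_1, g7, g8]
                  · skip
                    rcases dj4 C.p11_33A with g9 | g9 | g9 | g9 | g9
                    · skip
                      linarith only [e0, g9]
                    · skip
                      linarith only [e3, g9]
                    · skip
                      rcases dj0 C.f13_5 with g10 | g10
                      · skip
                        rcases dj0 C.f13_8 with g11 | g11
                        · skip
                          linarith only [C.b3, C.b5, C.f13_7, C.o0, g0, g10, g11]
                        · skip
                          rcases dj3 C.p13_23A with g12 | g12 | g12 | g12 | g12 | g12
                          · skip
                            linarith only [g1_0, g1_1, g12]
                          · skip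
                            linarith only [e2, g12]
                          · skip
                            linarith only [e1, g12]
                          · skip
                            linarith only [g0, g12, g9, s1]
                          · skip
                            rcases dj3 C.p23_33A with g13 | g13 | g13 | g13 | g13 | g13
                            · skip
                              linarith only [e1, g13]
                            · skip
                              linarith only [e2, g13]
                            · skip
                              linarith only [e3, g13]
                            · skip
                              linarith only [C.f11_0, C.o0, g13, s1]
                            · skip
                              linarith only [C.f11_0, C.f11_1, C.o0, g0, g10, g12, g13, g4, s2]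
                            · skip
                              linarith only [C.f11_0, C.f11_1, C.f11_2, C.o0, g0, g10, g12, g13, g4, g5, g8, s3]
                          · skip
                            linarith only [C.f23_9, g11, g12, g2_0, g2_1, g4, g5]
                      · skip
                        rcases dj0 C.f13_8 with g11 | g11
                        · skip
                          linarith only [C.a4, C.f13_7, g10, g11, g2_0, g2_1]
                        · skip
                          rcases dj3 C.p13_23A with g12 | g12 | g12 | g12 | g12 | g12
                          · skip
                            linarith only [g1_0, g1_1, g12]
                          · skip
                            linarith only [e2, g12]
                          · skip
                            linarith only [e1, g12]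
                          · skip
                            linarith only [g0, g12, g9, s1]
                          · skip
                            rcases dj3 C.p11_23B with g13 | g13 | g13 | g13 | g13 | g13
                            · skip
                              linarith only [e0, g13]
                            · skip
                              linarith only [e1, g13]
                            · skip
                              linarith only [e2, g13]
                            · skip
                              linarith only [C.f11_0, C.o0, g13, g9, s1]
                            · skip
                              linarith only [C.f33_4, C.o1, C.o2, g10, g12, g13, g4, s2]
                            · skip
                              linarith only [C.a4, C.f11_2, C.f33_4, g10, g12, g13, g2_0, g2_1, g4, g5, s2]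
                          · skip
                            linarith only [C.o2, g11, g12, g2_0, g2_1, g4, g5]
                    · skip
                      linarith only [C.f23_5, g9, s2]
                    · skip
                      linarith only [C.b3, C.b5, C.f11_0, C.f11_1, C.f11_2, C.f23_9, g8, g9, s3]
              · skip
                rcases dj0 C.f33_5 with g7 | g7
                · skip
                  linarith only [C.f33_4, g1_0, g1_1, g2_0, g2_1, g6, g7]
                · skip
                  rcases dj0 C.f33_8 with g8 | g8
                  · skip
                    linarith only [C.a4, C.f33_7, g2_0, g2_1, g7, g8]
                  · skip
                    rcases dj4 C.p11_33A with g9 | g9 | g9 | g9 | g9
                    · skip
                      linarith only [e0, g9]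
                    · skip
                      linarith only [e3, g9]
                    · skip
                      rcases dj0 C.f13_5 with g10 | g10
                      · skip
                        rcases dj0 C.f13_8 with g11 | g11
                        · skip
                          linarith only [C.a4, C.b3, C.b5, C.f11_0, C.f13_7, C.f23_1, g0, g10, g11, g6, g9, s1]
                        · skip
                          rcases dj3 C.p13_23A with g12 | g12 | g12 | g12 | g12 | g12
                          · skip
                            linarith only [g1_0, g1_1, g12]
                          · skip
                            linarith only [e2, g12]
                          · skip
                            linarith only [e1, g12]
                          · skip
                            linarith only [g0, g12, g9, s1]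
                          · skip
                            linarith only [C.f11_1, C.f23_1, C.f33_4, g0, g10, g12, g6, g9, s1, s2]
                          · skip
                            linarith only [C.f11_1, C.f11_2, C.f13_4, C.f23_1, C.f23_9, C.f33_7, g0, g10, g11, g12, g4, g5, g6, g9, s1, s3]
                      · skip
                        rcases dj0 C.f13_8 with g11 | g11
                        · skip
                          linarith only [C.a4, C.f13_7, g10, g11, g2_0, g2_1]
                        · skip
                          rcases dj3 C.p13_23A with g12 | g12 | g12 | g12 | g12 | g12
                          · skip
                            linarith only [g1_0, g1_1, g12]
                          · skip
                            linarith only [e2, g12]
                          · skip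
                            linarith only [e1, g12]
                          · skip
                            linarith only [g0, g12, g9, s1]
                          · skip
                            rcases dj3 C.p11_23B with g13 | g13 | g13 | g13 | g13 | g13
                            · skip
                              linarith only [e0, g13]
                            · skip
                              linarith only [e1, g13]
                            · skip
                              linarith only [e2, g13]
                            · skip
                              linarith only [C.a4, C.f11_0, C.f23_1, g13, g6, g9, s1]
                            · skip
                              linarith only [C.f33_4, C.o1, C.o2, g10, g12, g13, g4, s2]
                            · skip
                              linarith only [C.a4, C.f11_2, C.f33_4, g10, g12, g13, g2_0, g2_1, g4, g5, s2]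
                          · skip
                            linarith only [C.o2, g11, g12, g2_0, g2_1, g4, g5]
                    · skip
                      linarith only [C.f23_5, g9, s2]
                    · skip
                      linarith only [C.b3, C.b5, C.f11_0, C.f11_1, C.f11_2, C.f23_9, g8, g9, s3]
            · skip
              rcases dj0 C.f33_2 with g6 | g6
              · skip
                rcases dj0 C.f33_5 with g7 | g7
                · skip
                  rcases dj0 C.f33_8 with g8 | g8
                  · skip
                    linarith only [C.a1, C.f11_0, C.f11_1, C.f23_5, C.f33_7, C.o0, g2_0, g2_1, g6, g7, g8, s2]
                  · skip
                    rcases dj0 C.f13_5 with g9 | g9
                    · skip
                      rcases dj0 C.f13_8 with g10 | g10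
                      · skip
                        linarith only [C.b3, C.b5, C.f13_7, C.o0, g0, g10, g9]
                      · skip
                        rcases dj4 C.p11_33A with g11 | g11 | g11 | g11 | g11
                        · skip
                          linarith only [e0, g11]
                        · skip
                          linarith only [e3, g11]
                        · skip
                          rcases dj3 C.p23_33A with g12 | g12 | g12 | g12 | g12 | g12
                          · skip
                            linarith only [e1, g12]
                          · skip
                            linarith only [e2, g12]
                          · skip
                            linarith only [e3, g12]
                          · skip
                            linarith only [C.f11_0, C.o0, g12, s1]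
                          · skip
                            linarith only [C.a1, C.f11_0, C.f11_1, C.o0, g12, g4, g6, g7, s2]
                          · skip
                            rcases dj3 C.p13_23A with g13 | g13 | g13 | g13 | g13 | g13
                            · skip
                              linarith only [g1_0, g1_1, g13]
                            · skip
                              linarith only [e2, g13]
                            · skip
                              linarith only [e1, g13]
                            · skip
                              linarith only [g0, g11, g13, s1]
                            · skip
                              rcases dj0 C.f22_2 with g14 | g14
                              · skip
                                rcases dj0 C.f22_5 with g15 | g15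
                                · skip
                                  linarith only [C.a1, C.b3, C.f22_4, C.o0, g14, g15]
                                · skip
                                  rcases dj4 C.p22_33A with g16 | g16 | g16 | g16 | g16
                                  · skip
                                    linarith only [C.f11_0, C.f22_1, C.f23_0, C.f33_0, C.o0, e0, g14, g16, s1]
                                  · skip
                                    linarith only [e3, g16]
                                  · skip
                                    linarith only [C.f11_0, C.f23_0, C.o0, g14, g16, s1]
                                  · skip
                                    linarith only [C.f11_0, C.f11_1, C.f22_1, C.f23_0, C.f23_5, C.o0, g14, g15, g16, g3, g6, g7, s1, s2]
                                  · skip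
                                    linarith only [C.f11_0, C.f11_1, C.f11_2, C.f22_1, C.f22_6, C.f23_0, C.o0, g0, g12, g13, g14, g15, g16, g3, g4, g8, g9, s3]
                              · skip
                                rcases dj0 C.f22_5 with g15 | g15
                                · skip
                                  linarith only [C.f22_4, g1_0, g1_1, g14, g15, g2_0, g2_1]
                                · skip
                                  rcases dj3 C.p11_23B with g16 | g16 | g16 | g16 | g16 | g16
                                  · skip
                                    linarith only [e0, g16]
                                  · skip
                                    linarith only [e1, g16]
                                  · skip
                                    linarith only [e2, g16]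
                                  · skip
                                    linarith only [C.f11_0, C.o0, g16, g2_0, g2_1, g3]
                                  · skip
                                    rcases dj4 C.p22_33A with g17 | g17 | g17 | g17 | g17
                                    · skip
                                      linarith only [C.f11_0, C.f11_1, e0, g1_0, g1_1, g16, g17, g2_0, g2_1, g4]
                                    · skip
                                      linarith only [e3, g17]
                                    · skip
                                      linarith only [C.f11_0, C.f11_1, C.f23_1, C.o0, g1_0, g1_1, g14, g16, g17, g4, s1]
                                    · skip
                                      linarith only [C.a1, C.f11_0, C.f11_1, C.f23_5, C.o0, g15, g16, g17, g6, g7, s2]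
                                    · skip
                                      linarith only [C.f11_0, C.f11_1, C.f11_2, C.f22_6, C.o0, g0, g12, g13, g15, g16, g17, g4, g8, g9, s3]
                                  · skip
                                    rcases dj4 C.p22_33A with g18 | g18 | g18 | g18 | g18
                                    · skip
                                      linarith only [C.b5, C.f11_0, C.f11_1, C.f11_2, C.f23_1, C.f23_5, C.f33_3, e0, g11, g16, g18, g5, s1, s2]
                                    · skip
                                      linarith only [e3, g18]
                                    · skip
                                      linarith only [C.b5, C.f11_1, C.f11_2, C.f23_1, C.f23_5, C.f33_3, g11, g14, g16, g18, g5, s1, s2]
                                    · skip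
                                      linarith only [C.b5, C.f11_2, C.f23_5, g15, g16, g18, g5, s2]
                                    · skip
                                      rcases dj5 nF1 with g19 | g19 | g19 | g19 | g19 | g19 | g19 | g19 | g19 | g19 | g19 | g19 | g19 | g19
                                      · skip
                                        linarith only [C.f11_0, C.f11_1, C.f33_0, C.f33_3, C.o0, g0, g13, g19, g4, g9, s2]
                                      · skip
                                        linarith only [C.f11_0, e0, g11, g19, g6]
                                      · skip
                                        linarith only [C.f11_1, C.f23_1, C.f23_5, C.f33_3, g11, g19, s1, s2]
                                      · skip
                                        linarith only [C.b5, C.f11_1, C.f11_2, C.f22_6, C.f23_9, C.f33_4, g11, g15, g18, g19, g6, g7, s3]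
                                      · skip
                                        linarith only [g1_0, g1_1, g19]
                                      · skip
                                        linarith only [g0, g13, g19, g4, g9]
                                      · skip
                                        linarith only [C.b5, C.f11_1, C.f11_2, C.f22_6, C.f23_9, g0, g11, g13, g15, g18, g19, g4, g6, g9, s3]
                                      · skip
                                        linarith only [C.b5, C.f11_2, C.f22_6, C.f33_0, C.f33_3, g0, g13, g15, g16, g18, g19, g5, g8, g9, s2]
                                      · skip
                                        linarith only [C.f11_0, g11, g19, g6]
                                      · skip
                                        linarith only [C.f11_0, C.f11_1, C.f33_0, C.f33_3, g0, g13, g19, g4, g9, s2]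
                                      · skip
                                        linarith only [C.b5, C.f11_0, C.f11_1, C.f11_2, C.f22_6, C.f23_9, g15, g18, g19, g8, s3]
                                      · skip
                                        linarith only [C.b5, C.f11_0, C.f11_1, C.f11_2, g16, g19, g5]
                                      · skip
                                        linarith only [C.b5, g19]
                                      · skip
                                        linarith only [C.f22_6, g15, g16, g18, g19, g8, s3]
                            · skip
                              linarith only [C.o2, g10, g13, g5]
                        · skip
                          linarith only [C.f23_5, g11, s2]
                        · skip
                          linarith only [C.b3, C.b5, C.f11_0, C.f11_1, C.f11_2, C.f23_9, g11, g8, s3]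
                    · skip
                      linarith only [C.f11_0, C.f13_0, C.f13_3, C.f23_0, C.f33_4, C.o0, C.o2, g6, g7, g9, s1]
                · skip
                  rcases dj0 C.f33_8 with g8 | g8
                  · skip
                    linarith only [C.a4, C.f33_7, g2_0, g2_1, g7, g8]
                  · skip
                    rcases dj4 C.p11_33A with g9 | g9 | g9 | g9 | g9
                    · skip
                      linarith only [e0, g9]
                    · skip
                      linarith only [e3, g9]
                    · skip
                      rcases dj0 C.f13_5 with g10 | g10
                      · skip
                        rcases dj0 C.f13_8 with g11 | g11
                        · skip
                          linarith only [C.b3, C.b5, C.f11_0, C.f13_7, C.f23_0, g0, g10, g11, g6, g9, s1]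
                        · skip
                          rcases dj3 C.p13_23A with g12 | g12 | g12 | g12 | g12 | g12
                          · skip
                            linarith only [g1_0, g1_1, g12]
                          · skip
                            linarith only [e2, g12]
                          · skip
                            linarith only [e1, g12]
                          · skip
                            linarith only [g0, g12, g9, s1]
                          · skip
                            rcases dj3 C.p23_33A with g13 | g13 | g13 | g13 | g13 | g13
                            · skip
                              linarith only [e1, g13]
                            · skip
                              linarith only [e2, g13]
                            · skip
                              linarith only [e3, g13]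
                            · skip
                              linarith only [C.f23_0, g13, g6, g9, s1]
                            · skip
                              linarith only [C.f11_1, C.f23_0, g0, g10, g12, g13, g4, g6, g9, s1, s2]
                            · skip
                              rcases dj0 C.f22_2 with g14 | g14
                              · skip
                                rcases dj0 C.f22_5 with g15 | g15
                                · skip
                                  linarith only [C.a1, C.b3, C.f22_4, C.o0, g14, g15]
                                · skip
                                  rcases dj4 C.p22_33A with g16 | g16 | g16 | g16 | g16
                                  · skip
                                    linarith only [C.f11_0, C.f22_1, C.f23_0, C.f33_0, C.o0, e0, g14, g16, s1]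
                                  · skip
                                    linarith only [e3, g16]
                                  · skip
                                    linarith only [C.f11_0, C.f23_0, C.o0, g14, g16, s1]
                                  · skip
                                    linarith only [C.f11_0, C.f11_1, C.f22_1, C.f23_0, C.o0, g0, g10, g12, g14, g15, g16, g3, s2]
                                  · skip
                                    linarith only [C.f11_0, C.f11_1, C.f11_2, C.f22_1, C.f22_6, C.f23_0, C.o0, g0, g10, g12, g13, g14, g15, g16, g3, g4, g8, s3]
                              · skip
                                rcases dj0 C.f22_5 with g15 | g15
                                · skip
                                  linarith only [C.f22_4, C.f23_1, g1_0, g1_1, g14, g15, g9, s1]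
                                · skip
                                  rcases dj3 C.p11_23B with g16 | g16 | g16 | g16 | g16 | g16
                                  · skip
                                    linarith only [e0, g16]
                                  · skip
                                    linarith only [e1, g16]
                                  · skip
                                    linarith only [e2, g16]
                                  · skip
                                    linarith only [C.f11_0, C.f23_0, g16, g6, g9, s1]
                                  · skip
                                    rcases dj4 C.p22_33A with g17 | g17 | g17 | g17 | g17
                                    · skip
                                      linarith only [C.f11_0, C.f11_1, C.f23_0, C.f23_1, e0, g1_0, g1_1, g16, g17, g4, g6, g9, s1]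
                                    · skip
                                      linarith only [e3, g17]
                                    · skip
                                      linarith only [C.f11_1, C.f23_0, C.f23_1, g1_0, g1_1, g14, g16, g17, g4, g6, g9, s1]
                                    · skip
                                      linarith only [C.o1, g15, g16, g17, s2]
                                    · skip
                                      linarith only [C.f11_1, C.f11_2, C.f22_6, C.f23_0, g0, g10, g12, g13, g15, g16, g17, g4, g6, g8, g9, s1, s3]
                                  · skip
                                    rcases dj4 C.p22_33A with g18 | g18 | g18 | g18 | g18
                                    · skip
                                      linarith only [C.b5, C.f11_0, C.f11_1, C.f11_2, C.f23_1, C.f23_5, C.f33_3, e0, g16, g18, g5, g9, s1, s2]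
                                    · skip
                                      linarith only [e3, g18]
                                    · skip
                                      linarith only [C.b5, C.f11_1, C.f11_2, C.f23_1, C.f23_5, C.f33_3, g14, g16, g18, g5, g9, s1, s2]
                                    · skip
                                      linarith only [C.b5, C.f11_2, C.f23_5, g15, g16, g18, g5, s2]
                                    · skip
                                      rcases dj5 nF1 with g19 | g19 | g19 | g19 | g19 | g19 | g19 | g19 | g19 | g19 | g19 | g19 | g19 | g19
                                      · skip
                                        linarith only [C.b1, C.f11_0, C.f23_0, C.f33_0, g19, s1]
                                      · skip
                                        linarith only [C.f11_0, e0, g19, g6, g9]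
                                      · skip
                                        linarith only [C.f11_1, C.f23_1, C.f23_5, C.f33_3, g19, g9, s1, s2]
                                      · skip
                                        linarith only [C.b5, C.f11_1, C.f11_2, C.f22_6, C.f23_9, C.f33_4, g0, g10, g12, g15, g18, g19, g4, g6, g9, s2, s3]
                                      · skip
                                        linarith only [g1_0, g1_1, g19]
                                      · skip
                                        linarith only [g0, g10, g12, g19, g4]
                                      · skip
                                        linarith only [C.b5, C.f11_1, C.f11_2, C.f22_6, C.f23_9, g0, g10, g12, g15, g18, g19, g4, g6, g9, s3]
                                      · skip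
                                        linarith only [C.b5, C.f11_2, C.f22_6, C.f33_0, C.f33_3, g0, g10, g12, g15, g16, g18, g19, g5, g8, s2]
                                      · skip
                                        linarith only [C.f11_0, g19, g6, g9]
                                      · skip
                                        linarith only [C.f11_0, C.f11_1, C.f33_0, C.f33_3, g0, g10, g12, g19, g4, s2]
                                      · skip
                                        linarith only [C.b5, C.f11_0, C.f11_1, C.f11_2, C.f22_6, C.f23_9, g15, g18, g19, g8, s3]
                                      · skip
                                        linarith only [C.b5, C.f11_0, C.f11_1, C.f11_2, g16, g19, g5]
                                      · skip
                                        linarith only [C.b5, g19]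
                                      · skip
                                        linarith only [C.f22_6, g15, g16, g18, g19, g8, s3]
                          · skip
                            linarith only [C.o2, g11, g12, g5]
                      · skip
                        rcases dj0 C.f13_8 with g11 | g11
                        · skip
                          linarith only [C.a4, C.f13_7, g10, g11, g2_0, g2_1]
                        · skip
                          rcases dj3 C.p13_23A with g12 | g12 | g12 | g12 | g12 | g12
                          · skip
                            linarith only [g1_0, g1_1, g12]
                          · skip
                            linarith only [e2, g12]
                          · skip
                            linarith only [e1, g12]
                          · skip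
                            linarith only [g0, g12, g9, s1]
                          · skip
                            rcases dj3 C.p11_23B with g13 | g13 | g13 | g13 | g13 | g13
                            · skip
                              linarith only [e0, g13]
                            · skip
                              linarith only [e1, g13]
                            · skip
                              linarith only [e2, g13]
                            · skip
                              linarith only [C.f11_0, C.f23_0, g13, g6, g9, s1]
                            · skip
                              linarith only [C.f33_4, C.o1, C.o2, g10, g12, g13, g4, s2]
                            · skip
                              linarith only [C.f11_2, C.f33_4, g10, g12, g13, g2_0, g2_1, g5, s2]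
                          · skip
                            linarith only [C.o2, g11, g12, g5]
                    · skip
                      linarith only [C.f23_5, g9, s2]
                    · skip
                      linarith only [C.b3, C.b5, C.f11_0, C.f11_1, C.f11_2, C.f23_9, g8, g9, s3]
              · skip
                rcases dj0 C.f33_5 with g7 | g7
                · skip
                  linarith only [C.f33_4, g1_0, g1_1, g2_0, g2_1, g6, g7]
                · skip
                  rcases dj0 C.f33_8 with g8 | g8
                  · skip
                    linarith only [C.a4, C.f33_7, g2_0, g2_1, g7, g8]
                  · skip
                    rcases dj4 C.p11_33A with g9 | g9 | g9 | g9 | g9
                    · skip
                      linarith only [e0, g9]
                    · skip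
                      linarith only [e3, g9]
                    · skip
                      rcases dj0 C.f13_5 with g10 | g10
                      · skip
                        rcases dj0 C.f13_8 with g11 | g11
                        · skip
                          linarith only [C.a4, C.b3, C.b5, C.f11_0, C.f13_7, C.f23_1, g0, g10, g11, g6, g9, s1]
                        · skip
                          rcases dj3 C.p13_23A with g12 | g12 | g12 | g12 | g12 | g12
                          · skip
                            linarith only [g1_0, g1_1, g12]
                          · skip
                            linarith only [e2, g12]
                          · skip
                            linarith only [e1, g12]
                          · skip
                            linarith only [g0, g12, g9, s1]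
                          · skip
                            linarith only [C.f11_1, C.f23_1, C.f33_4, g0, g10, g12, g6, g9, s1, s2]
                          · skip
                            linarith only [C.o2, g11, g12, g5]
                      · skip
                        rcases dj0 C.f13_8 with g11 | g11
                        · skip
                          linarith only [C.a4, C.f13_7, g10, g11, g2_0, g2_1]
                        · skip
                          rcases dj3 C.p13_23A with g12 | g12 | g12 | g12 | g12 | g12
                          · skip
                            linarith only [g1_0, g1_1, g12]
                          · skip
                            linarith only [e2, g12]
                          · skip
                            linarith only [e1, g12]
                          · skip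
                            linarith only [g0, g12, g9, s1]
                          · skip
                            rcases dj3 C.p11_23B with g13 | g13 | g13 | g13 | g13 | g13
                            · skip
                              linarith only [e0, g13]
                            · skip
                              linarith only [e1, g13]
                            · skip
                              linarith only [e2, g13]
                            · skip
                              linarith only [C.a4, C.f11_0, C.f23_1, g13, g6, g9, s1]
                            · skip
                              linarith only [C.f33_4, C.o1, C.o2, g10, g12, g13, g4, s2]
                            · skip
                              linarith only [C.f11_2, C.f33_4, g10, g12, g13, g2_0, g2_1, g5, s2]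
                          · skip
                            linarith only [C.o2, g11, g12, g5]
                    · skip
                      linarith only [C.f23_5, g9, s2]
                    · skip
                      linarith only [C.b3, C.b5, C.f11_0, C.f11_1, C.f11_2, C.f23_9, g8, g9, s3]
          · skip
            linarith only [C.a4, C.f23_5, C.o2, g4]
        · skip
          linarith only [C.a4, C.f23_1, C.o2, g3]
      · skip
        rcases dj2 C.f23_3 with g3 | g3 | g3
        · skip
          rcases dj2 C.f23_7 with g4 | g4 | g4
          · skip
            linarith only [C.a1, C.f23_5, g1_0, g1_1, g3, g4]
          · skip
            rcases dj0 C.f23_10 with g5 | g5
            · skip
              linarith only [C.f23_9, C.o1, g2_0, g2_1, g4, g5]
            · skip
              rcases dj0 C.f33_2 with g6 | g6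
              · skip
                rcases dj0 C.f33_5 with g7 | g7
                · skip
                  rcases dj0 C.f33_8 with g8 | g8
                  · skip
                    linarith only [C.f11_0, C.f11_1, C.f11_2, C.f23_0, C.f23_5, C.f23_9, C.f33_7, C.o0, C.o1, g2_0, g2_1, g6, g7, g8, s1, s2, s3]
                  · skip
                    rcases dj0 C.f13_5 with g9 | g9
                    · skip
                      rcases dj0 C.f13_8 with g10 | g10
                      · skip
                        linarith only [C.b3, C.f13_7, C.o0, g0, g10, g2_0, g2_1, g9]
                      · skip
                        rcases dj4 C.p11_33A with g11 | g11 | g11 | g11 | g11
                        · skip
                          linarith only [e0, g11]
                        · skip
                          linarith only [e3, g11]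
                        · skip
                          rcases dj3 C.p23_33A with g12 | g12 | g12 | g12 | g12 | g12
                          · skip
                            linarith only [e1, g12]
                          · skip
                            linarith only [e2, g12]
                          · skip
                            linarith only [e3, g12]
                          · skip
                            linarith only [C.a1, g12, g3, g6]
                          · skip
                            linarith only [C.f11_0, C.f23_0, C.o0, g1_0, g1_1, g12, g4, g6, g7, s1]
                          · skip
                            rcases dj6 C.tzmp with g13 | g13 | g13 | g13
                            · skip
                              linarith only [g1_0, g1_1, g13]
                            · skip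
                              linarith only [C.a1, C.f33_4, g1_0, g1_1, g13, g6, g7]
                            · skip
                              linarith only [g13, g2_0, g2_1]
                            · skip
                              rcases dj3 C.p13_23A with g14 | g14 | g14 | g14 | g14 | g14
                              · skip
                                linarith only [g1_0, g1_1, g14]
                              · skip
                                linarith only [e2, g14]
                              · skip
                                linarith only [e1, g14]
                              · skip
                                linarith only [C.b1, C.f11_0, C.f33_0, g0, g14, g3, s1]
                              · skip
                                rcases dj0 C.f22_2 with g15 | g15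
                                · skip
                                  rcases dj0 C.f22_5 with g16 | g16
                                  · skip
                                    linarith only [C.f11_0, C.f11_1, C.f11_2, C.f22_4, C.f23_0, C.f33_0, C.o0, g12, g13, g15, g16, g5, g8, s1, s3]
                                  · skip
                                    rcases dj4 C.p22_33A with g18 | g18 | g18 | g18 | g18
                                    · skip
                                      linarith only [C.f11_0, C.f22_1, C.f23_0, C.f33_0, C.o0, e0, g15, g18, s1]
                                    · skip
                                      linarith only [e3, g18]
                                    · skip
                                      linarith only [C.f11_0, C.f23_0, C.o0, g15, g18, s1]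
                                    · skip
                                      rcases dj3 C.p11_23B with g19 | g19 | g19 | g19 | g19 | g19
                                      · skip
                                        linarith only [e0, g19]
                                      · skip
                                        linarith only [e1, g19]
                                      · skip
                                        linarith only [e2, g19]
                                      · skip
                                        linarith only [C.f11_0, C.f33_0, C.o0, g19, g3, s1]
                                      · skip
                                        linarith only [C.f11_1, C.f23_0, g1_0, g1_1, g16, g18, g19, g4, g6, g7, s1]
                                      · skip
                                        linarith only [C.f11_2, C.f23_5, g16, g18, g19, g2_0, g2_1, g5, s2]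
                                    · skip
                                      linarith only [C.f22_6, C.o2, g16, g18, g2_0, g2_1, g8]
                                · skip
                                  rcases dj0 C.f22_5 with g16 | g16
                                  · skip
                                    linarith only [C.f11_1, C.f22_4, C.f23_1, C.f23_5, C.f33_3, g11, g15, g16, s1, s2]
                                  · skip
                                    rcases dj4 C.p22_33A with g17 | g17 | g17 | g17 | g17
                                    · skip
                                      linarith only [e0, g17, g2_0, g2_1]
                                    · skip
                                      linarith only [e3, g17]
                                    · skip
                                      linarith only [C.f11_0, C.f11_1, C.f33_3, g0, g14, g15, g17, g2_0, g2_1, g4, g9, s2]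
                                    · skip
                                      rcases dj3 C.p11_23B with g18 | g18 | g18 | g18 | g18 | g18
                                      · skip
                                        linarith only [e0, g18]
                                      · skip
                                        linarith only [e1, g18]
                                      · skip
                                        linarith only [e2, g18]
                                      · skip
                                        linarith only [C.f11_0, C.f33_0, C.o0, g18, g3, s1]
                                      · skip
                                        linarith only [C.f11_0, C.f11_1, C.f23_0, C.f23_5, C.o0, g16, g17, g18, g6, g7, s1, s2]
                                      · skip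
                                        linarith only [C.f11_2, C.f23_5, g16, g17, g18, g2_0, g2_1, g5, s2]
                                    · skip
                                      linarith only [C.f22_6, C.o2, g16, g17, g2_0, g2_1, g8]
                              · skip
                                linarith only [C.o2, g10, g14, g5]
                        · skip
                          linarith only [C.f23_5, g11, s2]
                        · skip
                          linarith only [C.b3, C.f11_0, C.f11_1, C.f11_2, C.f23_9, g11, g2_0, g2_1, g8, s3]
                    · skip
                      linarith only [C.f11_0, C.f13_0, C.f13_3, C.f23_0, C.f33_4, C.o0, C.o2, g6, g7, g9, s1]
                · skip
                  rcases dj0 C.f33_8 with g8 | g8
                  · skip
                    linarith only [C.b4, C.f33_7, g2_0, g2_1, g7, g8]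
                  · skip
                    rcases dj4 C.p11_33A with g9 | g9 | g9 | g9 | g9
                    · skip
                      linarith only [e0, g9]
                    · skip
                      linarith only [e3, g9]
                    · skip
                      rcases dj0 C.f13_5 with g10 | g10
                      · skip
                        rcases dj0 C.f13_8 with g11 | g11
                        · skip
                          linarith only [C.b3, C.f11_0, C.f13_7, C.f23_0, g0, g10, g11, g2_0, g2_1, g6, g9, s1]
                        · skip
                          rcases dj3 C.p13_23A with g12 | g12 | g12 | g12 | g12 | g12
                          · skip
                            linarith only [g1_0, g1_1, g12]
                          · skip
                            linarith only [e2, g12]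
                          · skip
                            linarith only [e1, g12]
                          · skip
                            linarith only [g0, g12, g9, s1]
                          · skip
                            rcases dj3 C.p23_33A with g13 | g13 | g13 | g13 | g13 | g13
                            · skip
                              linarith only [e1, g13]
                            · skip
                              linarith only [e2, g13]
                            · skip
                              linarith only [e3, g13]
                            · skip
                              linarith only [C.a1, g13, g3, g6]
                            · skip
                              linarith only [C.f11_0, C.f11_1, C.o0, g0, g10, g12, g13, g4, s2]
                            · skip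
                              rcases dj6 C.tzmp with g14 | g14 | g14 | g14
                              · skip
                                linarith only [g1_0, g1_1, g14]
                              · skip
                                linarith only [C.f11_0, C.f11_1, C.f33_4, C.o0, g0, g10, g12, g14, s2]
                              · skip
                                linarith only [g14, g2_0, g2_1]
                              · skip
                                rcases dj0 C.f22_2 with g15 | g15
                                · skip
                                  rcases dj0 C.f22_5 with g16 | g16
                                  · skip
                                    linarith only [C.f11_0, C.f11_1, C.f11_2, C.f22_4, C.f23_0, C.f33_0, C.o0, g13, g14, g15, g16, g5, g8, s1, s3]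
                                  · skip
                                    rcases dj7 C.tpmz with g17 | g17 | g17 | g17 | g17 | g17
                                    · skip
                                      linarith only [g1_0, g1_1, g17]
                                    · skip
                                      rcases dj4 C.p22_33A with g18 | g18 | g18 | g18 | g18
                                      · skip
                                        linarith only [C.f11_0, C.f22_1, C.f23_0, C.f33_0, C.o0, e0, g15, g18, s1]
                                      · skip
                                        linarith only [e3, g18]
                                      · skip
                                        linarith only [C.f11_0, C.f23_0, C.o0, g15, g18, s1]
                                      · skip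
                                        rcases dj3 C.p11_23B with g19 | g19 | g19 | g19 | g19 | g19
                                        · skip
                                          linarith only [e0, g19]
                                        · skip
                                          linarith only [e1, g19]
                                        · skip
                                          linarith only [e2, g19]
                                        · skip
                                          linarith only [C.f11_0, C.f33_0, C.o0, g19, g3, s1]
                                        · skip
                                          linarith only [C.f11_0, C.f11_1, C.f23_5, C.o0, g16, g17, g18, g19, s2]
                                        · skip
                                          linarith only [C.f11_2, C.f23_5, g16, g18, g19, g2_0, g2_1, g5, s2]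
                                      · skip
                                        linarith only [C.f22_6, C.o2, g16, g18, g2_0, g2_1, g8]
                                    · skip
                                      linarith only [C.f11_0, C.f11_1, C.f13_4, C.f23_5, C.f33_4, C.o0, g0, g10, g13, g17, g5, g8, s2]
                                    · skip
                                      linarith only [C.f11_0, C.f23_0, C.f33_0, C.o0, g17, s1]
                                    · skip
                                      linarith only [C.f11_0, C.f22_1, C.f23_0, C.f33_0, C.o0, g15, g17, s1]
                                    · skip
                                      linarith only [g17, g2_0, g2_1]
                                · skip
                                  rcases dj0 C.f22_5 with g16 | g16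
                                  · skip
                                    linarith only [C.f11_1, C.f22_4, C.f23_1, C.f23_5, C.f33_3, g15, g16, g9, s1, s2]
                                  · skip
                                    rcases dj4 C.p22_33A with g17 | g17 | g17 | g17 | g17
                                    · skip
                                      linarith only [e0, g17, g2_0, g2_1]
                                    · skip
                                      linarith only [e3, g17]
                                    · skip
                                      linarith only [C.f11_0, C.f11_1, C.f33_3, g0, g10, g12, g15, g17, g2_0, g2_1, g4, s2]
                                    · skip
                                      rcases dj3 C.p11_23B with g18 | g18 | g18 | g18 | g18 | g18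
                                      · skip
                                        linarith only [e0, g18]
                                      · skip
                                        linarith only [e1, g18]
                                      · skip
                                        linarith only [e2, g18]
                                      · skip
                                        linarith only [C.f11_0, C.f33_0, C.o0, g18, g3, s1]
                                      · skip
                                        linarith only [C.f11_0, C.f11_1, C.o0, g0, g10, g12, g16, g17, g18, s2]
                                      · skip
                                        linarith only [C.f11_2, C.f23_5, g16, g17, g18, g2_0, g2_1, g5, s2]
                                    · skip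
                                      linarith only [C.f22_6, C.o2, g16, g17, g2_0, g2_1, g8]
                          · skip
                            linarith only [C.o2, g11, g12, g5]
                      · skip
                        rcases dj0 C.f13_8 with g11 | g11
                        · skip
                          linarith only [C.b4, C.f13_7, g10, g11, g2_0, g2_1]
                        · skip
                          rcases dj3 C.p13_23A with g12 | g12 | g12 | g12 | g12 | g12
                          · skip
                            linarith only [g1_0, g1_1, g12]
                          · skip
                            linarith only [e2, g12]
                          · skip
                            linarith only [e1, g12]
                          · skip
                            linarith only [g0, g12, g9, s1]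
                          · skip
                            rcases dj3 C.p11_23B with g13 | g13 | g13 | g13 | g13 | g13
                            · skip
                              linarith only [e0, g13]
                            · skip
                              linarith only [e1, g13]
                            · skip
                              linarith only [e2, g13]
                            · skip
                              linarith only [C.f11_0, C.f23_0, g13, g6, g9, s1]
                            · skip
                              linarith only [C.f33_4, C.o1, C.o2, g10, g12, g13, g4, s2]
                            · skip
                              linarith only [C.f11_2, C.f33_4, C.o1, C.o2, g10, g12, g13, g2_0, g2_1, g5, s2]
                          · skip
                            linarith only [C.o2, g11, g12, g5]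
                    · skip
                      linarith only [C.f23_5, g9, s2]
                    · skip
                      linarith only [C.b3, C.f11_0, C.f11_1, C.f11_2, C.f23_9, g2_0, g2_1, g8, g9, s3]
              · skip
                rcases dj3 C.p11_23B with g7 | g7 | g7 | g7 | g7 | g7
                · skip
                  linarith only [e0, g7]
                · skip
                  linarith only [e1, g7]
                · skip
                  linarith only [e2, g7]
                · skip
                  linarith only [C.f11_0, C.f33_0, C.o0, g3, g7, s1]
                · skip
                  linarith only [C.f23_1, C.f33_0, C.f33_4, C.o1, g3, g6, g7, s2]
                · skip
                  linarith only [C.f11_2, C.f23_1, C.f23_5, C.f33_0, C.f33_4, C.o1, g2_0, g2_1, g3, g5, g6, g7, s2]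
          · skip
            linarith only [C.a4, C.f23_5, C.o2, g4]
        · skip
          rcases dj2 C.f23_7 with g4 | g4 | g4
          · skip
            linarith only [C.a2, C.f23_5, g1_0, g1_1, g3, g4]
          · skip
            rcases dj0 C.f23_10 with g5 | g5
            · skip
              linarith only [C.f23_9, C.o1, g2_0, g2_1, g4, g5]
            · skip
              rcases dj0 C.f33_2 with g6 | g6
              · skip
                rcases dj0 C.f33_5 with g7 | g7
                · skip
                  rcases dj0 C.f33_8 with g8 | g8
                  · skip
                    linarith only [C.a1, C.b3, C.f11_0, C.f11_1, C.f11_2, C.f23_9, C.f33_7, C.o0, g2_0, g2_1, g6, g7, g8, s3]
                  · skip
                    rcases dj0 C.f13_5 with g9 | g9
                    · skip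
                      rcases dj0 C.f13_8 with g10 | g10
                      · skip
                        linarith only [C.b3, C.f13_7, C.o0, g0, g10, g2_0, g2_1, g9]
                      · skip
                        rcases dj4 C.p11_33A with g11 | g11 | g11 | g11 | g11
                        · skip
                          linarith only [e0, g11]
                        · skip
                          linarith only [e3, g11]
                        · skip
                          rcases dj3 C.p23_33A with g12 | g12 | g12 | g12 | g12 | g12
                          · skip
                            linarith only [e1, g12]
                          · skip
                            linarith only [e2, g12]
                          · skip
                            linarith only [e3, g12]
                          · skip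
                            linarith only [C.f23_0, g11, g12, g6, s1]
                          · skip
                            linarith only [C.f11_1, C.f23_0, g11, g12, g4, g6, g7, s1, s2]
                          · skip
                            rcases dj6 C.tzmp with g13 | g13 | g13 | g13
                            · skip
                              linarith only [g1_0, g1_1, g13]
                            · skip
                              linarith only [C.f11_1, C.f23_0, C.f23_5, C.f33_4, g11, g13, g6, g7, s1, s2]
                            · skip
                              linarith only [g13, g2_0, g2_1]
                            · skip
                              rcases dj3 C.p13_23A with g14 | g14 | g14 | g14 | g14 | g14
                              · skip
                                linarith only [g1_0, g1_1, g14]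
                              · skip
                                linarith only [e2, g14]
                              · skip
                                linarith only [e1, g14]
                              · skip
                                linarith only [g0, g11, g14, s1]
                              · skip
                                rcases dj0 C.f22_2 with g15 | g15
                                · skip
                                  rcases dj0 C.f22_5 with g16 | g16
                                  · skip
                                    linarith only [C.a1, C.f11_0, C.f11_1, C.f11_2, C.f22_4, C.o0, g12, g13, g15, g16, g5, g8, s3]
                                  · skip
                                    rcases dj4 C.p22_33A with g17 | g17 | g17 | g17 | g17
                                    · skip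
                                      linarith only [C.f11_0, C.f22_1, C.f23_0, C.f33_0, C.o0, e0, g15, g17, s1]
                                    · skip
                                      linarith only [e3, g17]
                                    · skip
                                      linarith only [C.f11_0, C.f23_0, C.o0, g15, g17, s1]
                                    · skip
                                      linarith only [C.f11_0, C.f11_1, C.f22_1, C.f23_0, C.f23_5, C.o0, g15, g16, g17, g3, g6, g7, s1, s2]
                                    · skip
                                      linarith only [C.f22_6, C.o2, g16, g17, g2_0, g2_1, g8]
                                · skip
                                  rcases dj0 C.f22_5 with g16 | g16
                                  · skip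
                                    linarith only [C.f11_1, C.f22_4, C.f23_1, C.f23_5, C.f33_3, g11, g15, g16, s1, s2]
                                  · skip
                                    rcases dj4 C.p22_33A with g17 | g17 | g17 | g17 | g17
                                    · skip
                                      linarith only [e0, g17, g2_0, g2_1]
                                    · skip
                                      linarith only [e3, g17]
                                    · skip
                                      linarith only [C.f11_0, C.f11_1, C.f33_3, g0, g14, g15, g17, g2_0, g2_1, g4, g9, s2]
                                    · skip
                                      rcases dj3 C.p11_23B with g18 | g18 | g18 | g18 | g18 | g18
                                      · skip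
                                        linarith only [e0, g18]
                                      · skip
                                        linarith only [e1, g18]
                                      · skip
                                        linarith only [e2, g18]
                                      · skip
                                        linarith only [C.f11_0, C.f11_1, C.f23_5, C.o0, g16, g17, g18, g2_0, g2_1, g3, g7, s1, s2]
                                      · skip
                                        linarith only [C.a1, C.f11_0, C.f11_1, C.f23_5, C.o0, g16, g17, g18, g6, g7, s2]
                                      · skip
                                        linarith only [C.f11_2, C.f23_5, g16, g17, g18, g2_0, g2_1, g5, s2]
                                    · skip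
                                      linarith only [C.f22_6, C.o2, g16, g17, g2_0, g2_1, g8]
                              · skip
                                linarith only [C.o2, g10, g14, g5]
                        · skip
                          linarith only [C.f23_5, g11, s2]
                        · skip
                          linarith only [C.b3, C.f11_0, C.f11_1, C.f11_2, C.f23_9, g11, g2_0, g2_1, g8, s3]
                    · skip
                      linarith only [C.f11_0, C.f13_0, C.f13_3, C.f23_0, C.f33_4, C.o0, C.o2, g6, g7, g9, s1]
                · skip
                  rcases dj0 C.f33_8 with g8 | g8
                  · skip
                    linarith only [C.b4, C.f33_7, g2_0, g2_1, g7, g8]
                  · skip
                    rcases dj4 C.p11_33A with g9 | g9 | g9 | g9 | g9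
                    · skip
                      linarith only [e0, g9]
                    · skip
                      linarith only [e3, g9]
                    · skip
                      rcases dj0 C.f13_5 with g10 | g10
                      · skip
                        rcases dj0 C.f13_8 with g11 | g11
                        · skip
                          linarith only [C.b3, C.f11_0, C.f13_7, C.f23_0, g0, g10, g11, g2_0, g2_1, g6, g9, s1]
                        · skip
                          rcases dj3 C.p13_23A with g12 | g12 | g12 | g12 | g12 | g12
                          · skip
                            linarith only [g1_0, g1_1, g12]
                          · skip
                            linarith only [e2, g12]
                          · skip
                            linarith only [e1, g12]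
                          · skip
                            linarith only [g0, g12, g9, s1]
                          · skip
                            rcases dj3 C.p23_33A with g13 | g13 | g13 | g13 | g13 | g13
                            · skip
                              linarith only [e1, g13]
                            · skip
                              linarith only [e2, g13]
                            · skip
                              linarith only [e3, g13]
                            · skip
                              linarith only [C.f23_0, g13, g6, g9, s1]
                            · skip
                              linarith only [C.f11_1, C.f23_0, g0, g10, g12, g13, g4, g6, g9, s1, s2]
                            · skip
                              rcases dj6 C.tzmp with g14 | g14 | g14 | g14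
                              · skip
                                linarith only [g1_0, g1_1, g14]
                              · skip
                                linarith only [C.f11_1, C.f23_0, C.f33_4, g0, g10, g12, g14, g6, g9, s1, s2]
                              · skip
                                linarith only [g14, g2_0, g2_1]
                              · skip
                                rcases dj0 C.f22_2 with g15 | g15
                                · skip
                                  rcases dj0 C.f22_5 with g16 | g16
                                  · skip
                                    linarith only [C.a1, C.f11_0, C.f11_1, C.f11_2, C.f22_4, C.o0, g13, g14, g15, g16, g5, g8, s3]
                                  · skip
                                    rcases dj4 C.p22_33A with g17 | g17 | g17 | g17 | g17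
                                    · skip
                                      linarith only [C.f11_0, C.f22_1, C.f23_0, C.f33_0, C.o0, e0, g15, g17, s1]
                                    · skip
                                      linarith only [e3, g17]
                                    · skip
                                      linarith only [C.f11_0, C.f23_0, C.o0, g15, g17, s1]
                                    · skip
                                      linarith only [C.f11_0, C.f11_1, C.f22_1, C.f23_0, C.o0, g0, g10, g12, g15, g16, g17, g3, s2]
                                    · skip
                                      linarith only [C.f11_0, C.f11_1, C.f11_2, C.f22_1, C.f22_6, C.f23_0, C.f23_9, C.o0, g0, g10, g12, g15, g16, g17, g2_0, g2_1, g3, g4, g8, s3]
                                · skip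
                                  rcases dj0 C.f22_5 with g16 | g16
                                  · skip
                                    linarith only [C.f11_1, C.f22_4, C.f23_1, C.f23_5, C.f33_3, g15, g16, g9, s1, s2]
                                  · skip
                                    rcases dj4 C.p22_33A with g17 | g17 | g17 | g17 | g17
                                    · skip
                                      linarith only [e0, g17, g2_0, g2_1]
                                    · skip
                                      linarith only [e3, g17]
                                    · skip
                                      linarith only [C.f11_0, C.f11_1, C.f33_3, g0, g10, g12, g15, g17, g2_0, g2_1, g4, s2]
                                    · skip
                                      rcases dj3 C.p11_23B with g18 | g18 | g18 | g18 | g18 | g18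
                                      · skip
                                        linarith only [e0, g18]
                                      · skip
                                        linarith only [e1, g18]
                                      · skip
                                        linarith only [e2, g18]
                                      · skip
                                        linarith only [C.f11_0, C.o0, g18, g9, s1]
                                      · skip
                                        linarith only [C.f11_0, C.f11_1, C.o0, g0, g10, g12, g16, g17, g18, s2]
                                      · skip
                                        linarith only [C.f11_2, C.f23_5, g16, g17, g18, g2_0, g2_1, g5, s2]
                                    · skip
                                      linarith only [C.f22_6, C.o2, g16, g17, g2_0, g2_1, g8]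
                          · skip
                            linarith only [C.o2, g11, g12, g5]
                      · skip
                        rcases dj0 C.f13_8 with g11 | g11
                        · skip
                          linarith only [C.b4, C.f13_7, g10, g11, g2_0, g2_1]
                        · skip
                          rcases dj3 C.p13_23A with g12 | g12 | g12 | g12 | g12 | g12
                          · skip
                            linarith only [g1_0, g1_1, g12]
                          · skip
                            linarith only [e2, g12]
                          · skip
                            linarith only [e1, g12]
                          · skip
                            linarith only [g0, g12, g9, s1]
                          · skip
                            rcases dj3 C.p11_23B with g13 | g13 | g13 | g13 | g13 | g13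
                            · skip
                              linarith only [e0, g13]
                            · skip
                              linarith only [e1, g13]
                            · skip
                              linarith only [e2, g13]
                            · skip
                              linarith only [C.f11_0, C.f23_0, g13, g6, g9, s1]
                            · skip
                              linarith only [C.f33_4, C.o1, C.o2, g10, g12, g13, g4, s2]
                            · skip
                              linarith only [C.f11_2, C.f33_4, C.o1, C.o2, g10, g12, g13, g2_0, g2_1, g5, s2]
                          · skip
                            linarith only [C.o2, g11, g12, g5]
                    · skip
                      linarith only [C.f23_5, g9, s2]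
                    · skip
                      linarith only [C.b3, C.f11_0, C.f11_1, C.f11_2, C.f23_9, g2_0, g2_1, g8, g9, s3]
              · skip
                rcases dj0 C.f33_5 with g7 | g7
                · skip
                  linarith only [C.a2, C.f33_4, g1_0, g1_1, g6, g7]
                · skip
                  rcases dj0 C.f33_8 with g8 | g8
                  · skip
                    linarith only [C.b4, C.f33_7, g2_0, g2_1, g7, g8]
                  · skip
                    rcases dj4 C.p11_33A with g9 | g9 | g9 | g9 | g9
                    · skip
                      linarith only [e0, g9]
                    · skip
                      linarith only [e3, g9]
                    · skip
                      rcases dj0 C.f13_5 with g10 | g10
                      · skip
                        rcases dj0 C.f13_8 with g11 | g11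
                        · skip
                          linarith only [C.a4, C.b3, C.f11_0, C.f13_7, C.f23_1, g0, g10, g11, g2_0, g2_1, g6, g9, s1]
                        · skip
                          rcases dj3 C.p13_23A with g12 | g12 | g12 | g12 | g12 | g12
                          · skip
                            linarith only [g1_0, g1_1, g12]
                          · skip
                            linarith only [e2, g12]
                          · skip
                            linarith only [e1, g12]
                          · skip
                            linarith only [g0, g12, g9, s1]
                          · skip
                            linarith only [C.f11_1, C.f23_1, C.f33_4, g0, g10, g12, g6, g9, s1, s2]
                          · skip
                            linarith only [C.o2, g11, g12, g5]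
                      · skip
                        rcases dj0 C.f13_8 with g11 | g11
                        · skip
                          linarith only [C.b4, C.f13_7, g10, g11, g2_0, g2_1]
                        · skip
                          rcases dj3 C.p13_23A with g12 | g12 | g12 | g12 | g12 | g12
                          · skip
                            linarith only [g1_0, g1_1, g12]
                          · skip
                            linarith only [e2, g12]
                          · skip
                            linarith only [e1, g12]
                          · skip
                            linarith only [g0, g12, g9, s1]
                          · skip
                            rcases dj3 C.p11_23B with g13 | g13 | g13 | g13 | g13 | g13
                            · skip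
                              linarith only [e0, g13]
                            · skip
                              linarith only [e1, g13]
                            · skip
                              linarith only [e2, g13]
                            · skip
                              linarith only [C.a4, C.f11_0, C.f23_1, g13, g6, g9, s1]
                            · skip
                              linarith only [C.f33_4, C.o1, C.o2, g10, g12, g13, g4, s2]
                            · skip
                              linarith only [C.f11_2, C.f33_4, C.o1, C.o2, g10, g12, g13, g2_0, g2_1, g5, s2]
                          · skip
                            linarith only [C.o2, g11, g12, g5]
                    · skip
                      linarith only [C.f23_5, g9, s2]
                    · skip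
                      linarith only [C.b3, C.f11_0, C.f11_1, C.f11_2, C.f23_9, g2_0, g2_1, g8, g9, s3]
          · skip
            linarith only [C.a4, C.f23_5, C.o2, g4]
        · skip
          linarith only [C.a4, C.f23_1, C.o2, g3]
    · skip
      rcases dj1 C.t23 with ⟨g2_0, g2_1⟩ | ⟨g2_0, g2_1⟩
      · skip
        rcases dj2 C.f23_3 with g3 | g3 | g3
        · skip
          rcases dj2 C.f23_7 with g4 | g4 | g4
          · skip
            linarith only [C.f11_0, C.f11_1, C.f23_5, C.f33_0, C.f33_3, C.o0, g3, g4, s1, s2]
          · skip
            rcases dj0 C.f23_10 with g5 | g5
            · skip
              rcases dj0 C.f13_5 with g10 | g10
              · skip
                rcases dj0 C.f13_8 with g11 | g11
                · skip
                  linarith only [C.b5, C.f13_7, C.o0, g0, g1_0, g1_1, g10, g11]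
                · skip
                  rcases dj3 C.p13_23A with g12 | g12 | g12 | g12 | g12 | g12
                  · skip
                    linarith only [C.o0, e0, g12]
                  · skip
                    linarith only [e2, g12]
                  · skip
                    linarith only [e1, g12]
                  · skip
                    linarith only [C.f11_0, C.f33_0, C.o0, g0, g12, g3, s1]
                  · skip
                    linarith only [C.b5, C.f23_9, C.o0, g0, g1_0, g1_1, g10, g12, g4, g5]
                  · skip
                    linarith only [C.f23_9, g11, g12, g2_0, g2_1, g4, g5]
              · skip
                rcases dj0 C.f13_8 with g11 | g11
                · skip
                  linarith only [C.a4, C.f13_7, g10, g11, g2_0, g2_1]
                · skip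
                  rcases dj3 C.p13_23A with g12 | g12 | g12 | g12 | g12 | g12
                  · skip
                    linarith only [C.o0, e0, g12]
                  · skip
                    linarith only [e2, g12]
                  · skip
                    linarith only [e1, g12]
                  · skip
                    linarith only [C.f11_0, C.f33_0, C.o0, g0, g12, g3, s1]
                  · skip
                    rcases dj3 C.p11_23B with g13 | g13 | g13 | g13 | g13 | g13
                    · skip
                      linarith only [e0, g13]
                    · skip
                      linarith only [e1, g13]
                    · skip
                      linarith only [e2, g13]
                    · skip
                      linarith only [C.f11_0, C.f33_0, C.o0, g13, g3, s1]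
                    · skip
                      linarith only [C.f33_4, C.o1, C.o2, g10, g12, g13, g4, s2]
                    · skip
                      linarith only [C.a4, C.f11_2, C.f33_4, g10, g12, g13, g2_0, g2_1, g4, g5, s2]
                  · skip
                    linarith only [C.o2, g11, g12, g2_0, g2_1, g4, g5]
            · skip
              rcases dj0 C.f33_2 with g6 | g6
              · skip
                rcases dj0 C.f33_5 with g7 | g7
                · skip
                  rcases dj0 C.f33_8 with g8 | g8
                  · skip
                    linarith only [C.f11_0, C.f11_1, C.f23_0, C.f23_5, C.f33_7, C.o0, g2_0, g2_1, g6, g7, g8, s1, s2]
                  · skip
                    rcases dj0 C.f13_5 with g9 | g9
                    · skip
                      rcases dj0 C.f13_8 with g10 | g10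
                      · skip
                        linarith only [C.b5, C.f13_7, C.o0, g0, g1_0, g1_1, g10, g9]
                      · skip
                        rcases dj4 C.p11_33A with g11 | g11 | g11 | g11 | g11
                        · skip
                          linarith only [e0, g11]
                        · skip
                          linarith only [e3, g11]
                        · skip
                          rcases dj3 C.p23_33A with g12 | g12 | g12 | g12 | g12 | g12
                          · skip
                            linarith only [e1, g12]
                          · skip
                            linarith only [e2, g12]
                          · skip
                            linarith only [e3, g12]
                          · skip
                            linarith only [C.f23_0, g11, g12, g6, s1]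
                          · skip
                            linarith only [C.f11_1, C.f23_0, g11, g12, g4, g6, g7, s1, s2]
                          · skip
                            rcases dj3 C.p13_23A with g13 | g13 | g13 | g13 | g13 | g13
                            · skip
                              linarith only [C.f11_0, C.f23_0, e0, g11, g13, g6, s1]
                            · skip
                              linarith only [e2, g13]
                            · skip
                              linarith only [e1, g13]
                            · skip
                              linarith only [g0, g11, g13, s1]
                            · skip
                              rcases dj3 C.p11_23B with g14 | g14 | g14 | g14 | g14 | g14
                              · skip
                                linarith only [e0, g14]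
                              · skip
                                linarith only [e1, g14]
                              · skip
                                linarith only [e2, g14]
                              · skip
                                linarith only [C.f11_0, C.f23_0, g11, g14, g6, s1]
                              · skip
                                linarith only [C.f11_0, C.f11_1, C.f23_0, g0, g1_0, g1_1, g11, g13, g14, g4, g6, g9, s1]
                              · skip
                                rcases dj5 nF1 with g15 | g15 | g15 | g15 | g15 | g15 | g15 | g15 | g15 | g15 | g15 | g15 | g15 | g15
                                · skip
                                  linarith only [C.f11_1, C.f11_2, C.f23_0, C.f23_5, C.f33_0, C.f33_3, g12, g14, g15, g2_0, g2_1, g5, g8, s1, s2]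
                                · skip
                                  linarith only [C.f11_0, e0, g11, g15, g6]
                                · skip
                                  linarith only [C.f11_0, C.f11_1, C.f23_1, C.f23_5, C.f33_0, C.f33_3, C.o0, g15, g3, s1, s2]
                                · skip
                                  linarith only [C.f11_1, C.f11_2, C.f33_4, g11, g12, g15, g6, g7, s3]
                                · skip
                                  linarith only [C.f11_1, C.f23_5, C.f33_3, g11, g15, s2]
                                · skip
                                  linarith only [g0, g13, g15, g4, g9]
                                · skip
                                  linarith only [C.f11_1, C.f11_2, g0, g11, g12, g13, g15, g4, g6, g9, s3]
                                · skip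
                                  linarith only [C.f11_2, C.f33_0, C.f33_3, g0, g12, g13, g14, g15, g5, g8, g9, s2]
                                · skip
                                  linarith only [C.f11_0, g11, g15, g6]
                                · skip
                                  linarith only [C.f11_0, C.f11_1, C.f33_0, C.f33_3, g0, g13, g15, g4, g9, s2]
                                · skip
                                  linarith only [g1_0, g1_1, g15]
                                · skip
                                  linarith only [C.b5, C.f11_0, C.f11_1, C.f11_2, g14, g15, g5]
                                · skip
                                  linarith only [C.b5, g15]
                                · skip
                                  linarith only [C.f11_0, C.f11_1, C.f11_2, g1_0, g1_1, g14, g15, g5]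
                            · skip
                              linarith only [C.o2, g10, g13, g5]
                        · skip
                          linarith only [C.f23_5, g11, s2]
                        · skip
                          linarith only [C.b5, C.f11_0, C.f11_1, C.f11_2, C.f23_9, g1_0, g1_1, g11, g8, s3]
                    · skip
                      linarith only [C.f11_0, C.f13_0, C.f13_3, C.f23_0, C.f33_4, C.o0, C.o2, g6, g7, g9, s1]
                · skip
                  rcases dj0 C.f33_8 with g8 | g8
                  · skip
                    linarith only [C.a4, C.f33_7, g2_0, g2_1, g7, g8]
                  · skip
                    rcases dj4 C.p11_33A with g9 | g9 | g9 | g9 | g9
                    · skip
                      linarith only [e0, g9]
                    · skip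
                      linarith only [e3, g9]
                    · skip
                      rcases dj0 C.f13_5 with g10 | g10
                      · skip
                        rcases dj0 C.f13_8 with g11 | g11
                        · skip
                          linarith only [C.b5, C.f11_0, C.f13_7, C.f23_0, g0, g1_0, g1_1, g10, g11, g6, g9, s1]
                        · skip
                          rcases dj3 C.p13_23A with g12 | g12 | g12 | g12 | g12 | g12
                          · skip
                            linarith only [C.f11_0, C.f23_0, e0, g12, g6, g9, s1]
                          · skip
                            linarith only [e2, g12]
                          · skip
                            linarith only [e1, g12]
                          · skip
                            linarith only [g0, g12, g9, s1]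
                          · skip
                            rcases dj3 C.p11_23B with g13 | g13 | g13 | g13 | g13 | g13
                            · skip
                              linarith only [e0, g13]
                            · skip
                              linarith only [e1, g13]
                            · skip
                              linarith only [e2, g13]
                            · skip
                              linarith only [C.f11_0, C.f23_0, g13, g6, g9, s1]
                            · skip
                              linarith only [C.f11_0, C.f11_1, C.f23_0, g0, g1_0, g1_1, g10, g12, g13, g4, g6, g9, s1]
                            · skip
                              rcases dj3 C.p23_33A with g14 | g14 | g14 | g14 | g14 | g14
                              · skip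
                                linarith only [e1, g14]
                              · skip
                                linarith only [e2, g14]
                              · skip
                                linarith only [e3, g14]
                              · skip
                                linarith only [C.f11_0, C.o0, g14, s1]
                              · skip
                                linarith only [C.b5, C.f11_2, C.o1, g13, g14, g5, s2]
                              · skip
                                rcases dj5 nF1 with g15 | g15 | g15 | g15 | g15 | g15 | g15 | g15 | g15 | g15 | g15 | g15 | g15 | g15
                                · skip
                                  linarith only [C.f11_1, C.f11_2, C.f23_0, C.f23_5, C.f33_0, C.f33_3, g13, g14, g15, g2_0, g2_1, g5, g8, s1, s2]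
                                · skip
                                  linarith only [C.f11_0, e0, g15, g6, g9]
                                · skip
                                  linarith only [C.f11_0, C.f11_1, C.f23_1, C.f23_5, C.f33_0, C.f33_3, C.o0, g15, g3, s1, s2]
                                · skip
                                  linarith only [C.f11_1, C.f11_2, C.f33_4, g0, g10, g12, g14, g15, g4, g6, g9, s2, s3]
                                · skip
                                  linarith only [C.f11_1, C.f23_5, C.f33_3, g15, g9, s2]
                                · skip
                                  linarith only [g0, g10, g12, g15, g4]
                                · skip
                                  linarith only [C.f11_1, C.f11_2, g0, g10, g12, g14, g15, g4, g6, g9, s3]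
                                · skip
                                  linarith only [C.f11_2, C.f33_0, C.f33_3, g0, g10, g12, g13, g14, g15, g5, g8, s2]
                                · skip
                                  linarith only [C.f11_0, g15, g6, g9]
                                · skip
                                  linarith only [C.f11_0, C.f11_1, C.f33_0, C.f33_3, g0, g10, g12, g15, g4, s2]
                                · skip
                                  linarith only [g1_0, g1_1, g15]
                                · skip
                                  linarith only [C.b5, C.f11_0, C.f11_1, C.f11_2, g13, g15, g5]
                                · skip
                                  linarith only [C.b5, g15]
                                · skip
                                  linarith only [C.f11_0, C.f11_1, C.f11_2, g1_0, g1_1, g13, g15, g5]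
                          · skip
                            linarith only [C.o2, g11, g12, g5]
                      · skip
                        rcases dj0 C.f13_8 with g11 | g11
                        · skip
                          linarith only [C.a4, C.f13_7, g10, g11, g2_0, g2_1]
                        · skip
                          rcases dj3 C.p13_23A with g12 | g12 | g12 | g12 | g12 | g12
                          · skip
                            linarith only [C.f11_0, C.f23_0, e0, g12, g6, g9, s1]
                          · skip
                            linarith only [e2, g12]
                          · skip
                            linarith only [e1, g12]
                          · skip
                            linarith only [g0, g12, g9, s1]
                          · skip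
                            rcases dj3 C.p11_23B with g13 | g13 | g13 | g13 | g13 | g13
                            · skip
                              linarith only [e0, g13]
                            · skip
                              linarith only [e1, g13]
                            · skip
                              linarith only [e2, g13]
                            · skip
                              linarith only [C.f11_0, C.f23_0, g13, g6, g9, s1]
                            · skip
                              linarith only [C.f33_4, C.o1, C.o2, g10, g12, g13, g4, s2]
                            · skip
                              linarith only [C.f11_2, C.f33_4, g10, g12, g13, g2_0, g2_1, g5, s2]
                          · skip
                            linarith only [C.o2, g11, g12, g5]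
                    · skip
                      linarith only [C.f23_5, g9, s2]
                    · skip
                      linarith only [C.b5, C.f11_0, C.f11_1, C.f11_2, C.f23_9, g1_0, g1_1, g8, g9, s3]
              · skip
                rcases dj3 C.p11_23B with g7 | g7 | g7 | g7 | g7 | g7
                · skip
                  linarith only [e0, g7]
                · skip
                  linarith only [e1, g7]
                · skip
                  linarith only [e2, g7]
                · skip
                  linarith only [C.f11_0, C.f33_0, C.o0, g3, g7, s1]
                · skip
                  linarith only [C.f23_1, C.f33_0, C.f33_4, C.o1, g3, g6, g7, s2]
                · skip
                  linarith only [C.b5, C.f11_2, C.f23_1, C.f23_5, C.f33_0, C.f33_4, C.o1, g3, g5, g6, g7, s2]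
          · skip
            linarith only [C.a4, C.f23_5, C.o2, g4]
        · skip
          rcases dj2 C.f23_7 with g4 | g4 | g4
          · skip
            linarith only [C.b2, C.f23_5, g1_0, g1_1, g3, g4]
          · skip
            rcases dj0 C.f23_10 with g5 | g5
            · skip
              rcases dj0 C.f33_2 with g6 | g6
              · skip
                rcases dj0 C.f33_5 with g7 | g7
                · skip
                  rcases dj0 C.f33_8 with g8 | g8
                  · skip
                    linarith only [C.a1, C.f11_0, C.f11_1, C.f11_2, C.f23_5, C.f23_8, C.f33_7, C.o0, g6, g7, g8, s2, s3]
                  · skip
                    rcases dj0 C.f13_5 with g9 | g9
                    · skip
                      rcases dj0 C.f13_8 with g10 | g10
                      · skip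
                        linarith only [C.b5, C.f13_7, C.o0, g0, g1_0, g1_1, g10, g9]
                      · skip
                        rcases dj4 C.p11_33A with g11 | g11 | g11 | g11 | g11
                        · skip
                          linarith only [e0, g11]
                        · skip
                          linarith only [e3, g11]
                        · skip
                          rcases dj3 C.p13_23A with g12 | g12 | g12 | g12 | g12 | g12
                          · skip
                            linarith only [C.o0, e0, g12]
                          · skip
                            linarith only [e2, g12]
                          · skip
                            linarith only [e1, g12]
                          · skip
                            linarith only [g0, g11, g12, s1]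
                          · skip
                            linarith only [C.b5, C.f23_9, C.o0, g0, g1_0, g1_1, g12, g4, g5, g9]
                          · skip
                            linarith only [C.f23_9, g10, g12, g2_0, g2_1, g4, g5]
                        · skip
                          linarith only [C.f23_5, g11, s2]
                        · skip
                          linarith only [C.b5, C.f11_0, C.f11_1, C.f11_2, C.f23_9, g1_0, g1_1, g11, g8, s3]
                    · skip
                      linarith only [C.a1, C.f13_0, C.f13_3, C.f23_9, C.f33_4, g2_0, g2_1, g4, g5, g6, g7, g9]
                · skip
                  rcases dj0 C.f33_8 with g8 | g8
                  · skip
                    linarith only [C.a4, C.f33_7, g2_0, g2_1, g7, g8]
                  · skip
                    rcases dj4 C.p11_33A with g9 | g9 | g9 | g9 | g9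
                    · skip
                      linarith only [e0, g9]
                    · skip
                      linarith only [e3, g9]
                    · skip
                      rcases dj0 C.f13_5 with g10 | g10
                      · skip
                        rcases dj0 C.f13_8 with g11 | g11
                        · skip
                          linarith only [C.b5, C.f13_7, C.o0, g0, g1_0, g1_1, g10, g11]
                        · skip
                          rcases dj3 C.p13_23A with g12 | g12 | g12 | g12 | g12 | g12
                          · skip
                            linarith only [C.o0, e0, g12]
                          · skip
                            linarith only [e2, g12]
                          · skip
                            linarith only [e1, g12]
                          · skip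
                            linarith only [g0, g12, g9, s1]
                          · skip
                            linarith only [C.b5, C.f23_9, C.o0, g0, g1_0, g1_1, g10, g12, g4, g5]
                          · skip
                            linarith only [C.f23_9, g11, g12, g2_0, g2_1, g4, g5]
                      · skip
                        rcases dj0 C.f13_8 with g11 | g11
                        · skip
                          linarith only [C.a4, C.f13_7, g10, g11, g2_0, g2_1]
                        · skip
                          rcases dj3 C.p13_23A with g12 | g12 | g12 | g12 | g12 | g12
                          · skip
                            linarith only [C.o0, e0, g12]
                          · skip
                            linarith only [e2, g12]
                          · skip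
                            linarith only [e1, g12]
                          · skip
                            linarith only [g0, g12, g9, s1]
                          · skip
                            rcases dj3 C.p11_23B with g13 | g13 | g13 | g13 | g13 | g13
                            · skip
                              linarith only [e0, g13]
                            · skip
                              linarith only [e1, g13]
                            · skip
                              linarith only [e2, g13]
                            · skip
                              linarith only [C.f11_0, C.o0, g13, g9, s1]
                            · skip
                              linarith only [C.f33_4, C.o1, C.o2, g10, g12, g13, g4, s2]
                            · skip
                              linarith only [C.a4, C.f11_2, C.f33_4, g10, g12, g13, g2_0, g2_1, g4, g5, s2]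
                          · skip
                            linarith only [C.o2, g11, g12, g2_0, g2_1, g4, g5]
                    · skip
                      linarith only [C.f23_5, g9, s2]
                    · skip
                      linarith only [C.b5, C.f11_0, C.f11_1, C.f11_2, C.o2, g1_0, g1_1, g8, g9]
              · skip
                rcases dj0 C.f33_5 with g7 | g7
                · skip
                  linarith only [C.b5, C.f23_9, C.f33_4, C.o0, g1_0, g1_1, g2_0, g2_1, g4, g5, g6, g7]
                · skip
                  rcases dj0 C.f33_8 with g8 | g8
                  · skip
                    linarith only [C.a4, C.f33_7, g2_0, g2_1, g7, g8]
                  · skip
                    rcases dj4 C.p11_33A with g9 | g9 | g9 | g9 | g9
                    · skip
                      linarith only [e0, g9]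
                    · skip
                      linarith only [e3, g9]
                    · skip
                      rcases dj0 C.f13_5 with g10 | g10
                      · skip
                        rcases dj0 C.f13_8 with g11 | g11
                        · skip
                          linarith only [C.a4, C.b5, C.f11_0, C.f13_7, C.f23_1, g0, g1_0, g1_1, g10, g11, g6, g9, s1]
                        · skip
                          rcases dj3 C.p13_23A with g12 | g12 | g12 | g12 | g12 | g12
                          · skip
                            linarith only [C.f11_0, e0, e3, g12, g6, g9]
                          · skip
                            linarith only [e2, g12]
                          · skip
                            linarith only [e1, g12]
                          · skip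
                            linarith only [g0, g12, g9, s1]
                          · skip
                            linarith only [C.f11_1, C.f23_1, C.f33_4, g0, g10, g12, g6, g9, s1, s2]
                          · skip
                            linarith only [C.f11_1, C.f11_2, C.f13_4, C.f23_1, C.f23_9, C.f33_7, g0, g10, g11, g12, g4, g5, g6, g9, s1, s3]
                      · skip
                        rcases dj0 C.f13_8 with g11 | g11
                        · skip
                          linarith only [C.a4, C.f13_7, g10, g11, g2_0, g2_1]
                        · skip
                          rcases dj3 C.p13_23A with g12 | g12 | g12 | g12 | g12 | g12
                          · skip
                            linarith only [C.a4, C.f11_0, C.f23_1, e0, g12, g6, g9, s1]
                          · skip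
                            linarith only [e2, g12]
                          · skip
                            linarith only [e1, g12]
                          · skip
                            linarith only [g0, g12, g9, s1]
                          · skip
                            rcases dj3 C.p11_23B with g13 | g13 | g13 | g13 | g13 | g13
                            · skip
                              linarith only [e0, g13]
                            · skip
                              linarith only [e1, g13]
                            · skip
                              linarith only [e2, g13]
                            · skip
                              linarith only [C.a4, C.f11_0, C.f23_1, g13, g6, g9, s1]
                            · skip
                              linarith only [C.f33_4, C.o1, C.o2, g10, g12, g13, g4, s2]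
                            · skip
                              linarith only [C.a4, C.f11_2, C.f33_4, g10, g12, g13, g2_0, g2_1, g4, g5, s2]
                          · skip
                            linarith only [C.o2, g11, g12, g2_0, g2_1, g4, g5]
                    · skip
                      linarith only [C.f23_5, g9, s2]
                    · skip
                      linarith only [C.b5, C.f11_0, C.f11_1, C.f11_2, C.o2, g1_0, g1_1, g8, g9]
            · skip
              rcases dj0 C.f33_2 with g6 | g6
              · skip
                rcases dj0 C.f33_5 with g7 | g7
                · skip
                  rcases dj0 C.f33_8 with g8 | g8
                  · skip
                    linarith only [C.f11_0, C.f11_1, C.f23_0, C.f23_5, C.f33_7, C.o0, g2_0, g2_1, g6, g7, g8, s1, s2]
                  · skip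
                    rcases dj0 C.f13_5 with g9 | g9
                    · skip
                      rcases dj0 C.f13_8 with g10 | g10
                      · skip
                        linarith only [C.b5, C.f13_7, C.o0, g0, g1_0, g1_1, g10, g9]
                      · skip
                        rcases dj4 C.p11_33A with g11 | g11 | g11 | g11 | g11
                        · skip
                          linarith only [e0, g11]
                        · skip
                          linarith only [e3, g11]
                        · skip
                          rcases dj3 C.p23_33A with g12 | g12 | g12 | g12 | g12 | g12
                          · skip
                            linarith only [e1, g12]
                          · skip
                            linarith only [e2, g12]
                          · skip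
                            linarith only [e3, g12]
                          · skip
                            linarith only [C.f23_0, g11, g12, g6, s1]
                          · skip
                            linarith only [C.f11_1, C.f23_0, g11, g12, g4, g6, g7, s1, s2]
                          · skip
                            rcases dj3 C.p13_23A with g13 | g13 | g13 | g13 | g13 | g13
                            · skip
                              linarith only [C.f11_0, C.f23_0, e0, e1, g11, g13, g3, g6]
                            · skip
                              linarith only [e2, g13]
                            · skip
                              linarith only [e1, g13]
                            · skip
                              linarith only [g0, g11, g13, s1]
                            · skip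
                              rcases dj3 C.p11_23B with g16 | g16 | g16 | g16 | g16 | g16
                              · skip
                                linarith only [e0, g16]
                              · skip
                                linarith only [e1, g16]
                              · skip
                                linarith only [e2, g16]
                              · skip
                                linarith only [C.f11_0, C.o0, g16, g2_0, g2_1, g3]
                              · skip
                                linarith only [C.f11_0, C.f11_1, C.o0, g0, g1_0, g1_1, g13, g16, g4, g9]
                              · skip
                                rcases dj5 nF1 with g17 | g17 | g17 | g17 | g17 | g17 | g17 | g17 | g17 | g17 | g17 | g17 | g17 | g17
                                · skip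
                                  linarith only [C.f11_0, C.f11_1, C.f33_0, C.f33_3, C.o0, g0, g13, g17, g4, g9, s2]
                                · skip
                                  linarith only [C.f11_0, e0, g11, g17, g6]
                                · skip
                                  linarith only [C.f11_1, C.f23_1, C.f23_5, C.f33_3, g11, g17, s1, s2]
                                · skip
                                  linarith only [C.b5, C.f11_0, C.f11_1, C.f11_2, C.f23_9, C.f33_4, C.f33_7, g1_0, g1_1, g11, g17, g6, g7, s3]
                                · skip
                                  linarith only [C.f11_1, C.f23_5, C.f33_3, g11, g17, s2]
                                · skip
                                  linarith only [g0, g13, g17, g4, g9]
                                · skip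
                                  linarith only [C.b5, C.f11_0, C.f11_1, C.f11_2, C.f23_9, C.f33_7, g0, g1_0, g1_1, g11, g13, g17, g4, g6, g9, s3]
                                · skip
                                  linarith only [C.f11_2, C.f33_0, C.f33_3, g0, g12, g13, g16, g17, g5, g8, g9, s2]
                                · skip
                                  linarith only [C.f11_0, g11, g17, g6]
                                · skip
                                  linarith only [C.f11_0, C.f11_1, C.f33_0, C.f33_3, g0, g13, g17, g4, g9, s2]
                                · skip
                                  linarith only [g1_0, g1_1, g17]
                                · skip
                                  linarith only [C.b5, C.f11_0, C.f11_1, C.f11_2, g16, g17, g5]
                                · skip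
                                  linarith only [C.b5, g17]
                                · skip
                                  linarith only [C.f11_0, C.f11_1, C.f11_2, g1_0, g1_1, g16, g17, g5]
                            · skip
                              linarith only [C.o2, g10, g13, g5]
                        · skip
                          linarith only [C.f23_5, g11, s2]
                        · skip
                          linarith only [C.b5, C.f11_0, C.f11_1, C.f11_2, C.f23_9, g1_0, g1_1, g11, g8, s3]
                    · skip
                      linarith only [C.f11_0, C.f13_0, C.f13_3, C.f23_0, C.f33_4, C.o0, C.o2, g6, g7, g9, s1]
                · skip
                  rcases dj0 C.f33_8 with g8 | g8
                  · skip
                    linarith only [C.a4, C.f33_7, g2_0, g2_1, g7, g8]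
                  · skip
                    rcases dj4 C.p11_33A with g9 | g9 | g9 | g9 | g9
                    · skip
                      linarith only [e0, g9]
                    · skip
                      linarith only [e3, g9]
                    · skip
                      rcases dj0 C.f13_5 with g10 | g10
                      · skip
                        rcases dj0 C.f13_8 with g11 | g11
                        · skip
                          linarith only [C.b5, C.f11_0, C.f13_7, C.f23_0, g0, g1_0, g1_1, g10, g11, g6, g9, s1]
                        · skip
                          rcases dj3 C.p13_23A with g12 | g12 | g12 | g12 | g12 | g12
                          · skip
                            linarith only [C.f11_0, C.f23_0, e0, e1, g12, g3, g6, g9]
                          · skip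
                            linarith only [e2, g12]
                          · skip
                            linarith only [e1, g12]
                          · skip
                            linarith only [g0, g12, g9, s1]
                          · skip
                            rcases dj3 C.p11_23B with g15 | g15 | g15 | g15 | g15 | g15
                            · skip
                              linarith only [e0, g15]
                            · skip
                              linarith only [e1, g15]
                            · skip
                              linarith only [e2, g15]
                            · skip
                              linarith only [C.f11_0, C.f23_0, g15, g6, g9, s1]
                            · skip
                              linarith only [C.f11_0, C.f11_1, C.f23_0, g0, g1_0, g1_1, g10, g12, g15, g4, g6, g9, s1]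
                            · skip
                              rcases dj3 C.p23_33A with g16 | g16 | g16 | g16 | g16 | g16
                              · skip
                                linarith only [e1, g16]
                              · skip
                                linarith only [e2, g16]
                              · skip
                                linarith only [e3, g16]
                              · skip
                                linarith only [C.f11_0, C.o0, g16, s1]
                              · skip
                                linarith only [C.b5, C.f11_2, C.o1, g15, g16, g5, s2]
                              · skip
                                rcases dj5 nF1 with g17 | g17 | g17 | g17 | g17 | g17 | g17 | g17 | g17 | g17 | g17 | g17 | g17 | g17
                                · skip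
                                  linarith only [C.f11_1, C.f11_2, C.f23_0, C.f23_5, C.f33_0, C.f33_3, g15, g16, g17, g2_0, g2_1, g5, g8, s1, s2]
                                · skip
                                  linarith only [C.f11_0, e0, g17, g6, g9]
                                · skip
                                  linarith only [C.f11_1, C.f23_1, C.f23_5, C.f33_3, g17, g9, s1, s2]
                                · skip
                                  linarith only [C.f11_1, C.f11_2, C.f33_4, g0, g10, g12, g16, g17, g4, g6, g9, s2, s3]
                                · skip
                                  linarith only [C.f11_1, C.f23_5, C.f33_3, g17, g9, s2]
                                · skip
                                  linarith only [g0, g10, g12, g17, g4]
                                · skip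
                                  linarith only [C.f11_1, C.f11_2, g0, g10, g12, g16, g17, g4, g6, g9, s3]
                                · skip
                                  linarith only [C.f11_2, C.f33_0, C.f33_3, g0, g10, g12, g15, g16, g17, g5, g8, s2]
                                · skip
                                  linarith only [C.f11_0, g17, g6, g9]
                                · skip
                                  linarith only [C.f11_0, C.f11_1, C.f33_0, C.f33_3, g0, g10, g12, g17, g4, s2]
                                · skip
                                  linarith only [g1_0, g1_1, g17]
                                · skip
                                  linarith only [C.b5, C.f11_0, C.f11_1, C.f11_2, g15, g17, g5]
                                · skip
                                  linarith only [C.b5, g17]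
                                · skip
                                  linarith only [C.f11_0, C.f11_1, C.f11_2, g1_0, g1_1, g15, g17, g5]
                          · skip
                            linarith only [C.o2, g11, g12, g5]
                      · skip
                        rcases dj0 C.f13_8 with g11 | g11
                        · skip
                          linarith only [C.a4, C.f13_7, g10, g11, g2_0, g2_1]
                        · skip
                          rcases dj3 C.p13_23A with g12 | g12 | g12 | g12 | g12 | g12
                          · skip
                            linarith only [C.f11_0, C.f23_0, e0, g12, g6, g9, s1]
                          · skip
                            linarith only [e2, g12]
                          · skip
                            linarith only [e1, g12]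
                          · skip
                            linarith only [g0, g12, g9, s1]
                          · skip
                            rcases dj3 C.p11_23B with g13 | g13 | g13 | g13 | g13 | g13
                            · skip
                              linarith only [e0, g13]
                            · skip
                              linarith only [e1, g13]
                            · skip
                              linarith only [e2, g13]
                            · skip
                              linarith only [C.f11_0, C.f23_0, g13, g6, g9, s1]
                            · skip
                              linarith only [C.f33_4, C.o1, C.o2, g10, g12, g13, g4, s2]
                            · skip
                              linarith only [C.f11_2, C.f33_4, g10, g12, g13, g2_0, g2_1, g5, s2]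
                          · skip
                            linarith only [C.o2, g11, g12, g5]
                    · skip
                      linarith only [C.f23_5, g9, s2]
                    · skip
                      linarith only [C.b5, C.f11_0, C.f11_1, C.f11_2, C.f23_9, g1_0, g1_1, g8, g9, s3]
              · skip
                rcases dj0 C.f33_5 with g7 | g7
                · skip
                  linarith only [C.b2, C.f33_4, g1_0, g1_1, g6, g7]
                · skip
                  rcases dj0 C.f33_8 with g8 | g8
                  · skip
                    linarith only [C.a4, C.f33_7, g2_0, g2_1, g7, g8]
                  · skip
                    rcases dj4 C.p11_33A with g9 | g9 | g9 | g9 | g9
                    · skip
                      linarith only [e0, g9]
                    · skip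
                      linarith only [e3, g9]
                    · skip
                      rcases dj0 C.f13_5 with g10 | g10
                      · skip
                        rcases dj0 C.f13_8 with g11 | g11
                        · skip
                          linarith only [C.a4, C.b5, C.f11_0, C.f13_7, C.f23_1, g0, g1_0, g1_1, g10, g11, g6, g9, s1]
                        · skip
                          rcases dj3 C.p13_23A with g12 | g12 | g12 | g12 | g12 | g12
                          · skip
                            linarith only [C.f11_0, e0, e3, g12, g6, g9]
                          · skip
                            linarith only [e2, g12]
                          · skip
                            linarith only [e1, g12]
                          · skip
                            linarith only [g0, g12, g9, s1]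
                          · skip
                            linarith only [C.f11_1, C.f23_1, C.f33_4, g0, g10, g12, g6, g9, s1, s2]
                          · skip
                            linarith only [C.o2, g11, g12, g5]
                      · skip
                        rcases dj0 C.f13_8 with g11 | g11
                        · skip
                          linarith only [C.a4, C.f13_7, g10, g11, g2_0, g2_1]
                        · skip
                          rcases dj3 C.p13_23A with g12 | g12 | g12 | g12 | g12 | g12
                          · skip
                            linarith only [C.f11_0, e0, e3, g12, g6, g9]
                          · skip
                            linarith only [e2, g12]
                          · skip
                            linarith only [e1, g12]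
                          · skip
                            linarith only [g0, g12, g9, s1]
                          · skip
                            rcases dj3 C.p11_23B with g13 | g13 | g13 | g13 | g13 | g13
                            · skip
                              linarith only [e0, g13]
                            · skip
                              linarith only [e1, g13]
                            · skip
                              linarith only [e2, g13]
                            · skip
                              linarith only [C.a4, C.f11_0, C.f23_1, g13, g6, g9, s1]
                            · skip
                              linarith only [C.f33_4, C.o1, C.o2, g10, g12, g13, g4, s2]
                            · skip
                              linarith only [C.f11_2, C.f33_4, g10, g12, g13, g2_0, g2_1, g5, s2]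
                          · skip
                            linarith only [C.o2, g11, g12, g5]
                    · skip
                      linarith only [C.f23_5, g9, s2]
                    · skip
                      linarith only [C.b5, C.f11_0, C.f11_1, C.f11_2, C.f23_9, g1_0, g1_1, g8, g9, s3]
          · skip
            linarith only [C.a4, C.f23_5, C.o2, g4]
        · skip
          linarith only [C.a4, C.f23_1, C.o2, g3]
      · skip
        rcases dj2 C.f23_3 with g3 | g3 | g3
        · skip
          rcases dj2 C.f23_7 with g4 | g4 | g4
          · skip
            linarith only [C.a1, C.a3, C.f23_5, g3, g4]
          · skip
            rcases dj0 C.f23_10 with g5 | g5
            · skip
              linarith only [C.f23_9, C.o1, g2_0, g2_1, g4, g5]
            · skip
              rcases dj3 C.p11_23B with g6 | g6 | g6 | g6 | g6 | g6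
              · skip
                linarith only [e0, g6]
              · skip
                linarith only [e1, g6]
              · skip
                linarith only [e2, g6]
              · skip
                linarith only [C.f11_0, C.f33_0, C.o0, g3, g6, s1]
              · skip
                rcases dj7 C.tpmz with g7 | g7 | g7 | g7 | g7 | g7
                · skip
                  linarith only [C.o0, e0, g7]
                · skip
                  linarith only [C.f11_0, C.f11_1, C.o0, g1_0, g1_1, g4, g6, g7]
                · skip
                  linarith only [C.f33_4, C.o1, g6, g7, s2]
                · skip
                  linarith only [C.a1, C.o0, g7]
                · skip
                  linarith only [C.a1, C.f11_0, C.f11_1, C.f23_1, C.o0, g1_0, g1_1, g3, g4, g6, g7]
                · skip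
                  linarith only [g2_0, g2_1, g7]
              · skip
                linarith only [C.f11_0, C.f11_1, C.f11_2, g1_0, g1_1, g2_0, g2_1, g5, g6]
          · skip
            linarith only [C.a4, C.f23_5, C.o2, g4]
        · skip
          rcases dj2 C.f23_7 with g4 | g4 | g4
          · skip
            linarith only [C.f23_5, g1_0, g1_1, g2_0, g2_1, g3, g4]
          · skip
            rcases dj0 C.f23_10 with g5 | g5
            · skip
              linarith only [C.f23_9, C.o1, g2_0, g2_1, g4, g5]
            · skip
              rcases dj0 C.f33_2 with g6 | g6
              · skip
                rcases dj0 C.f33_5 with g7 | g7
                · skip
                  rcases dj0 C.f33_8 with g8 | g8
                  · skip
                    linarith only [C.a5, C.f11_0, C.f11_1, C.f23_0, C.f23_5, C.f33_7, C.o0, g6, g7, g8, s1, s2]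
                  · skip
                    rcases dj4 C.p11_33A with g11 | g11 | g11 | g11 | g11
                    · skip
                      linarith only [e0, g11]
                    · skip
                      linarith only [e3, g11]
                    · skip
                      rcases dj3 C.p11_23B with g12 | g12 | g12 | g12 | g12 | g12
                      · skip
                        linarith only [e0, g12]
                      · skip
                        linarith only [e1, g12]
                      · skip
                        linarith only [e2, g12]
                      · skip
                        linarith only [C.f11_0, C.f23_0, g11, g12, g6, s1]
                      · skip
                        rcases dj7 C.tpmz with g13 | g13 | g13 | g13 | g13 | g13
                        · skip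
                          linarith only [C.f11_0, C.f23_0, e0, g11, g13, g6, s1]
                        · skip
                          linarith only [C.f11_0, C.f11_1, C.f23_0, g1_0, g1_1, g11, g12, g13, g4, g6, s1]
                        · skip
                          linarith only [C.f11_0, C.f11_1, C.f23_0, C.f33_4, g1_0, g1_1, g11, g12, g13, g4, g6, g7, s1]
                        · skip
                          linarith only [C.f11_0, C.f23_0, g11, g13, g6, s1]
                        · skip
                          linarith only [C.f11_0, C.f11_1, C.f23_0, C.f23_1, g1_0, g1_1, g11, g12, g13, g4, g6, s1]
                        · skip
                          linarith only [g13, g2_0, g2_1]
                      · skip
                        linarith only [C.f11_0, C.f11_1, C.f11_2, g1_0, g1_1, g12, g2_0, g2_1, g5]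
                    · skip
                      linarith only [C.f23_5, g11, s2]
                    · skip
                      linarith only [C.f11_0, C.f11_1, C.f11_2, C.f23_9, g1_0, g1_1, g11, g2_0, g2_1, g8, s3]
                · skip
                  rcases dj0 C.f33_8 with g8 | g8
                  · skip
                    linarith only [C.b4, C.f33_7, g2_0, g2_1, g7, g8]
                  · skip
                    rcases dj4 C.p11_33A with g9 | g9 | g9 | g9 | g9
                    · skip
                      linarith only [e0, g9]
                    · skip
                      linarith only [e3, g9]
                    · skip
                      rcases dj3 C.p11_23B with g10 | g10 | g10 | g10 | g10 | g10
                      · skip
                        linarith only [e0, g10]
                      · skip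
                        linarith only [e1, g10]
                      · skip
                        linarith only [e2, g10]
                      · skip
                        linarith only [C.f11_0, C.f23_0, g10, g6, g9, s1]
                      · skip
                        rcases dj7 C.tpmz with g11 | g11 | g11 | g11 | g11 | g11
                        · skip
                          linarith only [C.f11_0, C.f23_0, e0, g11, g6, g9, s1]
                        · skip
                          linarith only [C.f11_0, C.f11_1, C.f23_0, g1_0, g1_1, g10, g11, g4, g6, g9, s1]
                        · skip
                          linarith only [C.f33_4, C.o1, g10, g11, s2]
                        · skip
                          linarith only [C.f11_0, C.f23_0, g11, g6, g9, s1]
                        · skip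
                          linarith only [C.a3, C.f11_0, C.f11_1, C.f23_0, C.f23_1, g10, g11, g4, g6, g9, s1]
                        · skip
                          linarith only [g11, g2_0, g2_1]
                      · skip
                        linarith only [C.f11_0, C.f11_1, C.f11_2, g1_0, g1_1, g10, g2_0, g2_1, g5]
                    · skip
                      linarith only [C.f23_5, g9, s2]
                    · skip
                      linarith only [C.f11_0, C.f11_1, C.f11_2, C.o2, g1_0, g1_1, g2_0, g2_1, g8, g9]
              · skip
                rcases dj0 C.f33_5 with g7 | g7
                · skip
                  linarith only [C.f33_4, g1_0, g1_1, g2_0, g2_1, g6, g7]
                · skip
                  rcases dj0 C.f33_8 with g8 | g8
                  · skip
                    linarith only [C.b4, C.f33_7, g2_0, g2_1, g7, g8]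
                  · skip
                    rcases dj4 C.p11_33A with g9 | g9 | g9 | g9 | g9
                    · skip
                      linarith only [e0, g9]
                    · skip
                      linarith only [e3, g9]
                    · skip
                      rcases dj3 C.p11_23B with g10 | g10 | g10 | g10 | g10 | g10
                      · skip
                        linarith only [e0, g10]
                      · skip
                        linarith only [e1, g10]
                      · skip
                        linarith only [e2, g10]
                      · skip
                        linarith only [C.f11_0, C.o0, g10, g9, s1]
                      · skip
                        rcases dj7 C.tpmz with g11 | g11 | g11 | g11 | g11 | g11
                        · skip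
                          linarith only [C.f11_0, C.f23_1, C.f33_4, C.o1, e0, g10, g11, g6, g9, s1, s2]
                        · skip
                          linarith only [C.f11_1, C.f23_1, C.f23_5, C.f33_4, g11, g6, g9, s1, s2]
                        · skip
                          linarith only [C.f33_4, C.o1, g10, g11, s2]
                        · skip
                          linarith only [C.f11_0, C.f23_1, C.f33_0, C.f33_4, C.o1, g10, g11, g6, g9, s1, s2]
                        · skip
                          linarith only [C.f11_0, C.f23_1, C.f33_4, C.o1, g10, g11, g6, g9, s1, s2]
                        · skip
                          linarith only [g11, g2_0, g2_1]
                      · skip
                        linarith only [C.f11_0, C.f11_1, C.f11_2, g1_0, g1_1, g10, g2_0, g2_1, g5]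
                    · skip
                      linarith only [C.f23_5, g9, s2]
                    · skip
                      linarith only [C.f11_0, C.f11_1, C.f11_2, C.f23_9, g1_0, g1_1, g2_0, g2_1, g8, g9, s3]
          · skip
            linarith only [C.a4, C.f23_5, C.o2, g4]
        · skip
          linarith only [C.a4, C.f23_1, C.o2, g3]
  · skip
    linarith only [C.a4, C.f11_0, C.f13_0, C.f23_1, C.f33_1, C.o0, C.o2, g0, s1]

end Pool.Agent.Helper35.TQ
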