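import Pool.Agent.Helper89.TQ.Ctx
import Mathlib.Tactic

set_option autoImplicit false
set_option linter.all false
set_option maxHeartbeats 4000000

namespace Pool.Agent.Helper35.TQ

open Pool.Agent.Helper89.TQ

namespace L_c0_11_33_33_k2

theorem dj0 {P0 P1 : Prop} (h : (P0) ∨ (P1)) : (P0) ∨ (P1) := by tauto

theorem dj1 {P0 P1 P2 P3 P4 : Prop} (h : (P0) → ((P1) → (¬ ((P2) ∧ ((P3) ∧ (P4)))))) : (¬ P0) ∨ (¬ P1) ∨ (¬ P2) ∨ (¬ P3) ∨ (¬ P4) := by tauto

theorem dj2 {P0 P1 P2 P3 : Prop} (h : ((P0) ∧ (P1)) ∨ ((P2) ∧ (P3))) : (P0 ∧ P1) ∨ (P2 ∧ P3) := by tauto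

theorem dj3 {P0 P1 P2 P3 P4 P5 : Prop} (h : ¬ ((P0) ∧ ((P1) ∧ ((P2) ∧ ((P3) ∧ ((P4) ∨ (P5))))))) : (¬ P0) ∨ (¬ P1) ∨ (¬ P2) ∨ (¬ P3) ∨ (¬ P4 ∧ ¬ P5) := by tauto

theorem dj4 {P0 P1 P2 P3 : Prop} (h : ¬ ((P0) ∧ ((P1) ∧ ((P2) ∧ (P3))))) : (¬ P0) ∨ (¬ P1) ∨ (¬ P2) ∨ (¬ P3) := by tauto

theorem dj5 {P0 P1 P2 P3 P4 P5 P6 P7 P8 : Prop} (h : ¬ ((P0) ∧ ((P1) ∧ ((P2) ∧ ((P3) ∧ ((P4) ∧ ((P5) ∧ ((P6) ∧ ((P7) ∨ (P8)))))))))) : (¬ P0) ∨ (¬ P1) ∨ (¬ P2) ∨ (¬ P3) ∨ (¬ P4) ∨ (¬ P5) ∨ (¬ P6) ∨ (¬ P7 ∧ ¬ P8) := by tauto

theorem dj6 {P0 P1 P2 P3 P4 P5 : Prop} (h : (P0) → ((P1) → ((P2) → (¬ ((P3) ∧ ((P4) ∧ (P5))))))) : (¬ P0) ∨ (¬ P1) ∨ (¬ P2) ∨ (¬ P3) ∨ (¬ P4) ∨ (¬ P5) := by tauto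

end L_c0_11_33_33_k2

open L_c0_11_33_33_k2 in
theorem c0_11_33_33_k2 {n1 n2 n3 A1 A2 A3 B1 B2 B3 m11_1 m11_2 m11_3 m13_1 m13_2 m13_3 m22_1 m22_2 m22_3 m23_1 m23_2 m23_3 m33_1 m33_2 m33_3 : ℤ}
    (C : Ctx0 n1 n2 n3 A1 A2 A3 B1 B2 B3 m11_1 m11_2 m11_3 m13_1 m13_2 m13_3 m22_1 m22_2 m22_3 m23_1 m23_2 m23_3 m33_1 m33_2 m33_3)
    (e0 : 0 < B1)
    (e1 : 0 < A3)
    (s1 : 2 * A1 + 1 * B1 ≤ m11_1 + m33_1 + m33_1)
    (s2 : 2 * A2 + 1 * B2 ≤ m11_2 + m33_2 + m33_2)
    (s3 : 2 * A3 + 1 * B3 ≤ m11_3 + m33_3 + m33_3) : False := by
  rcases dj0 C.f13_2 with g0 | g0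
  · skip
    rcases dj1 C.p11_33B with g1 | g1 | g1 | g1 | g1
    · skip
      linarith only [e0, g1]
    · skip
      linarith only [e1, g1]
    · skip
      linarith only [C.f11_0, C.o0, g1, s1]
    · skip
      linarith only [C.b3, C.f11_0, C.f11_1, C.o1, g1, s2]
    · skip
      rcases dj0 C.f33_8 with g2 | g2
      · skip
        linarith only [C.b5, C.f11_2, C.f33_7, C.o1, g1, g2, s2, s3]
      · skip
        rcases dj2 C.t12 with ⟨g3_0, g3_1⟩ | ⟨g3_0, g3_1⟩
        · skip
          rcases dj2 C.t23 with ⟨g4_0, g4_1⟩ | ⟨g4_0, g4_1⟩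
          · skip
            rcases dj3 C.tzpm with g5 | g5 | g5 | g5 | ⟨g5_0, g5_1⟩
            · skip
              linarith only [g4_0, g4_1, g5]
            · skip
              linarith only [C.b5, C.f33_7, C.o1, g1, g5, s3]
            · skip
              rcases dj4 C.tzmp with g6 | g6 | g6 | g6
              · skip
                linarith only [g3_0, g3_1, g6]
              · skip
                linarith only [C.f11_0, C.f11_1, C.f33_4, g5, g6, s2]
              · skip
                linarith only [g3_0, g3_1, g4_0, g4_1, g5, g6]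
              · skip
                linarith only [C.f11_0, C.f11_1, C.f11_2, C.f33_7, g5, g6, s3]
            · skip
              linarith only [C.a4, C.f33_7, C.o1, g1, g5, s3]
            · skip
              linarith only [C.f33_7, g1, g5_0, g5_1, s3]
          · skip
            rcases dj5 C.tpzm with g5 | g5 | g5 | g5 | g5 | g5 | g5 | ⟨g5_0, g5_1⟩
            · skip
              linarith only [g3_0, g3_1, g5]
            · skip
              linarith only [g3_0, g3_1, g5]
            · skip
              linarith only [C.f33_7, C.o1, g1, g4_0, g4_1, g5, s3]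
            · skip
              linarith only [C.f11_0, C.f33_0, C.o0, g5, s1]
            · skip
              linarith only [g4_0, g4_1, g5]
            · skip
              linarith only [C.f11_2, C.f33_4, C.o1, g1, g4_0, g4_1, g5, s2, s3]
            · skip
              linarith only [C.f33_7, g1, g5, s3]
            · skip
              rcases dj0 C.f13_5 with g9 | g9
              · skip
                rcases dj0 C.f13_8 with g10 | g10
                · skip
                  linarith only [C.f11_0, C.f11_1, C.f11_2, C.f13_7, C.f33_7, C.o0, g0, g10, g9, s3]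
                · skip
                  rcases dj6 C.p13_33A with g11 | g11 | g11 | g11 | g11 | g11
                  · skip
                    linarith only [g11, g3_0, g3_1]
                  · skip
                    linarith only [C.f33_7, e1, g1, g11, s3]
                  · skip
                    linarith only [e1, g11]
                  · skip
                    linarith only [C.f11_0, g0, g11, s1]
                  · skip
                    linarith only [C.f11_0, C.f11_1, C.o0, g0, g11, g3_0, g3_1, g5_0, g5_1, g9, s2]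
                  · skip
                    linarith only [g1, g10, g11, s3]
              · skip
                rcases dj3 C.tzpm with g10 | g10 | g10 | g10 | ⟨g10_0, g10_1⟩
                · skip
                  linarith only [C.f11_0, C.f11_1, C.f11_2, C.f13_0, C.f13_3, C.f33_1, C.o1, g1, g10, g2, g4_0, g4_1, g5_0, g5_1, g9, s1]
                · skip
                  linarith only [C.f33_7, C.o1, g1, g10, g4_0, g4_1, s3]
                · skip
                  linarith only [C.f11_0, C.f11_1, C.f13_0, C.f13_3, C.f33_4, C.f33_7, C.o1, g1, g10, g5_0, g5_1, g9, s2, s3]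
                · skip
                  linarith only [C.a4, C.f33_7, C.o1, g1, g10, s3]
                · skip
                  linarith only [g10_0, g10_1, g5_0, g5_1]
        · skip
          rcases dj3 C.tzpm with g4 | g4 | g4 | g4 | ⟨g4_0, g4_1⟩
          · skip
            rcases dj2 C.t23 with ⟨g5_0, g5_1⟩ | ⟨g5_0, g5_1⟩
            · skip
              linarith only [g4, g5_0, g5_1]
            · skip
              rcases dj5 C.tpzm with g6 | g6 | g6 | g6 | g6 | g6 | g6 | ⟨g6_0, g6_1⟩
              · skip
                linarith only [C.o0, e0, g6]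
              · skip
                linarith only [g3_0, g3_1, g4, g5_0, g5_1, g6]
              · skip
                linarith only [C.f33_7, C.o1, g1, g5_0, g5_1, g6, s3]
              · skip
                linarith only [C.f11_0, C.f33_0, C.o0, g6, s1]
              · skip
                linarith only [g5_0, g5_1, g6]
              · skip
                linarith only [C.f11_0, C.f33_1, C.f33_7, C.o1, g1, g4, g6, s1, s3]
              · skip
                linarith only [C.f33_7, g1, g6, s3]
              · skip
                rcases dj0 C.f13_5 with g7 | g7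
                · skip
                  rcases dj0 C.f13_8 with g8 | g8
                  · skip
                    linarith only [C.f11_0, C.f11_1, C.f11_2, C.f13_7, C.f33_7, C.o0, g0, g7, g8, s3]
                  · skip
                    rcases dj6 C.p13_33A with g9 | g9 | g9 | g9 | g9 | g9
                    · skip
                      linarith only [C.o0, e0, g9]
                    · skip
                      linarith only [C.f11_0, C.f33_1, C.f33_7, C.o0, e0, g1, g9, s1, s3]
                    · skip
                      linarith only [e1, g9]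
                    · skip
                      linarith only [C.f11_0, g0, g9, s1]
                    · skip
                      linarith only [C.f11_0, C.f11_1, C.o0, g0, g3_0, g3_1, g6_0, g6_1, g7, g9, s2]
                    · skip
                      linarith only [g1, g8, g9, s3]
                · skip
                  linarith only [C.f11_0, C.f11_1, C.f11_2, C.f13_0, C.f13_3, C.f33_1, C.o1, g1, g2, g4, g5_0, g5_1, g6_0, g6_1, g7, s1]
          · skip
            linarith only [C.b5, C.f33_7, C.o1, g1, g4, s3]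
          · skip
            linarith only [g3_0, g3_1, g4]
          · skip
            linarith only [C.a4, C.f33_7, C.o1, g1, g4, s3]
          · skip
            linarith only [C.f33_7, g1, g4_0, g4_1, s3]
  · skip
    linarith only [C.f11_0, C.f13_0, C.f33_1, C.o2, g0, s1]

end Pool.Agent.Helper35.TQ
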