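import Pool.Agent.Helper89.TQ.Ctx
import Mathlib.Tactic

set_option autoImplicit false
set_option linter.all false
set_option maxHeartbeats 4000000

namespace Pool.Agent.Helper35.TQ

open Pool.Agent.Helper89.TQ

namespace L_c0_13_23_33_k2

theorem dj0 {P0 P1 P2 P3 : Prop} (h : ((P0) ∧ (P1)) ∨ ((P2) ∧ (P3))) : (P0 ∧ P1) ∨ (P2 ∧ P3) := by tauto

theorem dj1 {P0 P1 P2 P3 P4 P5 : Prop} (h : ¬ ((P0) ∧ ((P1) ∧ ((P2) ∧ ((P3) ∧ ((P4) ∨ (P5))))))) : (¬ P0) ∨ (¬ P1) ∨ (¬ P2) ∨ (¬ P3) ∨ (¬ P4 ∧ ¬ P5) := by tauto

theorem dj2 {P0 P1 P2 P3 P4 : Prop} (h : ¬ ((P0) ∧ ((P1) ∧ ((P2) ∧ ((P3) ∧ (P4)))))) : (¬ P0) ∨ (¬ P1) ∨ (¬ P2) ∨ (¬ P3) ∨ (¬ P4) := by tauto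

theorem dj3 {P0 P1 P2 P3 P4 P5 P6 P7 P8 : Prop} (h : ¬ ((P0) ∧ ((P1) ∧ ((P2) ∧ ((P3) ∧ ((P4) ∧ ((P5) ∧ ((P6) ∧ ((P7) ∨ (P8)))))))))) : (¬ P0) ∨ (¬ P1) ∨ (¬ P2) ∨ (¬ P3) ∨ (¬ P4) ∨ (¬ P5) ∨ (¬ P6) ∨ (¬ P7 ∧ ¬ P8) := by tauto

theorem dj4 {P0 P1 P2 P3 P4 P5 : Prop} (h : (P0) → ((P1) → ((P2) → (¬ ((P3) ∧ ((P4) ∧ (P5))))))) : (¬ P0) ∨ (¬ P1) ∨ (¬ P2) ∨ (¬ P3) ∨ (¬ P4) ∨ (¬ P5) := by tauto

end L_c0_13_23_33_k2

open L_c0_13_23_33_k2 in
theorem c0_13_23_33_k2 {n1 n2 n3 A1 A2 A3 B1 B2 B3 m11_1 m11_2 m11_3 m13_1 m13_2 m13_3 m22_1 m22_2 m22_3 m23_1 m23_2 m23_3 m33_1 m33_2 m33_3 : ℤ}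
    (C : Ctx0 n1 n2 n3 A1 A2 A3 B1 B2 B3 m11_1 m11_2 m11_3 m13_1 m13_2 m13_3 m22_1 m22_2 m22_3 m23_1 m23_2 m23_3 m33_1 m33_2 m33_3)
    (e0 : 0 < A1)
    (e1 : 0 < B3)
    (e2 : 0 < A2)
    (e3 : 0 < A3)
    (s1 : 2 * A1 + 1 * B1 ≤ m13_1 + m23_1 + m33_1)
    (s2 : 2 * A2 + 1 * B2 ≤ m13_2 + m23_2 + m33_2)
    (s3 : 2 * A3 + 1 * B3 ≤ m13_3 + m23_3 + m33_3) : False := by
  rcases dj0 C.t12 with ⟨g1_0, g1_1⟩ | ⟨g1_0, g1_1⟩
  · skip
    rcases dj0 C.t23 with ⟨g2_0, g2_1⟩ | ⟨g2_0, g2_1⟩
    · skip
      rcases dj1 C.tzpm with g3 | g3 | g3 | g3 | ⟨g3_0, g3_1⟩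
      · skip
        linarith only [g2_0, g2_1, g3]
      · skip
        linarith only [C.b5, C.f13_7, C.f23_9, C.f33_7, C.o1, g3, s3]
      · skip
        rcases dj2 C.tpmm with g5 | g5 | g5 | g5 | g5
        · skip
          linarith only [e0, g5]
        · skip
          rcases dj3 C.tpzm with g10 | g10 | g10 | g10 | g10 | g10 | g10 | ⟨g10_0, g10_1⟩
          · skip
            linarith only [e0, g10]
          · skip
            linarith only [g1_0, g1_1, g10]
          · skip
            linarith only [g10, g2_0, g2_1]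
          · skip
            linarith only [C.a1, C.o0, g10]
          · skip
            linarith only [g1_0, g1_1, g10, g2_0, g2_1, g3]
          · skip
            linarith only [C.f13_0, C.f13_3, C.f13_7, C.f23_5, C.f23_9, C.f33_4, C.f33_7, g10, g5, s2, s3]
          · skip
            linarith only [C.f13_7, C.f23_9, C.f33_7, g10, s3]
          · skip
            rcases dj4 C.p23_33A with g11 | g11 | g11 | g11 | g11 | g11
            · skip
              linarith only [e2, g11]
            · skip
              linarith only [e1, g11]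
            · skip
              linarith only [e3, g11]
            · skip
              linarith only [C.f13_0, g10_0, g10_1, g11, s1]
            · skip
              linarith only [C.f13_0, C.f13_3, g10_0, g10_1, g11, g3, s2]
            · skip
              linarith only [C.f13_7, g11, s3]
        · skip
          linarith only [C.a1, C.o0, g5]
        · skip
          linarith only [g1_0, g1_1, g2_0, g2_1, g3, g5]
        · skip
          linarith only [C.f13_7, C.f23_9, C.f33_7, g5, s3]
      · skip
        linarith only [C.a4, C.f13_7, C.f23_9, C.f33_7, C.o1, g3, s3]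
      · skip
        linarith only [C.f13_7, C.f23_9, C.f33_7, g3_0, g3_1, s3]
    · skip
      rcases dj3 C.tpzm with g3 | g3 | g3 | g3 | g3 | g3 | g3 | ⟨g3_0, g3_1⟩
      · skip
        linarith only [e0, g3]
      · skip
        linarith only [g1_0, g1_1, g3]
      · skip
        linarith only [C.f13_7, C.f23_9, C.f33_7, C.o1, g2_0, g2_1, g3, s3]
      · skip
        linarith only [C.a1, C.o0, g3]
      · skip
        linarith only [g2_0, g2_1, g3]
      · skip
        linarith only [C.a4, C.f13_7, C.f23_9, C.f33_7, C.o1, g3, s3]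
      · skip
        linarith only [C.f13_7, C.f23_9, C.f33_7, g3, s3]
      · skip
        rcases dj4 C.p13_33A with g4 | g4 | g4 | g4 | g4 | g4
        · skip
          linarith only [e0, g4]
        · skip
          linarith only [e1, g4]
        · skip
          linarith only [e3, g4]
        · skip
          rcases dj4 C.p23_33A with g7 | g7 | g7 | g7 | g7 | g7
          · skip
            linarith only [e2, g7]
          · skip
            linarith only [e1, g7]
          · skip
            linarith only [e3, g7]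
          · skip
            linarith only [C.f13_0, g3_0, g3_1, g7, s1]
          · skip
            rcases dj1 C.tzpm with g8 | g8 | g8 | g8 | ⟨g8_0, g8_1⟩
            · skip
              linarith only [C.f23_1, g3_0, g3_1, g4, g8, s1]
            · skip
              linarith only [C.f13_7, C.f23_9, C.f33_7, C.o1, g2_0, g2_1, g8, s3]
            · skip
              linarith only [C.f13_0, C.f13_3, g3_0, g3_1, g7, g8, s2]
            · skip
              linarith only [C.a4, C.f13_7, C.f23_9, C.f33_7, C.o1, g8, s3]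
            · skip
              linarith only [g3_0, g3_1, g8_0, g8_1]
          · skip
            linarith only [C.f13_7, g7, s3]
        · skip
          linarith only [C.f23_5, g3_0, g3_1, g4, s2]
        · skip
          linarith only [C.f23_9, g4, s3]
  · skip
    rcases dj1 C.tzpm with g2 | g2 | g2 | g2 | ⟨g2_0, g2_1⟩
    · skip
      rcases dj0 C.t23 with ⟨g3_0, g3_1⟩ | ⟨g3_0, g3_1⟩
      · skip
        linarith only [g2, g3_0, g3_1]
      · skip
        rcases dj2 C.tpmm with g10 | g10 | g10 | g10 | g10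
        · skip
          linarith only [e0, g10]
        · skip
          linarith only [g1_0, g1_1, g10, g2, g3_0, g3_1]
        · skip
          linarith only [C.f13_0, C.f23_1, C.f33_0, g10, g2, s1]
        · skip
          rcases dj3 C.tpzm with g13 | g13 | g13 | g13 | g13 | g13 | g13 | ⟨g13_0, g13_1⟩
          · skip
            linarith only [e0, g13]
          · skip
            linarith only [g1_0, g1_1, g13, g2, g3_0, g3_1]
          · skip
            linarith only [C.a2, C.f13_7, C.f23_9, C.f33_7, C.o0, g10, g13, g3_0, g3_1, s3]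
          · skip
            linarith only [C.f13_0, C.f23_1, C.f33_0, g13, g2, s1]
          · skip
            linarith only [g13, g3_0, g3_1]
          · skip
            linarith only [C.f13_0, C.f13_7, C.f23_1, C.f23_9, C.f33_1, C.f33_7, g10, g13, g2, s1, s3]
          · skip
            linarith only [C.f13_7, C.f23_9, C.f33_7, g13, s3]
          · skip
            rcases dj4 C.p13_33A with g14 | g14 | g14 | g14 | g14 | g14
            · skip
              linarith only [e0, g14]
            · skip
              linarith only [e1, g14]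
            · skip
              linarith only [e3, g14]
            · skip
              linarith only [C.f23_1, g13_0, g13_1, g14, g2, s1]
            · skip
              linarith only [C.f23_5, g13_0, g13_1, g14, g2, g3_0, g3_1, s2]
            · skip
              linarith only [C.f23_9, g14, s3]
        · skip
          linarith only [C.f13_7, C.f23_9, C.f33_7, g10, s3]
    · skip
      linarith only [C.b5, C.f13_7, C.f23_9, C.f33_7, C.o1, g2, s3]
    · skip
      linarith only [g1_0, g1_1, g2]
    · skip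
      linarith only [C.a4, C.f13_7, C.f23_9, C.f33_7, C.o1, g2, s3]
    · skip
      linarith only [C.f13_7, C.f23_9, C.f33_7, g2_0, g2_1, s3]

end Pool.Agent.Helper35.TQ
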