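import Pool.Agent.Helper89.TQ.Ctx
import Mathlib.Tactic

set_option autoImplicit false
set_option linter.all false
set_option maxHeartbeats 4000000

namespace Pool.Agent.Helper35.TQ

open Pool.Agent.Helper89.TQ

namespace L_c2_11_22_33_k0

theorem dj0 {P0 P1 : Prop} (h : (P0) ∨ (P1)) : (P0) ∨ (P1) := by tauto

theorem dj1 {P0 P1 P2 P3 : Prop} (h : ((P0) ∧ (P1)) ∨ ((P2) ∧ (P3))) : (P0 ∧ P1) ∨ (P2 ∧ P3) := by tauto

theorem dj2 {P0 P1 P2 P3 P4 : Prop} (h : (P0) → ((P1) → (¬ ((P2) ∧ ((P3) ∧ (P4)))))) : (¬ P0) ∨ (¬ P1) ∨ (¬ P2) ∨ (¬ P3) ∨ (¬ P4) := by tauto

theorem dj3 {P0 P1 P2 P3 : Prop} (h : ¬ ((P0) ∧ ((P1) ∧ ((P2) ∧ (P3))))) : (¬ P0) ∨ (¬ P1) ∨ (¬ P2) ∨ (¬ P3) := by tauto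

theorem dj4 {P0 P1 P2 P3 P4 P5 : Prop} (h : (P0) → ((P1) → ((P2) → (¬ ((P3) ∧ ((P4) ∧ (P5))))))) : (¬ P0) ∨ (¬ P1) ∨ (¬ P2) ∨ (¬ P3) ∨ (¬ P4) ∨ (¬ P5) := by tauto

end L_c2_11_22_33_k0

open L_c2_11_22_33_k0 in
theorem c2_11_22_33_k0 {n1 n2 n3 A1 A2 A3 B1 B2 B3 m11_1 m11_2 m11_3 m12_1 m12_2 m12_3 m13_1 m13_2 m13_3 m22_1 m22_2 m22_3 m33_1 m33_2 m33_3 : ℤ}
    (C : Ctx2 n1 n2 n3 A1 A2 A3 B1 B2 B3 m11_1 m11_2 m11_3 m12_1 m12_2 m12_3 m13_1 m13_2 m13_3 m22_1 m22_2 m22_3 m33_1 m33_2 m33_3)
    (e0 : 0 < B1)
    (e1 : 0 < A2)
    (e2 : 0 < A3)
    (s1 : 0 * A1 + 3 * B1 ≤ m11_1 + m22_1 + m33_1)
    (s2 : 0 * A2 + 3 * B2 ≤ m11_2 + m22_2 + m33_2)
    (s3 : 0 * A3 + 3 * B3 ≤ m11_3 + m22_3 + m33_3) : False := by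
  rcases dj0 C.f12_2 with g0 | g0
  · skip
    rcases dj0 C.f12_5 with g1 | g1
    · skip
      linarith only [C.b3, C.f12_4, C.o0, g0, g1]
    · skip
      rcases dj0 C.f13_2 with g2 | g2
      · skip
        rcases dj1 C.t12 with ⟨g3_0, g3_1⟩ | ⟨g3_0, g3_1⟩
        · skip
          rcases dj1 C.t23 with ⟨g4_0, g4_1⟩ | ⟨g4_0, g4_1⟩
          · skip
            rcases dj0 C.f22_2 with g5 | g5
            · skip
              rcases dj2 C.p11_22B with g7 | g7 | g7 | g7 | g7
              · skip
                linarith only [e0, g7]
              · skip
                linarith only [e1, g7]
              · skip
                linarith only [C.a1, C.f11_0, C.o0, g5, g7]
              · skip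
                rcases dj3 C.tzmp with g8 | g8 | g8 | g8
                · skip
                  linarith only [g3_0, g3_1, g8]
                · skip
                  linarith only [C.f33_4, C.o1, g7, g8, s2]
                · skip
                  linarith only [C.a1, C.f22_1, C.o0, C.o1, g5, g8]
                · skip
                  linarith only [C.f11_2, C.f22_6, C.f33_7, C.o1, g4_0, g4_1, g7, g8, s3]
              · skip
                linarith only [C.f33_7, C.o2, g7, s3]
            · skip
              rcases dj2 C.p11_22B with g7 | g7 | g7 | g7 | g7
              · skip
                linarith only [e0, g7]
              · skip
                linarith only [e1, g7]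
              · skip
                linarith only [C.f11_0, C.o0, g4_0, g4_1, g5, g7]
              · skip
                rcases dj3 C.tzmp with g8 | g8 | g8 | g8
                · skip
                  linarith only [g3_0, g3_1, g8]
                · skip
                  linarith only [C.f33_4, C.o1, g7, g8, s2]
                · skip
                  linarith only [C.o0, C.o1, g4_0, g4_1, g8]
                · skip
                  linarith only [C.f11_2, C.f22_6, C.f33_7, C.o1, g4_0, g4_1, g7, g8, s3]
              · skip
                linarith only [C.f33_7, C.o2, g7, s3]
          · skip
            rcases dj0 C.f22_2 with g5 | g5
            · skip
              rcases dj2 C.p11_22B with g7 | g7 | g7 | g7 | g7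
              · skip
                linarith only [e0, g7]
              · skip
                linarith only [e1, g7]
              · skip
                linarith only [C.a1, C.f11_0, C.o0, g5, g7]
              · skip
                rcases dj3 C.tzmp with g8 | g8 | g8 | g8
                · skip
                  linarith only [g3_0, g3_1, g8]
                · skip
                  linarith only [C.f33_4, C.o1, g7, g8, s2]
                · skip
                  linarith only [g4_0, g4_1, g8]
                · skip
                  linarith only [C.f11_2, C.f22_6, C.f33_7, C.o2, g7, g8, s3]
              · skip
                linarith only [C.f33_7, C.o2, g7, s3]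
            · skip
              rcases dj0 C.f33_2 with g7 | g7
              · skip
                rcases dj2 C.p11_33B with g8 | g8 | g8 | g8 | g8
                · skip
                  linarith only [e0, g8]
                · skip
                  linarith only [e2, g8]
                · skip
                  linarith only [C.a1, C.f11_0, C.o0, g7, g8]
                · skip
                  linarith only [C.f22_4, C.o1, g8, s2]
                · skip
                  rcases dj0 C.f33_8 with g9 | g9
                  · skip
                    linarith only [C.f11_2, C.f22_4, C.f22_6, C.o1, g8, g9, s2, s3]
                  · skip
                    rcases dj3 C.tzmp with g10 | g10 | g10 | g10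
                    · skip
                      linarith only [g10, g3_0, g3_1]
                    · skip
                      rcases dj2 C.p11_22B with g12 | g12 | g12 | g12 | g12
                      · skip
                        linarith only [e0, g12]
                      · skip
                        linarith only [e1, g12]
                      · skip
                        rcases dj0 C.f13_5 with g13 | g13
                        · skip
                          rcases dj0 C.f13_8 with g14 | g14
                          · skip
                            linarith only [C.f11_0, C.f11_1, C.f13_7, C.f22_4, C.f22_6, C.f33_4, C.o0, C.o1, g10, g13, g14, g2, g8, s2, s3]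
                          · skip
                            rcases dj4 C.p12_13B with g15 | g15 | g15 | g15 | g15 | g15
                            · skip
                              linarith only [g15, g3_0, g3_1]
                            · skip
                              linarith only [C.a2, C.o0, C.o1, e0, g15]
                            · skip
                              linarith only [C.a2, C.f11_2, C.f22_4, C.f22_6, C.f33_4, C.o0, C.o1, e0, g15, g8, g9, s2, s3]
                            · skip
                              linarith only [C.o0, g0, g15, g2]
                            · skip
                              linarith only [C.f11_0, C.f11_1, C.f22_4, C.f33_4, C.o0, C.o1, g1, g10, g13, g15, g2, s2]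
                            · skip
                              linarith only [C.f12_6, C.f22_4, C.f22_6, C.o1, g1, g14, g15, g8, s3]
                        · skip
                          linarith only [C.a1, C.f11_0, C.f11_1, C.f11_2, C.f13_0, C.f13_3, C.f22_4, C.f22_6, C.f33_1, g12, g13, g5, g7, g8, g9, s3]
                      · skip
                        linarith only [C.f33_4, C.o1, g10, g12, s2]
                      · skip
                        linarith only [C.f11_2, C.f22_4, C.f22_6, C.f33_4, C.o1, g10, g12, g8, s2, s3]
                    · skip
                      linarith only [g10, g4_0, g4_1]
                    · skip
                      linarith only [C.f22_4, C.f22_6, C.o1, g10, g8, s3]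
              · skip
                rcases dj0 C.f33_5 with g8 | g8
                · skip
                  linarith only [C.a2, C.f33_4, g3_0, g3_1, g7, g8]
                · skip
                  rcases dj0 C.f33_8 with g9 | g9
                  · skip
                    linarith only [C.b4, C.f33_7, g4_0, g4_1, g8, g9]
                  · skip
                    rcases dj2 C.p11_33B with g10 | g10 | g10 | g10 | g10
                    · skip
                      linarith only [e0, g10]
                    · skip
                      linarith only [e2, g10]
                    · skip
                      linarith only [C.a4, C.f11_0, C.f22_1, g10, g7, s1]
                    · skip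
                      linarith only [C.f22_4, C.o1, g10, s2]
                    · skip
                      rcases dj3 C.tzmp with g11 | g11 | g11 | g11
                      · skip
                        linarith only [g11, g3_0, g3_1]
                      · skip
                        rcases dj2 C.p11_22B with g12 | g12 | g12 | g12 | g12
                        · skip
                          linarith only [e0, g12]
                        · skip
                          linarith only [e1, g12]
                        · skip
                          rcases dj0 C.f13_5 with g13 | g13
                          · skip
                            rcases dj0 C.f13_8 with g14 | g14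
                            · skip
                              linarith only [C.f11_0, C.f11_1, C.f13_7, C.f22_4, C.f22_6, C.f33_4, C.o0, C.o1, g10, g11, g13, g14, g2, s2, s3]
                            · skip
                              rcases dj4 C.p12_13B with g15 | g15 | g15 | g15 | g15 | g15
                              · skip
                                linarith only [g15, g3_0, g3_1]
                              · skip
                                linarith only [C.f11_0, C.f22_1, C.f33_1, C.o1, e0, g11, g15, s1]
                              · skip
                                linarith only [C.f11_0, C.f11_2, C.f22_1, C.f22_4, C.f22_6, C.f33_1, C.f33_4, C.o1, e0, g10, g11, g15, g9, s1, s2, s3]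
                              · skip
                                linarith only [C.o0, g0, g15, g2]
                              · skip
                                linarith only [C.f11_0, C.f11_1, C.f22_4, C.f33_4, C.o0, C.o1, g1, g11, g13, g15, g2, s2]
                              · skip
                                linarith only [C.f12_6, C.f22_4, C.f22_6, C.o1, g1, g10, g14, g15, s3]
                          · skip
                            linarith only [C.a2, C.f11_0, C.f11_1, C.f11_2, C.f13_0, C.f13_3, C.f22_4, C.f22_6, C.f33_1, g10, g12, g13, g5, g9, s1, s3]
                        · skip
                          linarith only [C.f33_4, C.o1, g11, g12, s2]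
                        · skip
                          linarith only [C.f11_2, C.f22_4, C.f22_6, C.f33_4, C.o1, g10, g11, g12, s2, s3]
                      · skip
                        linarith only [g11, g4_0, g4_1]
                      · skip
                        linarith only [C.f22_4, C.f22_6, C.o1, g10, g11, s3]
        · skip
          rcases dj1 C.t23 with ⟨g4_0, g4_1⟩ | ⟨g4_0, g4_1⟩
          · skip
            rcases dj0 C.f22_2 with g5 | g5
            · skip
              rcases dj0 C.f22_5 with g6 | g6
              · skip
                linarith only [C.a1, C.a3, C.f22_4, g5, g6]
              · skip
                rcases dj2 C.p11_22B with g7 | g7 | g7 | g7 | g7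
                · skip
                  linarith only [e0, g7]
                · skip
                  linarith only [e1, g7]
                · skip
                  linarith only [C.a1, C.f11_0, C.o0, g5, g7]
                · skip
                  rcases dj3 C.tzmp with g8 | g8 | g8 | g8
                  · skip
                    linarith only [C.o0, C.o1, g3_0, g3_1, g8]
                  · skip
                    linarith only [C.f33_4, C.o1, g7, g8, s2]
                  · skip
                    linarith only [C.a1, C.f22_1, C.o0, C.o1, g5, g8]
                  · skip
                    linarith only [C.f11_2, C.f22_6, C.f33_7, C.o1, g4_0, g4_1, g7, g8, s3]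
                · skip
                  linarith only [C.f11_0, C.f11_1, C.f11_2, C.f22_6, C.f33_7, C.o1, g3_0, g3_1, g4_0, g4_1, g6, g7, s3]
            · skip
              rcases dj0 C.f22_5 with g6 | g6
              · skip
                linarith only [C.a3, C.f22_4, g4_0, g4_1, g5, g6]
              · skip
                rcases dj2 C.p11_22B with g7 | g7 | g7 | g7 | g7
                · skip
                  linarith only [e0, g7]
                · skip
                  linarith only [e1, g7]
                · skip
                  linarith only [C.f11_0, C.o0, g4_0, g4_1, g5, g7]
                · skip
                  rcases dj3 C.tzmp with g8 | g8 | g8 | g8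
                  · skip
                    linarith only [C.o0, C.o1, g3_0, g3_1, g8]
                  · skip
                    linarith only [C.f33_4, C.o1, g7, g8, s2]
                  · skip
                    linarith only [C.o0, C.o1, g4_0, g4_1, g8]
                  · skip
                    linarith only [C.f11_2, C.f22_6, C.f33_7, C.o1, g4_0, g4_1, g7, g8, s3]
                · skip
                  linarith only [C.f11_0, C.f11_1, C.f11_2, C.f22_6, C.f33_7, C.o1, g3_0, g3_1, g4_0, g4_1, g6, g7, s3]
          · skip
            rcases dj0 C.f22_2 with g5 | g5
            · skip
              rcases dj0 C.f22_5 with g6 | g6
              · skip
                linarith only [C.a1, C.a3, C.f22_4, g5, g6]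
              · skip
                rcases dj2 C.p11_22B with g7 | g7 | g7 | g7 | g7
                · skip
                  linarith only [e0, g7]
                · skip
                  linarith only [e1, g7]
                · skip
                  linarith only [C.a1, C.f11_0, C.o0, g5, g7]
                · skip
                  rcases dj3 C.tzmp with g8 | g8 | g8 | g8
                  · skip
                    linarith only [C.f11_0, C.f11_1, C.o0, g3_0, g3_1, g6, g7, g8]
                  · skip
                    linarith only [C.f11_0, C.f11_1, C.f33_4, g3_0, g3_1, g6, g7, g8, s2]
                  · skip
                    linarith only [g4_0, g4_1, g8]
                  · skip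
                    linarith only [C.f11_2, C.f22_6, C.f33_7, C.o2, g7, g8, s3]
                · skip
                  linarith only [C.f33_7, C.o2, g7, s3]
            · skip
              rcases dj0 C.f33_2 with g7 | g7
              · skip
                rcases dj2 C.p11_33B with g8 | g8 | g8 | g8 | g8
                · skip
                  linarith only [e0, g8]
                · skip
                  linarith only [e2, g8]
                · skip
                  linarith only [C.a1, C.f11_0, C.o0, g7, g8]
                · skip
                  linarith only [C.f22_4, C.o1, g8, s2]
                · skip
                  rcases dj0 C.f33_8 with g9 | g9
                  · skip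
                    linarith only [C.f11_2, C.f22_4, C.f22_6, C.o1, g8, g9, s2, s3]
                  · skip
                    rcases dj3 C.tzmp with g10 | g10 | g10 | g10
                    · skip
                      linarith only [C.o0, C.o1, g10, g3_0, g3_1]
                    · skip
                      rcases dj2 C.p11_22B with g12 | g12 | g12 | g12 | g12
                      · skip
                        linarith only [e0, g12]
                      · skip
                        linarith only [e1, g12]
                      · skip
                        rcases dj0 C.f13_5 with g13 | g13
                        · skip
                          rcases dj0 C.f13_8 with g14 | g14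
                          · skip
                            linarith only [C.f11_0, C.f11_1, C.f13_7, C.f22_4, C.f22_6, C.f33_4, C.o0, C.o1, g10, g13, g14, g2, g8, s2, s3]
                          · skip
                            rcases dj4 C.p12_13B with g15 | g15 | g15 | g15 | g15 | g15
                            · skip
                              linarith only [C.o0, e0, g15]
                            · skip
                              linarith only [C.a2, C.o0, C.o1, e0, g15]
                            · skip
                              linarith only [C.a2, C.f11_2, C.f22_4, C.f22_6, C.f33_4, C.o0, C.o1, e0, g15, g8, g9, s2, s3]
                            · skip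
                              linarith only [C.o0, g0, g15, g2]
                            · skip
                              linarith only [C.f11_0, C.f11_1, C.f22_4, C.f33_4, C.o0, C.o1, g1, g10, g13, g15, g2, s2]
                            · skip
                              linarith only [C.f12_6, C.f22_4, C.f22_6, C.o1, g1, g14, g15, g8, s3]
                        · skip
                          linarith only [C.a1, C.f11_0, C.f11_1, C.f11_2, C.f13_0, C.f13_3, C.f22_4, C.f22_6, C.f33_1, g12, g13, g5, g7, g8, g9, s3]
                      · skip
                        linarith only [C.f33_4, C.o1, g10, g12, s2]
                      · skip
                        linarith only [C.f11_2, C.f22_4, C.f22_6, C.f33_4, C.o1, g10, g12, g8, s2, s3]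
                    · skip
                      linarith only [g10, g4_0, g4_1]
                    · skip
                      linarith only [C.f22_4, C.f22_6, C.o1, g10, g8, s3]
              · skip
                rcases dj0 C.f33_5 with g8 | g8
                · skip
                  linarith only [C.a2, C.f33_4, C.o0, C.o1, g3_0, g3_1, g7, g8]
                · skip
                  rcases dj0 C.f33_8 with g9 | g9
                  · skip
                    linarith only [C.b4, C.f33_7, g4_0, g4_1, g8, g9]
                  · skip
                    rcases dj2 C.p11_33B with g10 | g10 | g10 | g10 | g10
                    · skip
                      linarith only [e0, g10]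
                    · skip
                      linarith only [e2, g10]
                    · skip
                      linarith only [C.a4, C.f11_0, C.f22_1, g10, g7, s1]
                    · skip
                      linarith only [C.f22_4, C.o1, g10, s2]
                    · skip
                      rcases dj3 C.tzmp with g11 | g11 | g11 | g11
                      · skip
                        linarith only [C.o0, C.o1, g11, g3_0, g3_1]
                      · skip
                        rcases dj2 C.p11_22B with g12 | g12 | g12 | g12 | g12
                        · skip
                          linarith only [e0, g12]
                        · skip
                          linarith only [e1, g12]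
                        · skip
                          rcases dj0 C.f13_5 with g13 | g13
                          · skip
                            rcases dj0 C.f13_8 with g14 | g14
                            · skip
                              linarith only [C.f11_0, C.f11_1, C.f13_7, C.f22_4, C.f22_6, C.f33_4, C.o0, C.o1, g10, g11, g13, g14, g2, s2, s3]
                            · skip
                              rcases dj4 C.p12_13B with g15 | g15 | g15 | g15 | g15 | g15
                              · skip
                                linarith only [C.o0, e0, g15]
                              · skip
                                linarith only [C.f11_0, C.f22_1, C.f33_1, C.o1, e0, g11, g15, s1]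
                              · skip
                                linarith only [C.f11_0, C.f11_2, C.f22_1, C.f22_4, C.f22_6, C.f33_1, C.f33_4, C.o1, e0, g10, g11, g15, g9, s1, s2, s3]
                              · skip
                                linarith only [C.o0, g0, g15, g2]
                              · skip
                                linarith only [C.f11_0, C.f11_1, C.f22_4, C.f33_4, C.o0, C.o1, g1, g11, g13, g15, g2, s2]
                              · skip
                                linarith only [C.f12_6, C.f22_4, C.f22_6, C.o1, g1, g10, g14, g15, s3]
                          · skip
                            linarith only [C.a2, C.f11_0, C.f11_1, C.f11_2, C.f13_0, C.f13_3, C.f22_4, C.f22_6, C.f33_1, g10, g12, g13, g5, g9, s1, s3]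
                        · skip
                          linarith only [C.f33_4, C.o1, g11, g12, s2]
                        · skip
                          linarith only [C.f11_2, C.f22_4, C.f22_6, C.f33_4, C.o1, g10, g11, g12, s2, s3]
                      · skip
                        linarith only [g11, g4_0, g4_1]
                      · skip
                        linarith only [C.f22_4, C.f22_6, C.o1, g10, g11, s3]
      · skip
        linarith only [C.a2, C.b4, C.f13_0, C.o1, g2]
  · skip
    linarith only [C.a2, C.f12_0, C.o1, g0]

end Pool.Agent.Helper35.TQ
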