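import Pool.Agent.Helper89.TQ.Ctx
import Mathlib.Tactic

set_option autoImplicit false
set_option linter.all false
set_option maxHeartbeats 4000000

namespace Pool.Agent.Helper35.TQ

open Pool.Agent.Helper89.TQ

namespace L_c3_22_22_33_k0

theorem dj0 {P0 P1 : Prop} (h : (P0) ∨ (P1)) : (P0) ∨ (P1) := by tauto

theorem dj1 {P0 P1 P2 P3 : Prop} (h : ((P0) ∧ (P1)) ∨ ((P2) ∧ (P3))) : (P0 ∧ P1) ∨ (P2 ∧ P3) := by tauto

theorem dj2 {P0 P1 P2 : Prop} (h : (P0) ∨ ((P1) ∨ (P2))) : (P0) ∨ (P1) ∨ (P2) := by tauto

theorem dj3 {P0 P1 P2 P3 : Prop} (h : ¬ ((P0) ∧ ((P1) ∧ ((P2) ∧ (P3))))) : (¬ P0) ∨ (¬ P1) ∨ (¬ P2) ∨ (¬ P3) := by tauto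

theorem dj4 {P0 P1 P2 P3 P4 P5 : Prop} (h : (P0) → ((P1) → ((P2) → (¬ ((P3) ∧ ((P4) ∧ (P5))))))) : (¬ P0) ∨ (¬ P1) ∨ (¬ P2) ∨ (¬ P3) ∨ (¬ P4) ∨ (¬ P5) := by tauto

theorem dj5 {P0 P1 P2 P3 P4 P5 : Prop} (h : ¬ ((P0) ∧ ((P1) ∧ ((P2) ∧ ((P3) ∧ ((P4) ∧ (P5))))))) : (¬ P0) ∨ (¬ P1) ∨ (¬ P2) ∨ (¬ P3) ∨ (¬ P4) ∨ (¬ P5) := by tauto

theorem dj6 {P0 P1 P2 P3 P4 : Prop} (h : (P0) → ((P1) → (¬ ((P2) ∧ ((P3) ∧ (P4)))))) : (¬ P0) ∨ (¬ P1) ∨ (¬ P2) ∨ (¬ P3) ∨ (¬ P4) := by tauto

end L_c3_22_22_33_k0

open L_c3_22_22_33_k0 in
theorem c3_22_22_33_k0 {n1 n2 n3 A1 A2 A3 B1 B2 B3 m11_1 m11_2 m11_3 m22_1 m22_2 m22_3 m23_1 m23_2 m23_3 m33_1 m33_2 m33_3 : ℤ}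
    (C : Ctx3 n1 n2 n3 A1 A2 A3 B1 B2 B3 m11_1 m11_2 m11_3 m22_1 m22_2 m22_3 m23_1 m23_2 m23_3 m33_1 m33_2 m33_3)
    (e0 : 0 < B2)
    (e1 : 0 < A3)
    (s1 : 0 * A1 + 3 * B1 ≤ m22_1 + m22_1 + m33_1)
    (s2 : 0 * A2 + 3 * B2 ≤ m22_2 + m22_2 + m33_2)
    (s3 : 0 * A3 + 3 * B3 ≤ m22_3 + m22_3 + m33_3) : False := by
  rcases dj0 C.f33_8 with g0 | g0
  · skip
    linarith only [C.f22_4, C.f22_6, C.f33_7, C.o2, g0, s2, s3]
  · skip
    rcases dj1 C.t12 with ⟨g1_0, g1_1⟩ | ⟨g1_0, g1_1⟩
    · skip
      rcases dj1 C.t23 with ⟨g2_0, g2_1⟩ | ⟨g2_0, g2_1⟩
      · skip
        rcases dj2 C.f23_3 with g9 | g9 | g9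
        · skip
          rcases dj2 C.f23_7 with g10 | g10 | g10
          · skip
            linarith only [C.a1, C.f23_5, g1_0, g1_1, g10, g9]
          · skip
            rcases dj0 C.f23_10 with g11 | g11
            · skip
              linarith only [C.f22_4, C.f22_6, C.f23_9, C.f33_7, C.o1, C.o2, g10, g11, s3]
            · skip
              rcases dj3 C.tmpp with g12 | g12 | g12 | g12
              · skip
                rcases dj3 C.tzmp with g13 | g13 | g13 | g13
                · skip
                  linarith only [g1_0, g1_1, g13]
                · skip
                  rcases dj4 C.p22_23B with g14 | g14 | g14 | g14 | g14 | g14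
                  · skip
                    linarith only [e0, g14]
                  · skip
                    linarith only [C.f22_1, C.f22_4, C.f33_0, C.f33_4, C.o0, g1_0, g1_1, g12, g13, g14, s1, s2]
                  · skip
                    linarith only [C.f22_1, C.f22_4, C.f33_0, C.f33_4, C.o0, C.o2, g1_0, g1_1, g12, g14, s1, s2]
                  · skip
                    linarith only [C.a1, C.f33_0, C.o0, g14, g9, s1]
                  · skip
                    linarith only [C.f22_4, C.f33_4, g10, g13, g14, s2]
                  · skip
                    linarith only [C.f33_7, C.o2, g11, g14, s3]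
                · skip
                  linarith only [C.f22_1, C.f33_0, C.o0, g12, g13, s1]
                · skip
                  linarith only [C.f22_4, C.f22_6, C.f33_7, C.o2, g13, s3]
              · skip
                linarith only [C.f22_1, C.f23_1, C.f33_0, C.o0, C.o1, g12, g9, s1]
              · skip
                linarith only [C.o0, g1_0, g1_1, g12]
              · skip
                linarith only [C.o0, C.o1, g1_0, g1_1, g12]
          · skip
            linarith only [C.a4, C.f23_5, C.o2, g10]
        · skip
          rcases dj3 C.tmpp with g12 | g12 | g12 | g12
          · skip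
            linarith only [C.f22_1, C.f23_0, C.f33_0, C.o0, C.o1, g12, g9, s1]
          · skip
            rcases dj5 C.tmzp with g13 | g13 | g13 | g13 | g13 | g13
            · skip
              linarith only [C.f22_1, C.f33_0, C.o0, C.o1, g12, g13, s1]
            · skip
              linarith only [g13, g2_0, g2_1]
            · skip
              linarith only [C.b2, C.f22_4, C.f33_4, C.o0, g12, g13, s2]
            · skip
              linarith only [C.o0, g1_0, g1_1, g13]
            · skip
              linarith only [C.o0, C.o1, g1_0, g1_1, g13]
            · skip
              linarith only [C.f22_4, C.f22_6, C.f33_7, C.o2, g13, s3]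
          · skip
            linarith only [C.o0, g1_0, g1_1, g12]
          · skip
            linarith only [C.o0, C.o1, g1_0, g1_1, g12]
        · skip
          linarith only [C.a4, C.f23_1, C.o2, g9]
      · skip
        rcases dj3 C.tmpp with g3 | g3 | g3 | g3
        · skip
          rcases dj2 C.f23_3 with g6 | g6 | g6
          · skip
            rcases dj2 C.f23_7 with g7 | g7 | g7
            · skip
              linarith only [C.a1, C.f23_5, g1_0, g1_1, g6, g7]
            · skip
              rcases dj0 C.f23_10 with g8 | g8
              · skip
                linarith only [C.f22_4, C.f22_6, C.f23_9, C.f33_7, C.o1, C.o2, g7, g8, s3]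
              · skip
                rcases dj3 C.tzmp with g11 | g11 | g11 | g11
                · skip
                  linarith only [g1_0, g1_1, g11]
                · skip
                  rcases dj4 C.p22_23B with g12 | g12 | g12 | g12 | g12 | g12
                  · skip
                    linarith only [e0, g12]
                  · skip
                    linarith only [C.f22_4, C.f33_4, C.o0, g1_0, g1_1, g11, g12, g2_0, g2_1, s2]
                  · skip
                    linarith only [C.f22_4, C.f33_4, C.o0, C.o2, g1_0, g1_1, g12, g2_0, g2_1, s2]
                  · skip
                    linarith only [C.a1, C.f33_0, C.o0, g12, g6, s1]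
                  · skip
                    linarith only [C.f22_4, C.f33_4, g11, g12, g7, s2]
                  · skip
                    linarith only [C.f33_7, C.o2, g12, g8, s3]
                · skip
                  linarith only [g11, g2_0, g2_1]
                · skip
                  linarith only [C.f22_4, C.f22_6, C.f33_7, C.o2, g11, s3]
            · skip
              linarith only [C.a4, C.f23_5, C.o2, g7]
          · skip
            linarith only [C.f23_0, C.o0, C.o1, g2_0, g2_1, g3, g6]
          · skip
            linarith only [C.f22_4, C.f23_0, C.f33_4, C.o0, C.o2, g2_0, g2_1, g3, g6, s2]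
        · skip
          linarith only [C.o0, C.o1, g2_0, g2_1, g3]
        · skip
          linarith only [C.o0, g1_0, g1_1, g3]
        · skip
          linarith only [C.o0, C.o1, g1_0, g1_1, g3]
    · skip
      rcases dj1 C.t23 with ⟨g2_0, g2_1⟩ | ⟨g2_0, g2_1⟩
      · skip
        rcases dj0 C.f33_2 with g5 | g5
        · skip
          rcases dj6 C.p22_33A with g6 | g6 | g6 | g6 | g6
          · skip
            linarith only [e0, g6]
          · skip
            linarith only [e1, g6]
          · skip
            linarith only [C.a1, C.o0, g5, g6, s1]
          · skip
            rcases dj2 C.f23_3 with g9 | g9 | g9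
            · skip
              rcases dj2 C.f23_7 with g10 | g10 | g10
              · skip
                linarith only [C.a1, C.a3, C.f23_5, g10, g9]
              · skip
                rcases dj0 C.f23_10 with g11 | g11
                · skip
                  linarith only [C.f22_4, C.f22_6, C.f23_9, C.f33_7, C.o1, C.o2, g10, g11, s3]
                · skip
                  rcases dj4 C.p22_23B with g12 | g12 | g12 | g12 | g12 | g12
                  · skip
                    linarith only [e0, g12]
                  · skip
                    linarith only [C.f22_1, C.f23_1, C.f33_0, C.o1, g1_0, g1_1, g12, g9, s1]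
                  · skip
                    linarith only [C.f22_4, C.f33_4, C.o2, e0, g12, s2]
                  · skip
                    linarith only [C.a1, C.f33_0, C.o0, g12, g9, s1]
                  · skip
                    rcases dj5 C.tmzp with g13 | g13 | g13 | g13 | g13 | g13
                    · skip
                      rcases dj3 C.tzmp with g14 | g14 | g14 | g14
                      · skip
                        linarith only [C.f22_4, C.f33_0, C.f33_3, g10, g12, g13, g14, s2]
                      · skip
                        linarith only [C.f22_4, C.f33_4, g10, g12, g14, s2]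
                      · skip
                        linarith only [C.f22_1, C.f33_0, C.o0, g13, g14, s1]
                      · skip
                        linarith only [C.f22_4, C.f22_6, C.f33_7, C.o2, g14, s3]
                    · skip
                      linarith only [g13, g2_0, g2_1]
                    · skip
                      linarith only [C.f22_4, C.f33_4, g10, g12, g13, s2]
                    · skip
                      linarith only [g1_0, g1_1, g13]
                    · skip
                      linarith only [g1_0, g1_1, g13]
                    · skip
                      linarith only [C.f22_4, C.f22_6, C.f33_7, C.o2, g13, s3]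
                  · skip
                    linarith only [C.f33_7, C.o2, g11, g12, s3]
              · skip
                linarith only [C.a4, C.f23_5, C.o2, g10]
            · skip
              rcases dj5 C.tmzp with g12 | g12 | g12 | g12 | g12 | g12
              · skip
                linarith only [C.f22_1, C.f22_4, C.f23_0, C.f33_0, C.o0, g12, g6, g9, s1, s2]
              · skip
                linarith only [g12, g2_0, g2_1]
              · skip
                rcases dj3 C.tmpp with g13 | g13 | g13 | g13
                · skip
                  linarith only [C.f22_1, C.f22_4, C.f23_0, C.f33_0, C.f33_4, C.o0, g12, g13, g9, s1, s2]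
                · skip
                  linarith only [C.b2, C.f22_4, C.f33_4, C.o0, g12, g13, s2]
                · skip
                  linarith only [g1_0, g1_1, g13]
                · skip
                  linarith only [C.a3, C.f22_4, C.f33_4, C.o0, g12, g13, s2]
              · skip
                linarith only [g1_0, g1_1, g12]
              · skip
                linarith only [g1_0, g1_1, g12]
              · skip
                linarith only [C.f22_4, C.f22_6, C.f33_7, C.o2, g12, s3]
            · skip
              linarith only [C.a4, C.f23_1, C.o2, g9]
          · skip
            linarith only [C.o2, g0, g6, s3]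
        · skip
          rcases dj5 C.tmzp with g9 | g9 | g9 | g9 | g9 | g9
          · skip
            linarith only [C.f22_1, C.f22_4, C.f33_0, C.f33_4, C.o0, g5, g9, s1, s2]
          · skip
            linarith only [g2_0, g2_1, g9]
          · skip
            rcases dj3 C.tmpp with g10 | g10 | g10 | g10
            · skip
              linarith only [C.f22_1, C.f22_4, C.f33_0, C.f33_4, C.o0, g10, g5, s1, s2]
            · skip
              linarith only [C.f22_1, C.f22_4, C.f33_1, C.f33_4, C.o0, g10, g9, s1, s2]
            · skip
              linarith only [g1_0, g1_1, g10]
            · skip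
              linarith only [C.a3, C.f22_4, C.f33_4, C.o0, g10, g9, s2]
          · skip
            linarith only [g1_0, g1_1, g9]
          · skip
            linarith only [g1_0, g1_1, g9]
          · skip
            linarith only [C.f22_4, C.f22_6, C.f33_7, C.o2, g9, s3]
      · skip
        rcases dj2 C.f23_3 with g9 | g9 | g9
        · skip
          rcases dj2 C.f23_7 with g10 | g10 | g10
          · skip
            linarith only [C.a1, C.a3, C.f23_5, g10, g9]
          · skip
            rcases dj0 C.f23_10 with g11 | g11
            · skip
              linarith only [C.f22_4, C.f22_6, C.f23_9, C.f33_7, C.o1, C.o2, g10, g11, s3]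
            · skip
              rcases dj4 C.p22_23B with g12 | g12 | g12 | g12 | g12 | g12
              · skip
                linarith only [e0, g12]
              · skip
                linarith only [C.o1, e0, g12]
              · skip
                linarith only [C.f22_4, C.f33_4, C.o2, g1_0, g1_1, g12, g2_0, g2_1, s2]
              · skip
                linarith only [C.a1, C.f33_0, C.o0, g12, g9, s1]
              · skip
                rcases dj5 C.tmzp with g13 | g13 | g13 | g13 | g13 | g13
                · skip
                  rcases dj3 C.tzmp with g14 | g14 | g14 | g14
                  · skip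
                    linarith only [C.f22_4, C.f33_0, C.f33_3, g10, g12, g13, g14, s2]
                  · skip
                    linarith only [C.f22_4, C.f33_4, g10, g12, g14, s2]
                  · skip
                    linarith only [g14, g2_0, g2_1]
                  · skip
                    linarith only [C.f22_4, C.f22_6, C.f33_7, C.o2, g14, s3]
                · skip
                  linarith only [C.o0, C.o1, g13, g2_0, g2_1]
                · skip
                  linarith only [C.f22_4, C.f33_4, g10, g12, g13, s2]
                · skip
                  linarith only [g1_0, g1_1, g13]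
                · skip
                  linarith only [g1_0, g1_1, g13]
                · skip
                  linarith only [g13, g2_0, g2_1]
              · skip
                linarith only [C.f33_7, C.o2, g11, g12, s3]
          · skip
            linarith only [C.a4, C.f23_5, C.o2, g10]
        · skip
          rcases dj3 C.tmpp with g12 | g12 | g12 | g12
          · skip
            linarith only [C.f23_0, C.o0, C.o1, g12, g2_0, g2_1, g9]
          · skip
            linarith only [C.o0, C.o1, g12, g2_0, g2_1]
          · skip
            linarith only [g1_0, g1_1, g12]
          · skip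
            rcases dj5 C.tmzp with g13 | g13 | g13 | g13 | g13 | g13
            · skip
              linarith only [C.f22_4, C.f33_0, C.f33_3, C.o0, g12, g13, s2]
            · skip
              linarith only [C.o0, C.o1, g13, g2_0, g2_1]
            · skip
              linarith only [C.a3, C.f22_4, C.f33_4, C.o0, g12, g13, s2]
            · skip
              linarith only [g1_0, g1_1, g13]
            · skip
              linarith only [g1_0, g1_1, g13]
            · skip
              linarith only [g13, g2_0, g2_1]
        · skip
          linarith only [C.a4, C.f23_1, C.o2, g9]

end Pool.Agent.Helper35.TQ
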